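import Mathlib
import Pool.Agent.H68.VD.S

/-!
# Project TH: area preserving diffeomorphisms of the 2-torus (MP_b0bf68_gt). Definitions
-/

set_option autoImplicit false

open MeasureTheory Set Pool.Agent.H68.VD
open scoped ENNReal ContDiff

namespace TH

noncomputable section

/-- The deck group of the torus `ℝ² / ℤ²`: the translations by the integer vectors. -/
def lat : Set (Eu 2 → Eu 2) := {f | ∃ k : Fin 2 → ℤ, f = fun x => x + iv k}

/-- the point with the coordinates `q`, `p` -/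
def pt (q p : ℝ) : Eu 2 := WithLp.toLp 2 ![q, p]

/-- the point on the line `x_i = a` whose other coordinate is `r` -/
def ln (i : Fin 2) (a r : ℝ) : Eu 2 := if i = 0 then pt a r else pt r a

/-- exchange of the coordinates -/
def sw (x : Eu 2) : Eu 2 := pt (x 1) (x 0)

/-- the mean of a field -/
def mn (u : Eu 2 → Eu 2) : Eu 2 := ∫ x in cube 2, u x

/-- the mean displacement of a map -/
def dsp (f : Eu 2 → Eu 2) : Eu 2 := ∫ x in cube 2, (f x - x)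

/-- the flux of the field `u` minus its mean through a segment of the line `x_i = a` -/
def flx (i : Fin 2) (u : Eu 2 → Eu 2) (a y : ℝ) : ℝ := ∫ r in (0 : ℝ)..y, (u (ln i a r) i - mn u i)

/-- the largest flux through a segment of the line `x_i = a` -/
def osf (i : Fin 2) (u : Eu 2 → Eu 2) (a : ℝ) : ℝ := sSup ((fun y => |flx i u a y|) '' Icc (0 : ℝ) 1)

/-- divergence free -/
def DvF (u : Eu 2 → Eu 2) : Prop := ∀ x, ∑ j, (fderiv ℝ u x (ev j)) j = 0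

/-- the norm controls the largest flux on typical lines -/
def Slc (N : (Eu 2 → Eu 2) → ℝ≥0∞) : Prop := ∃ C : ℝ, 0 ≤ C ∧ ∀ (i : Fin 2) (u : Eu 2 → Eu 2),
  ContDiff ℝ ∞ u → Per u → DvF u →
  ∫⁻ a in Icc (0 : ℝ) 1, ENNReal.ofReal (osf i u a) ≤ ENNReal.ofReal C * N u

/-- the norm controls the mean -/
def Mnc (N : (Eu 2 → Eu 2) → ℝ≥0∞) : Prop := ∃ C : ℝ, 0 ≤ C ∧ ∀ u : Eu 2 → Eu 2,
  Continuous u → Per u → ENNReal.ofReal ‖mn u‖ ≤ ENNReal.ofReal C * N u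

/-- a flow `φ` with the periodic Hamiltonian `H` and the velocity field `u = (∂_1 H, - ∂_0 H)` -/
structure HFl (u : ℝ → Eu 2 → Eu 2) (H : ℝ → Eu 2 → ℝ) (φ : ℝ → Eu 2 → Eu 2) : Prop where
  us : ContDiff ℝ ∞ (fun z : ℝ × Eu 2 => u z.1 z.2)
  up : ∀ t, Per (u t)
  Hs : ContDiff ℝ ∞ (fun z : ℝ × Eu 2 => H z.1 z.2)
  Hp : ∀ t, Per (H t)
  Hd : ∀ t x, HasFDerivAt (H t)
    (u t x 0 • (EuclideanSpace.proj 1 : Eu 2 →L[ℝ] ℝ) - u t x 1 • (EuclideanSpace.proj 0 : Eu 2 →L[ℝ] ℝ)) x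
  fs : ContDiff ℝ ∞ (fun z : ℝ × Eu 2 => φ z.1 z.2)
  fd : ∀ t x, HasDerivAt (fun τ => φ τ x) (u t (φ t x)) t
  f0 : ∀ x, φ 0 x = x

/-- the integrand of the action -/
def agr (u : ℝ → Eu 2 → Eu 2) (H : ℝ → Eu 2 → ℝ) (a t : ℝ) (x : Eu 2) : ℝ :=
  (x 0 - a) * u t x 1 + H t x

/-- the action of the orbit of the point `(a, s)` -/
def act (u : ℝ → Eu 2 → Eu 2) (H : ℝ → Eu 2 → ℝ) (φ : ℝ → Eu 2 → Eu 2) (a s : ℝ) : ℝ :=
  ∫ t in (0 : ℝ)..1, agr u H a t (φ t (pt a s))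

/-- `Q`, `p` is an orbit of the symplectic Euler scheme with `n` steps -/
structure Orb (u : ℝ → Eu 2 → Eu 2) (n : ℕ) (Q p : ℕ → ℝ) : Prop where
  hQ : ∀ i < n, Q (i + 1) = Q i + 1 / n * u (i / n) (pt (Q (i + 1)) (p i)) 0
  hp : ∀ i < n, p (i + 1) = p i + 1 / n * u (i / n) (pt (Q (i + 1)) (p i)) 1

/-- convolution of the periodic function `θ` with the kernel `K` at the scale `1/l` -/
def cvt (K : Eu 2 → Eu 2) (l : ℝ) (θ : Eu 2 → ℝ) (z : Eu 2) : Eu 2 := ∫ w, θ (z + l⁻¹ • w) • K w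

/-- convolution of the periodic field `u` with the kernel `K` at the scale `1/l` -/
def cvg (K : Eu 2 → Eu 2) (l : ℝ) (u : Eu 2 → Eu 2) (x : Eu 2) : ℝ :=
  ∫ w, inner ℝ (u (x - l⁻¹ • w)) (K w)

/-- `H` is a periodic Hamiltonian of the periodic field `v` -/
structure MH (v : Eu 2 → Eu 2) (H : Eu 2 → ℝ) : Prop where
  vs : ContDiff ℝ ∞ v
  vp : Per v
  Hs : ContDiff ℝ ∞ H
  Hp : Per H
  Hd : ∀ x, HasFDerivAt H
    (v x 0 • (EuclideanSpace.proj 1 : Eu 2 →L[ℝ] ℝ) - v x 1 • (EuclideanSpace.proj 0 : Eu 2 →L[ℝ] ℝ)) x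

/-- the end of a path, corrected to have mean displacement zero -/
def nrm (f : Eu 2 → Eu 2) (x : Eu 2) : Eu 2 := f x - dsp f

/-- the bound of the action function on the line `x_i = a` -/
def Ebd (i : Fin 2) (φ : ℝ → Eu 2 → Eu 2) (a : ℝ) : ℝ :=
  2 * ∫ t in (0 : ℝ)..1, osf i (vel φ t) (a + dsp (φ t) i)

end

end TH
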