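import Mathlib
import Pool.Agent.TH.Defs
import Pool.Agent.H68.VD.Hs

/-! # Project TH, row TH-21: slicing for `H^s` (helper15) -/

set_option autoImplicit false
set_option linter.all false

open MeasureTheory Set Pool.Agent.H68.VD
open scoped ENNReal ContDiff

namespace TH

noncomputable section

/-! ### The cube as a product -/

private def fr : ℝ × ℝ ≃ᵐ Eu 2 :=
  (MeasurableEquiv.finTwoArrow (α := ℝ)).symm.trans (MeasurableEquiv.toLp 2 (Fin 2 → ℝ))

private lemma fr_apply (a b : ℝ) : fr (a, b) = pt a b := rfl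

private lemma fr_mp : MeasurePreserving fr volume volume := by
  have h1 := (volume_preserving_finTwoArrow ℝ).symm
  have h2 := PiLp.volume_preserving_toLp (Fin 2)
  exact h2.comp h1

private lemma pt_zero (a b : ℝ) : pt a b 0 = a := rfl

private lemma pt_one (a b : ℝ) : pt a b 1 = b := rfl

private lemma fr_cube : fr ⁻¹' cube 2 = Ico (0 : ℝ) 1 ×ˢ Ico (0 : ℝ) 1 := by
  ext ⟨a, b⟩
  rw [mem_preimage, fr_apply, mem_prod]
  constructor
  · intro h
    exact ⟨h 0, h 1⟩
  · rintro ⟨h0, h1⟩ i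
    fin_cases i
    · exact h0
    · exact h1

private lemma pt_cont : Continuous fun z : ℝ × ℝ => pt z.1 z.2 := by
  refine (PiLp.continuous_toLp 2 _).comp ?_
  refine continuous_pi fun i => ?_
  fin_cases i
  · exact continuous_fst
  · exact continuous_snd

private lemma ln_cont (i : Fin 2) : Continuous fun z : ℝ × ℝ => ln i z.1 z.2 := by
  unfold ln
  split_ifs
  · exact pt_cont
  · exact pt_cont.comp continuous_swap

private lemma ii_eq {F : Type*} [NormedAddCommGroup F] [NormedSpace ℝ F] (f : ℝ → F) :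
    ∫ a in (0 : ℝ)..1, f a = ∫ a in Ico (0 : ℝ) 1, f a := by
  rw [intervalIntegral.integral_of_le zero_le_one]
  exact setIntegral_congr_set (Ioc_ae_eq_Icc.trans Ico_ae_eq_Icc.symm)

private lemma intOn_prod {F : Type*} [NormedAddCommGroup F] {f : ℝ × ℝ → F} (hf : Continuous f) :
    IntegrableOn f (Ico (0 : ℝ) 1 ×ˢ Ico (0 : ℝ) 1) (volume : Measure (ℝ × ℝ)) := by
  refine (hf.continuousOn.integrableOn_compact
    ((isCompact_Icc (a := (0 : ℝ)) (b := 1)).prod (isCompact_Icc (a := (0 : ℝ)) (b := 1)))).mono_set ?_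
  exact prod_mono Ico_subset_Icc_self Ico_subset_Icc_self

private lemma slh_fub0 {F : Type*} [NormedAddCommGroup F] [NormedSpace ℝ F] {f : Eu 2 → F}
    (hf : Continuous f) : ∫ x in cube 2, f x =
      ∫ z in Ico (0 : ℝ) 1 ×ˢ Ico (0 : ℝ) 1, f (pt z.1 z.2) := by
  have h1 := fr_mp.setIntegral_preimage_emb fr.measurableEmbedding f (cube 2)
  rw [← h1, fr_cube]
  rfl

private lemma slh_fub {F : Type*} [NormedAddCommGroup F] [NormedSpace ℝ F] {f : Eu 2 → F}
    (hf : Continuous f) (i : Fin 2) :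
    ∫ x in cube 2, f x = ∫ a in (0 : ℝ)..1, ∫ r in (0 : ℝ)..1, f (ln i a r) := by
  rw [slh_fub0 hf]
  have hc : Continuous fun z : ℝ × ℝ => f (pt z.1 z.2) := hf.comp pt_cont
  have hi := intOn_prod hc
  simp only [ii_eq]
  by_cases h : i = 0
  · have h2 : ∀ a r, ln i a r = pt a r := fun a r => by simp [ln, h]
    simp only [h2]
    exact setIntegral_prod _ hi
  · have h2 : ∀ a r, ln i a r = pt r a := fun a r => by simp [ln, h]
    simp only [h2]
    have h3 := setIntegral_prod_swap (μ := (volume : Measure ℝ)) (ν := (volume : Measure ℝ))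
      (Ico (0 : ℝ) 1) (Ico (0 : ℝ) 1) (fun z : ℝ × ℝ => f (pt z.1 z.2))
    have h4 : ∫ z in Ico (0 : ℝ) 1 ×ˢ Ico (0 : ℝ) 1, f (pt z.1 z.2) =
        ∫ z in Ico (0 : ℝ) 1 ×ˢ Ico (0 : ℝ) 1, f (pt z.2 z.1) := h3.symm
    rw [h4]
    exact setIntegral_prod (fun z : ℝ × ℝ => f (pt z.2 z.1)) (intOn_prod (hf.comp (pt_cont.comp continuous_swap)))

/-! ### One variable -/

private def e1 (m : ℤ) (r : ℝ) : ℂ := Complex.exp (-(2 * Real.pi * Complex.I * ((m : ℂ) * r)))

private lemma e1_cont (m : ℤ) : Continuous (e1 m) := by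
  unfold e1
  fun_prop

private lemma e1_norm (m : ℤ) (r : ℝ) : ‖e1 m r‖ = 1 := by
  unfold e1
  have : -(2 * Real.pi * Complex.I * ((m : ℂ) * r)) =
      ((-(2 * Real.pi * ((m : ℝ) * r)) : ℝ) : ℂ) * Complex.I := by
    push_cast
    ring
  rw [this]
  exact Complex.norm_exp_ofReal_mul_I _

private def cf (f : ℝ → ℂ) (m : ℤ) : ℂ := ∫ r in (0 : ℝ)..1, f r * e1 m r

private lemma cf_eq (f : ℝ → ℂ) (m : ℤ) (h : (0 : ℝ) < 1) : fourierCoeffOn h f m = cf f m := by
  rw [fourierCoeffOn_eq_integral]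
  unfold cf e1
  simp only [fourier_coe_apply, sub_zero, smul_eq_mul, one_div, inv_one, one_smul]
  refine intervalIntegral.integral_congr fun x _ => ?_
  show _ = f x * Complex.exp _
  rw [mul_comm]
  congr 2
  push_cast
  ring

private lemma memL2 {f : ℝ → ℂ} (hf : Continuous f) :
    MemLp f 2 ((volume : Measure ℝ).restrict (Ioc 0 1)) := by
  obtain ⟨C, hC⟩ := (isCompact_Icc (a := (0 : ℝ)) (b := 1)).exists_bound_of_continuousOn hf.continuousOn
  refine MemLp.of_bound hf.aestronglyMeasurable C ?_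
  rw [ae_restrict_iff' measurableSet_Ioc]
  exact Filter.Eventually.of_forall fun x hx => hC x (Ioc_subset_Icc_self hx)

private lemma par1 {f : ℝ → ℂ} (hf : Continuous f) :
    ∑' l : ℤ, ‖cf f l‖ₑ ^ 2 = ∫⁻ a in Icc (0 : ℝ) 1, ‖f a‖ₑ ^ 2 := by
  have h1 := hasSum_sq_fourierCoeffOn (zero_lt_one (α := ℝ)) (memL2 hf)
  simp only [cf_eq, sub_zero, inv_one, one_smul] at h1
  have h2 : ∫⁻ a in Icc (0 : ℝ) 1, ‖f a‖ₑ ^ 2 = ENNReal.ofReal (∫ x in (0 : ℝ)..1, ‖f x‖ ^ 2) := by
    rw [intervalIntegral.integral_of_le zero_le_one, restrict_Ioc_eq_restrict_Icc,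
      ofReal_integral_eq_lintegral_ofReal]
    · refine lintegral_congr fun x => ?_
      rw [ENNReal.ofReal_pow (norm_nonneg _), ofReal_norm]
    · exact ((hf.norm.pow 2).continuousOn.integrableOn_compact isCompact_Icc)
    · exact Filter.Eventually.of_forall fun x => sq_nonneg _
  rw [h2, ← h1.tsum_eq, ENNReal.ofReal_tsum_of_nonneg (fun k => sq_nonneg _) h1.summable]
  refine tsum_congr fun k => ?_
  rw [ENNReal.ofReal_pow (norm_nonneg _), ofReal_norm]

private lemma sup1 {g : ℝ → ℝ} (hg : Continuous g) (h0 : ∫ r in (0 : ℝ)..1, g r = 0) {y : ℝ}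
    (hy : y ∈ Icc (0 : ℝ) 1) : ENNReal.ofReal |∫ r in (0 : ℝ)..y, g r| ≤
      ∑' m : ℤ, ENNReal.ofReal (1 / (Real.pi * |(m : ℝ)|)) * ‖cf (fun r => (g r : ℂ)) m‖ₑ := by
  by_cases htop : ∑' m : ℤ, ENNReal.ofReal (1 / (Real.pi * |(m : ℝ)|)) *
      ‖cf (fun r => (g r : ℂ)) m‖ₑ = ⊤
  · rw [htop]; exact le_top
  rcases hy.2.eq_or_lt with rfl | hy1
  · rw [h0]; simp
  have hT : Fact ((0 : ℝ) < 1) := ⟨zero_lt_one⟩
  set F : ℝ → ℂ := fun y => ((∫ r in (0 : ℝ)..y, g r : ℝ) : ℂ) with hF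
  have hFd : ∀ x, HasDerivAt F (g x : ℂ) x := by
    intro x
    have h1 : HasDerivAt (fun y => ∫ r in (0 : ℝ)..y, g r) (g x) x :=
      intervalIntegral.integral_hasDerivAt_right (hg.intervalIntegrable _ _)
        (hg.stronglyMeasurableAtFilter _ _) hg.continuousAt
    exact h1.ofReal_comp
  have hFc : Continuous F := continuous_iff_continuousAt.2 fun x => (hFd x).continuousAt
  have hF0 : F 0 = 0 := by simp [hF]
  have hF1 : F (0 + 1) = 0 := by simp [hF, h0]
  have hlift : Continuous (AddCircle.liftIco (1 : ℝ) 0 F) :=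
    AddCircle.liftIco_continuous (by rw [hF0, hF1]) hFc.continuousOn
  set f : C(AddCircle (1 : ℝ), ℂ) := ⟨AddCircle.liftIco (1 : ℝ) 0 F, hlift⟩ with hf
  have hcoef : ∀ m : ℤ, m ≠ 0 → fourierCoeff f m =
      1 / (2 * Real.pi * Complex.I * m) * cf (fun r => (g r : ℂ)) m := by
    intro m hm
    have h1 : fourierCoeff f m = fourierCoeffOn (lt_add_of_pos_right 0 hT.out) F m :=
      fourierCoeff_liftIco_eq F m
    have h2 := fourierCoeffOn_of_hasDerivAt (lt_add_of_pos_right (0 : ℝ) (zero_lt_one (α := ℝ)))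
      (f := F) (f' := fun x => (g x : ℂ)) hm (fun x _ => hFd x)
      ((Complex.continuous_ofReal.comp hg).intervalIntegrable _ _)
    rw [h1, h2, hF0, hF1]
    have h3 : fourierCoeffOn (lt_add_of_pos_right (0 : ℝ) (zero_lt_one (α := ℝ)))
        (fun x => (g x : ℂ)) m = cf (fun r => (g r : ℂ)) m := by
      have h4 : ∀ b : ℝ, b = 1 → ∀ hb : 0 < b, fourierCoeffOn hb (fun x => (g x : ℂ)) m =
          cf (fun r => (g r : ℂ)) m := by
        rintro b rfl hb
        exact cf_eq _ _ _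
      exact h4 _ (zero_add 1) _
    rw [h3]
    have hm' : (m : ℂ) ≠ 0 := Int.cast_ne_zero.2 hm
    have hpi : (Real.pi : ℂ) ≠ 0 := Complex.ofReal_ne_zero.2 Real.pi_ne_zero
    push_cast
    field_simp
    ring
  have hn : ∀ m : ℤ, m ≠ 0 → 2 * ‖fourierCoeff f m‖ =
      1 / (Real.pi * |(m : ℝ)|) * ‖cf (fun r => (g r : ℂ)) m‖ := by
    intro m hm
    rw [hcoef m hm, norm_mul, norm_div, norm_mul, norm_mul, norm_mul, Complex.norm_I,
      Complex.norm_real, Complex.norm_intCast, norm_one, Real.norm_eq_abs,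
      abs_of_pos Real.pi_pos]
    have h2 : ‖(2 : ℂ)‖ = 2 := by simp
    rw [h2]
    have hm' : |(m : ℝ)| ≠ 0 := abs_ne_zero.2 (Int.cast_ne_zero.2 hm)
    have := Real.pi_ne_zero
    field_simp
  set d : ℤ → ℝ := fun m : ℤ => 1 / (Real.pi * |(m : ℝ)|) * ‖cf (fun r => (g r : ℂ)) m‖ with hd
  have hd0 : ∀ m, 0 ≤ d m := fun m => by positivity
  have hde : ∀ m : ℤ, ENNReal.ofReal (1 / (Real.pi * |(m : ℝ)|)) * ‖cf (fun r => (g r : ℂ)) m‖ₑ =
      ‖d m‖ₑ := by
    intro m
    have h5 : ‖d m‖ₑ = ENNReal.ofReal (d m) := by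
      rw [← ofReal_norm, Real.norm_of_nonneg (hd0 m)]
    rw [h5]
    show _ = ENNReal.ofReal (1 / (Real.pi * |(m : ℝ)|) * ‖cf (fun r => (g r : ℂ)) m‖)
    rw [ENNReal.ofReal_mul (by positivity), ofReal_norm]
  simp only [hde] at htop ⊢
  have hds : Summable d := by
    have := tsum_enorm_ne_top_iff_summable_norm.1 htop
    exact this.of_norm
  have hs : Summable (fourierCoeff f) := by
    refine Summable.of_norm ?_
    have h1 : Summable fun m : ℤ => d m + (if m = 0 then ‖fourierCoeff f 0‖ else 0) :=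
      hds.add (summable_of_ne_finset_zero (s := {0}) fun m hm => by
        rw [Finset.mem_singleton] at hm; simp [hm])
    refine h1.of_nonneg_of_le (fun m => norm_nonneg _) fun m => ?_
    by_cases hm : m = 0
    · subst hm
      simp only [if_true]
      linarith [hd0 0]
    · simp only [hm, if_false, add_zero]
      have := hn m hm
      rw [show d m = 2 * ‖fourierCoeff f m‖ from this.symm]
      linarith [norm_nonneg (fourierCoeff f m)]
  have hp1 := has_pointwise_sum_fourier_series_of_summable hs ((y : ℝ) : AddCircle (1 : ℝ))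
  have hp0 := has_pointwise_sum_fourier_series_of_summable hs ((0 : ℝ) : AddCircle (1 : ℝ))
  have hfy : f ((y : ℝ) : AddCircle (1 : ℝ)) = F y := by
    show AddCircle.liftIco (1 : ℝ) 0 F (y : AddCircle (1 : ℝ)) = F y
    exact AddCircle.liftIco_coe_apply (f := F) ⟨hy.1, by rw [zero_add]; exact hy1⟩
  have hf0 : f ((0 : ℝ) : AddCircle (1 : ℝ)) = F 0 := by
    show AddCircle.liftIco (1 : ℝ) 0 F ((0 : ℝ) : AddCircle (1 : ℝ)) = F 0
    exact AddCircle.liftIco_coe_apply (f := F) ⟨le_rfl, by norm_num⟩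
  have hd1 := hp1.sub hp0
  rw [hfy, hf0, hF0, sub_zero] at hd1
  have h1 : ENNReal.ofReal |∫ r in (0 : ℝ)..y, g r| = ‖F y‖ₑ := by
    rw [← ofReal_norm, hF, Complex.norm_real, Real.norm_eq_abs]
  rw [h1, ← hd1.tsum_eq]
  refine (enorm_tsum_le_tsum_enorm).trans (ENNReal.tsum_le_tsum fun m => ?_)
  rw [← ofReal_norm, ← ofReal_norm]
  refine ENNReal.ofReal_le_ofReal ?_
  rw [Real.norm_of_nonneg (hd0 m)]
  by_cases hm : m = 0
  · subst hm
    simp
    simp [hd]
  · rw [show d m = 2 * ‖fourierCoeff f m‖ from (hn m hm).symm, ← smul_sub, norm_smul, mul_comm]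
    refine mul_le_mul_of_nonneg_right ?_ (norm_nonneg _)
    refine (norm_sub_le _ _).trans ?_
    have h3 : ∀ x : AddCircle (1 : ℝ), ‖(fourier m x : ℂ)‖ = 1 := fun x => by
      rw [fourier_apply]
      exact Circle.norm_coe _
    rw [h3, h3]
    norm_num

/-! ### Slices -/

/-- the frequency with `l` at the place `i` and `m` at the other place -/
private def mk (i : Fin 2) (l m : ℤ) : Fin 2 → ℤ := fun k => if k = i then l else m

private lemma mk_inj (i : Fin 2) : Function.Injective fun z : ℤ × ℤ => mk i z.2 z.1 := by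
  rintro ⟨m, l⟩ ⟨m', l'⟩ h
  have h1 := congrFun h i
  have h2 := congrFun h (1 - i)
  have h3 : (1 - i : Fin 2) ≠ i := by fin_cases i <;> decide
  simp only [mk, if_true, h3, if_false] at h1 h2
  rw [h1, h2]

private lemma ex_ln (i : Fin 2) (l m : ℤ) (a r : ℝ) :
    HsA.ex (mk i l m) (ln i a r) = e1 m r * e1 l a := by
  unfold HsA.ex e1
  rw [← Complex.exp_add, Fin.sum_univ_two]
  congr 1
  fin_cases i
  · show -(2 * Real.pi * Complex.I * ((l : ℂ) * (a : ℂ) + (m : ℂ) * (r : ℂ))) = _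
    ring
  · show -(2 * Real.pi * Complex.I * ((m : ℂ) * (r : ℂ) + (l : ℂ) * (a : ℂ))) = _
    ring

/-- the Fourier coefficient of the component `i` on the line `x_i = a` -/
private def cc (u : Eu 2 → Eu 2) (i : Fin 2) (m : ℤ) (a : ℝ) : ℂ :=
  cf (fun r => ((u (ln i a r) i : ℝ) : ℂ)) m

private lemma comp_cont {u : Eu 2 → Eu 2} (hu : Continuous u) (i : Fin 2) :
    Continuous fun z : ℝ × ℝ => u (ln i z.1 z.2) i :=
  (HsA.coord_cont hu i).comp (ln_cont i)

private lemma cc_cont {u : Eu 2 → Eu 2} (hu : Continuous u) (i : Fin 2) (m : ℤ) :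
    Continuous (cc u i m) := by
  unfold cc cf
  refine intervalIntegral.continuous_parametric_intervalIntegral_of_continuous' ?_ 0 1
  exact (Complex.continuous_ofReal.comp (comp_cont hu i)).mul ((e1_cont m).comp continuous_snd)

private lemma fc_slice {u : Eu 2 → Eu 2} (hu : Continuous u) (i : Fin 2) (l m : ℤ) :
    fc u (mk i l m) i = cf (cc u i m) l := by
  have h := slh_fub (f := fun x => ((u x i : ℝ) : ℂ) * HsA.ex (mk i l m) x)
    ((Complex.continuous_ofReal.comp (HsA.coord_cont hu i)).mul (HsA.ex_cont _)) i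
  rw [HsA.fc_apply, h]
  unfold cc cf
  refine intervalIntegral.integral_congr fun a _ => ?_
  show ∫ r in (0 : ℝ)..1, _ = _ * e1 l a
  rw [← intervalIntegral.integral_mul_const]
  refine intervalIntegral.integral_congr fun r _ => ?_
  show ((u (ln i a r) i : ℝ) : ℂ) * HsA.ex (mk i l m) (ln i a r) = _
  rw [ex_ln, mul_assoc]

private lemma cf_one (l : ℤ) (hl : l ≠ 0) : ∫ r in (0 : ℝ)..1, e1 l r = 0 := by
  have hl' : (l : ℂ) ≠ 0 := Int.cast_ne_zero.2 hl
  have hc : -(2 * Real.pi * Complex.I * (l : ℂ)) ≠ 0 := by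
    have hpi : (Real.pi : ℂ) ≠ 0 := Complex.ofReal_ne_zero.2 Real.pi_ne_zero
    simp [hpi, hl']
  have h1 : ∀ r : ℝ, e1 l r = Complex.exp (-(2 * Real.pi * Complex.I * (l : ℂ)) * r) := by
    intro r
    unfold e1
    congr 1
    ring
  simp only [h1]
  rw [integral_exp_mul_complex hc]
  have h2 : Complex.exp (-(2 * Real.pi * Complex.I * (l : ℂ)) * ((1 : ℝ) : ℂ)) = 1 := by
    have : -(2 * Real.pi * Complex.I * (l : ℂ)) * ((1 : ℝ) : ℂ) =
        ((-l : ℤ) : ℂ) * (2 * Real.pi * Complex.I) := by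
      push_cast
      ring
    rw [this]
    exact Complex.exp_int_mul_two_pi_mul_I _
  rw [h2]
  simp

private lemma e1_zero (r : ℝ) : e1 0 r = 1 := by simp [e1]

/-- divergence free in Fourier variables -/
private lemma div_fc {u : Eu 2 → Eu 2} (hu : ContDiff ℝ ∞ u) (hp : Per u) (hd : DvF u)
    (k : Fin 2 → ℤ) : ∑ j, (k j : ℂ) * fc u k j = 0 := by
  have hs : ∀ j : Fin 2, ContDiff ℝ ∞ fun x => u x j := fun j =>
    (EuclideanSpace.proj (𝕜 := ℝ) j).contDiff.comp hu
  have hper : ∀ j : Fin 2, Per fun x => u x j := fun j x l => by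
    show u (x + iv l) j = _
    rw [hp x l]
  have hder : ∀ (j : Fin 2) (x : Eu 2), fderiv ℝ (fun x => u x j) x (ev j) =
      (fderiv ℝ u x (ev j)) j := by
    intro j x
    have h1 : HasFDerivAt (fun x => u x j)
        ((EuclideanSpace.proj (𝕜 := ℝ) j : Eu 2 →L[ℝ] ℝ).comp (fderiv ℝ u x)) x :=
      (EuclideanSpace.proj (𝕜 := ℝ) j : Eu 2 →L[ℝ] ℝ).hasFDerivAt.comp x
        (hu.differentiable (by simp)).differentiableAt.hasFDerivAt
    rw [h1.fderiv]
    rfl
  have h1 : ∀ j : Fin 2, 2 * Real.pi * Complex.I * (k j : ℂ) * fc u k j =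
      ∫ x in cube 2, ((fderiv ℝ (fun x => u x j) x (ev j) : ℝ) : ℂ) * HsA.ex k x := by
    intro j
    rw [HsA.fc_apply]
    exact (HsA.int_parts _ (hs j) (hper j) k j).symm
  have h2 : ∑ j, 2 * Real.pi * Complex.I * (k j : ℂ) * fc u k j = 0 := by
    simp only [h1]
    rw [← integral_finsetSum]
    · have h3 : ∀ x : Eu 2, ∑ j, ((fderiv ℝ (fun x => u x j) x (ev j) : ℝ) : ℂ) * HsA.ex k x = 0 := by
        intro x
        rw [← Finset.sum_mul, ← Complex.ofReal_sum]
        simp only [hder]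
        rw [hd x]
        simp
      simp only [h3]
      simp
    · intro j _
      refine HsA.int_cube (Continuous.mul ?_ (HsA.ex_cont k))
      exact Complex.continuous_ofReal.comp
        (((hs j).continuous_fderiv (by simp)).clm_apply continuous_const)
  have h3 : ∑ j, 2 * Real.pi * Complex.I * (k j : ℂ) * fc u k j =
      2 * Real.pi * Complex.I * ∑ j, (k j : ℂ) * fc u k j := by
    rw [Finset.mul_sum]
    exact Finset.sum_congr rfl fun j _ => by ring
  rw [h3] at h2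
  refine (mul_eq_zero.1 h2).resolve_left ?_
  have hpi : (Real.pi : ℂ) ≠ 0 := Complex.ofReal_ne_zero.2 Real.pi_ne_zero
  simp [hpi]

/-- the mean on almost every line is the mean of the field -/
private lemma line_mean {u : Eu 2 → Eu 2} (hu : ContDiff ℝ ∞ u) (hp : Per u) (hd : DvF u)
    (i : Fin 2) : ∀ᵐ a ∂(volume : Measure ℝ).restrict (Icc 0 1),
      ∫ r in (0 : ℝ)..1, (u (ln i a r) i - mn u i) = 0 := by
  have huc := hu.continuous
  set f : ℝ → ℂ := fun a => cc u i 0 a - (mn u i : ℂ) with hf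
  have hfc : Continuous f := (cc_cont huc i 0).sub continuous_const
  have hmn : ((mn u i : ℝ) : ℂ) = fc u 0 i := by
    rw [HsA.fc_apply]
    simp only [HsA.ex_zero, mul_one]
    rw [integral_complex_ofReal, ← HsA.int_coord huc i]
    rfl
  have hcf : ∀ l, cf f l = 0 := by
    intro l
    have h1 : cf f l = cf (cc u i 0) l - (mn u i : ℂ) * ∫ r in (0 : ℝ)..1, e1 l r := by
      unfold cf
      rw [← intervalIntegral.integral_const_mul, ← intervalIntegral.integral_sub]
      · refine intervalIntegral.integral_congr fun r _ => ?_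
        show (cc u i 0 r - (mn u i : ℂ)) * e1 l r = _
        ring
      · exact ((cc_cont huc i 0).mul (e1_cont l)).intervalIntegrable _ _
      · exact (continuous_const.mul (e1_cont l)).intervalIntegrable _ _
    rw [h1, ← fc_slice huc]
    by_cases hl : l = 0
    · subst hl
      have h2 : mk i 0 0 = 0 := by
        ext k
        simp [mk]
      rw [h2, hmn]
      simp [e1_zero]
    · rw [cf_one l hl, mul_zero, sub_zero]
      have h3 := div_fc hu hp hd (mk i l 0)
      have h4 : ∑ j, ((mk i l 0 j : ℤ) : ℂ) * fc u (mk i l 0) j = (l : ℂ) * fc u (mk i l 0) i := by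
        rw [Finset.sum_eq_single i]
        · simp [mk]
        · intro j _ hj
          simp [mk, hj]
        · intro h
          exact absurd (Finset.mem_univ i) h
      rw [h4] at h3
      exact (mul_eq_zero.1 h3).resolve_left (Int.cast_ne_zero.2 hl)
  have h5 := par1 hfc
  simp only [hcf] at h5
  have h6 : ∫⁻ a in Icc (0 : ℝ) 1, ‖f a‖ₑ ^ 2 = 0 := by
    rw [← h5]
    simp
  rw [lintegral_eq_zero_iff (by fun_prop)] at h6
  filter_upwards [h6] with a ha
  have h7 : f a = 0 := by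
    have : ‖f a‖ₑ ^ 2 = 0 := ha
    simpa using this
  have h8 : cc u i 0 a = ((∫ r in (0 : ℝ)..1, u (ln i a r) i : ℝ) : ℂ) := by
    unfold cc cf
    simp only [e1_zero, mul_one]
    exact intervalIntegral.integral_ofReal
  rw [intervalIntegral.integral_sub _ (by simp)]
  · rw [hf] at h7
    simp only [h8] at h7
    rw [← Complex.ofReal_sub, Complex.ofReal_eq_zero] at h7
    simpa using h7
  · exact ((comp_cont huc i).comp (Continuous.prodMk_right a)).intervalIntegrable _ _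

/-- the largest flux through a line is bounded by the Fourier coefficients on the line -/
private lemma osf_le {u : Eu 2 → Eu 2} (hu : Continuous u) (i : Fin 2) (a : ℝ)
    (h0 : ∫ r in (0 : ℝ)..1, (u (ln i a r) i - mn u i) = 0) :
    ENNReal.ofReal (osf i u a) ≤
      ∑' m : ℤ, ENNReal.ofReal (1 / (Real.pi * |(m : ℝ)|)) * ‖cc u i m a‖ₑ := by
  have hline : Continuous fun r => u (ln i a r) i :=
    (comp_cont hu i).comp (Continuous.prodMk_right a)
  have hg : Continuous fun r => u (ln i a r) i - mn u i := hline.sub continuous_const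
  have key : ∀ y ∈ Icc (0 : ℝ) 1, ENNReal.ofReal |flx i u a y| ≤
      ∑' m : ℤ, ENNReal.ofReal (1 / (Real.pi * |(m : ℝ)|)) * ‖cc u i m a‖ₑ := by
    intro y hy
    refine (sup1 hg h0 hy).trans (le_of_eq (tsum_congr fun m => ?_))
    by_cases hm : m = 0
    · subst hm
      simp
    · congr 2
      unfold cc cf
      have h1 : ∫ r in (0 : ℝ)..1, (((u (ln i a r) i - mn u i : ℝ)) : ℂ) * e1 m r =
          (∫ r in (0 : ℝ)..1, ((u (ln i a r) i : ℝ) : ℂ) * e1 m r) -
            ((mn u i : ℝ) : ℂ) * ∫ r in (0 : ℝ)..1, e1 m r := by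
        rw [← intervalIntegral.integral_const_mul, ← intervalIntegral.integral_sub]
        · refine intervalIntegral.integral_congr fun r _ => ?_
          show (((u (ln i a r) i - mn u i : ℝ)) : ℂ) * e1 m r = _
          push_cast
          ring
        · exact ((Complex.continuous_ofReal.comp hline).mul (e1_cont m)).intervalIntegrable _ _
        · exact (continuous_const.mul (e1_cont m)).intervalIntegrable _ _
      rw [h1, cf_one m hm, mul_zero, sub_zero]
  set T := ∑' m : ℤ, ENNReal.ofReal (1 / (Real.pi * |(m : ℝ)|)) * ‖cc u i m a‖ₑ with hT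
  by_cases htop : T = ⊤
  · rw [htop]; exact le_top
  refine ENNReal.ofReal_le_of_le_toReal ?_
  unfold osf
  refine csSup_le ((nonempty_Icc.2 zero_le_one).image _) ?_
  rintro _ ⟨y, hy, rfl⟩
  exact (ENNReal.ofReal_le_iff_le_toReal htop).1 (key y hy)

private lemma cs_tsum (f g : ℤ → ℝ≥0∞) : ∑' m, f m * g m ≤
    (∑' m, f m ^ 2) ^ (1 / 2 : ℝ) * (∑' m, g m ^ 2) ^ (1 / 2 : ℝ) := by
  have h := ENNReal.lintegral_mul_le_Lp_mul_Lq (Measure.count (α := ℤ)) Real.HolderConjugate.two_two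
    (f := f) (g := g) (measurable_of_countable _).aemeasurable
    (measurable_of_countable _).aemeasurable
  simpa [lintegral_count] using h

private lemma cs_int {f : ℝ → ℂ} (hf : Continuous f) : ∫⁻ a in Icc (0 : ℝ) 1, ‖f a‖ₑ ≤
    (∫⁻ a in Icc (0 : ℝ) 1, ‖f a‖ₑ ^ 2) ^ (1 / 2 : ℝ) := by
  have h := ENNReal.lintegral_mul_le_Lp_mul_Lq ((volume : Measure ℝ).restrict (Icc 0 1))
    Real.HolderConjugate.two_two (f := fun a => ‖f a‖ₑ) (g := fun _ => 1)
    (by fun_prop) (by fun_prop)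
  simpa using h

/-- the estimate of one frequency -/
private lemma freq {s : ℝ} (hs : -(1 / 2) < s) (hs0 : s < 0) {u : Eu 2 → Eu 2}
    (hu : ContDiff ℝ ∞ u) (hp : Per u) (hd : DvF u) (i : Fin 2) (l m : ℤ) :
    ENNReal.ofReal ((|(m : ℝ)| ^ s) ^ 2) * ‖fc u (mk i l m) i‖ₑ ^ 2 ≤
      ENNReal.ofReal (2 ^ (-s)) *
        (ENNReal.ofReal (HsA.wt s (mk i l m)) * ‖fc u (mk i l m)‖ₑ ^ 2) := by
  by_cases hm : m = 0
  · subst hm
    have : (|((0 : ℤ) : ℝ)| ^ s) ^ 2 = 0 := by
      simp [Real.zero_rpow hs0.ne]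
    rw [this]
    simp
  have hij : (1 - i : Fin 2) ≠ i := by fin_cases i <;> decide
  have hsum : ∀ f : Fin 2 → ℝ, ∑ j, f j = f i + f (1 - i) := by
    intro f
    rw [Fin.sum_univ_two]
    fin_cases i
    · rfl
    · exact add_comm _ _
  have hsumC : ∀ f : Fin 2 → ℂ, ∑ j, f j = f i + f (1 - i) := by
    intro f
    rw [Fin.sum_univ_two]
    fin_cases i
    · rfl
    · exact add_comm _ _
  set k := mk i l m with hk
  have hki : k i = l := by simp [hk, mk]
  have hkj : k (1 - i) = m := by simp [hk, mk, hij]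
  set X : ℝ := ‖fc u k i‖ ^ 2 with hX
  set Y : ℝ := ‖fc u k (1 - i)‖ ^ 2 with hY
  have hX0 : 0 ≤ X := sq_nonneg _
  have hY0 : 0 ≤ Y := sq_nonneg _
  have hXY : ‖fc u k‖ ^ 2 = X + Y := by
    rw [EuclideanSpace.norm_sq_eq, hsum]
  have hrel : (l : ℝ) ^ 2 * X = (m : ℝ) ^ 2 * Y := by
    have h1 := div_fc hu hp hd k
    rw [hsumC, hki, hkj] at h1
    have h2 : (l : ℂ) * fc u k i = -((m : ℂ) * fc u k (1 - i)) := eq_neg_of_add_eq_zero_left h1
    have h3 := congrArg (fun z : ℂ => ‖z‖ ^ 2) h2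
    simp only [norm_neg, norm_mul, Complex.norm_intCast, mul_pow, sq_abs] at h3
    exact h3
  have hm1 : (1 : ℝ) ≤ (m : ℝ) ^ 2 := by
    have : (1 : ℤ) ≤ m ^ 2 := by
      have := Int.one_le_abs hm
      rw [← sq_abs]
      nlinarith
    exact_mod_cast this
  have hw : HsA.wt s k = (1 + ((l : ℝ) ^ 2 + (m : ℝ) ^ 2)) ^ s := by
    unfold HsA.wt
    rw [hsum, hki, hkj]
  set M : ℝ := (m : ℝ) ^ 2 with hM
  set N : ℝ := (l : ℝ) ^ 2 + M with hN
  have hMpos : 0 < M := by linarith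
  have hNM : M ≤ N := by nlinarith [sq_nonneg (l : ℝ)]
  have hNpos : 0 < N := by linarith
  have hpow : (|(m : ℝ)| ^ s) ^ 2 = M ^ s := by
    rw [hM, ← sq_abs (m : ℝ), ← Real.rpow_natCast, ← Real.rpow_natCast, ← Real.rpow_mul (abs_nonneg _),
      ← Real.rpow_mul (abs_nonneg _), mul_comm]
  have h1 : M * (X + Y) = N * X := by
    rw [hN]
    linear_combination -hrel
  have h2 : M ^ s * X ≤ N ^ s * (X + Y) := by
    have h3 : X = M / N * (X + Y) := by
      field_simp
      linarith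
    have h4 : M ^ s * X = M ^ (s + 1) / N * (X + Y) := by
      conv_lhs => rw [h3]
      rw [Real.rpow_add_one hMpos.ne']
      ring
    have h5 : N ^ s = N ^ (s + 1) / N := by
      rw [Real.rpow_add_one hNpos.ne']
      field_simp
    rw [h4, h5]
    refine mul_le_mul_of_nonneg_right ?_ (by linarith)
    exact div_le_div_of_nonneg_right (Real.rpow_le_rpow hMpos.le hNM (by linarith)) hNpos.le
  have h3 : N ^ s ≤ 2 ^ (-s) * (1 + N) ^ s := by
    have h4 : (2 * N) ^ s ≤ (1 + N) ^ s :=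
      Real.rpow_le_rpow_of_nonpos (by linarith) (by linarith) hs0.le
    rw [Real.mul_rpow (by norm_num) hNpos.le] at h4
    have h5 : (2 : ℝ) ^ (-s) * (2 ^ s * N ^ s) = N ^ s := by
      rw [← mul_assoc, ← Real.rpow_add (by norm_num)]
      simp
    rw [← h5]
    exact mul_le_mul_of_nonneg_left h4 (by positivity)
  have h4 : M ^ s * X ≤ 2 ^ (-s) * (HsA.wt s k * ‖fc u k‖ ^ 2) := by
    rw [hw, hXY, ← mul_assoc]
    exact h2.trans (mul_le_mul_of_nonneg_right h3 (by linarith))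
  have h5 : ∀ {F : Type} [NormedAddCommGroup F] (z : F), ‖z‖ₑ ^ 2 = ENNReal.ofReal (‖z‖ ^ 2) := by
    intro F _ z
    rw [ENNReal.ofReal_pow (norm_nonneg _), ofReal_norm]
  rw [hpow, h5, h5, ← ENNReal.ofReal_mul (by positivity), ← ENNReal.ofReal_mul (by rw [hw]; positivity),
    ← ENNReal.ofReal_mul (by positivity)]
  exact ENNReal.ofReal_le_ofReal h4

private lemma half_sq (x : ℝ≥0∞) : (x ^ (1 / 2 : ℝ)) ^ 2 = x := by
  rw [← ENNReal.rpow_natCast, ← ENNReal.rpow_mul]
  norm_num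

theorem slc_hs_neg {s : ℝ} (hs : -(1 / 2) < s) (hs0 : s < 0) : Slc (hsNorm (n := 2) s) := by
  set A : ℤ → ℝ≥0∞ := fun m : ℤ =>
    ENNReal.ofReal (1 / (Real.pi * |(m : ℝ)|) * |(m : ℝ)| ^ (-s)) with hAdef
  have hA : ∑' m, A m ^ 2 ≠ ⊤ := by
    have h1 : Summable fun m : ℤ => (1 / (Real.pi * |(m : ℝ)|) * |(m : ℝ)| ^ (-s)) ^ 2 := by
      refine (Real.summable_abs_int_rpow (b := 2 + 2 * s) (by linarith)).of_nonneg_of_le
        (fun m => sq_nonneg _) fun m => ?_
      by_cases hm : m = 0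
      · subst hm
        simp
        positivity
      · have hm' : 0 < |(m : ℝ)| := abs_pos.2 (Int.cast_ne_zero.2 hm)
        have h2 : |(m : ℝ)| ^ (-(2 + 2 * s)) = (1 / |(m : ℝ)| * |(m : ℝ)| ^ (-s)) ^ 2 := by
          rw [mul_pow, ← Real.rpow_natCast (|(m : ℝ)| ^ (-s)), ← Real.rpow_mul hm'.le,
            neg_add, Real.rpow_add hm']
          congr 1
          · rw [Real.rpow_neg hm'.le, one_div, inv_pow]
            congr 1
            exact Real.rpow_two _
          · congr 1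
            push_cast
            ring
        rw [h2]
        refine pow_le_pow_left₀ (by positivity) ?_ 2
        refine mul_le_mul_of_nonneg_right ?_ (by positivity)
        refine one_div_le_one_div_of_le hm' ?_
        have : (1 : ℝ) ≤ Real.pi := by linarith [Real.pi_gt_three]
        nlinarith
    have h2 := h1.tsum_ofReal_ne_top
    have h3 : ∀ m, A m ^ 2 = ENNReal.ofReal ((1 / (Real.pi * |(m : ℝ)|) * |(m : ℝ)| ^ (-s)) ^ 2) := by
      intro m
      rw [ENNReal.ofReal_pow (by positivity)]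
    simp only [h3]
    exact h2
  set K : ℝ≥0∞ := (∑' m, A m ^ 2) ^ (1 / 2 : ℝ) * (ENNReal.ofReal (2 ^ (-s))) ^ (1 / 2 : ℝ) with hKdef
  have hK : K ≠ ⊤ := ENNReal.mul_ne_top (ENNReal.rpow_ne_top_of_nonneg (by norm_num) hA)
    (ENNReal.rpow_ne_top_of_nonneg (by norm_num) ENNReal.ofReal_ne_top)
  refine ⟨K.toReal, ENNReal.toReal_nonneg, fun i u hu hp hd => ?_⟩
  rw [ENNReal.ofReal_toReal hK]
  have huc := hu.continuous
  set E : ℤ → ℝ≥0∞ := fun m => ∑' l : ℤ, ‖fc u (mk i l m) i‖ₑ ^ 2 with hE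
  have hEi : ∀ m, ∫⁻ a in Icc (0 : ℝ) 1, ‖cc u i m a‖ₑ ≤ E m ^ (1 / 2 : ℝ) := by
    intro m
    refine (cs_int (cc_cont huc i m)).trans (le_of_eq ?_)
    rw [← par1 (cc_cont huc i m)]
    simp only [← fc_slice huc]
    rfl
  set B : ℤ → ℝ≥0∞ := fun m : ℤ => ENNReal.ofReal (|(m : ℝ)| ^ s) * E m ^ (1 / 2 : ℝ) with hB
  have h1 : ∫⁻ a in Icc (0 : ℝ) 1, ENNReal.ofReal (osf i u a) ≤
      ∫⁻ a in Icc (0 : ℝ) 1, ∑' m : ℤ, ENNReal.ofReal (1 / (Real.pi * |(m : ℝ)|)) * ‖cc u i m a‖ₑ := by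
    refine lintegral_mono_ae ?_
    filter_upwards [line_mean hu hp hd i] with a ha
    exact osf_le huc i a ha
  have h2 : ∫⁻ a in Icc (0 : ℝ) 1,
      ∑' m : ℤ, ENNReal.ofReal (1 / (Real.pi * |(m : ℝ)|)) * ‖cc u i m a‖ₑ =
      ∑' m : ℤ, ENNReal.ofReal (1 / (Real.pi * |(m : ℝ)|)) *
        ∫⁻ a in Icc (0 : ℝ) 1, ‖cc u i m a‖ₑ := by
    rw [lintegral_tsum]
    · refine tsum_congr fun m => ?_
      rw [lintegral_const_mul]
      exact (cc_cont huc i m).enorm.measurable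
    · intro m
      exact ((cc_cont huc i m).enorm.measurable.const_mul _).aemeasurable
  have h3 : ∑' m : ℤ, ENNReal.ofReal (1 / (Real.pi * |(m : ℝ)|)) *
      ∫⁻ a in Icc (0 : ℝ) 1, ‖cc u i m a‖ₑ ≤ ∑' m, A m * B m := by
    refine ENNReal.tsum_le_tsum fun m => ?_
    by_cases hm : m = 0
    · subst hm
      simp
    · have hm' : 0 < |(m : ℝ)| := abs_pos.2 (Int.cast_ne_zero.2 hm)
      have h4 : ENNReal.ofReal (1 / (Real.pi * |(m : ℝ)|)) = A m * ENNReal.ofReal (|(m : ℝ)| ^ s) := by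
        rw [hAdef, ← ENNReal.ofReal_mul (by positivity), mul_assoc, ← Real.rpow_add hm']
        simp
      rw [h4, mul_assoc]
      exact mul_le_mul_right (mul_le_mul_right (hEi m) _) _
  have h4 : ∑' m, B m ^ 2 ≤ ENNReal.ofReal (2 ^ (-s)) *
      ∑' k : Fin 2 → ℤ, ENNReal.ofReal (HsA.wt s k) * ‖fc u k‖ₑ ^ 2 := by
    set W : (Fin 2 → ℤ) → ℝ≥0∞ := fun k => ENNReal.ofReal (HsA.wt s k) * ‖fc u k‖ₑ ^ 2 with hW
    calc ∑' m, B m ^ 2 ≤ ∑' m : ℤ, ∑' l : ℤ, ENNReal.ofReal (2 ^ (-s)) * W (mk i l m) := by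
          refine ENNReal.tsum_le_tsum fun m => ?_
          rw [hB]
          simp only
          rw [mul_pow, half_sq, ← ENNReal.ofReal_pow (by positivity), hE]
          simp only
          rw [← ENNReal.tsum_mul_left]
          exact ENNReal.tsum_le_tsum fun l => freq hs hs0 hu hp hd i l m
      _ = ENNReal.ofReal (2 ^ (-s)) * ∑' z : ℤ × ℤ, W (mk i z.2 z.1) := by
          rw [ENNReal.tsum_prod (f := fun m l => W (mk i l m))]
          simp only [ENNReal.tsum_mul_left]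
      _ ≤ ENNReal.ofReal (2 ^ (-s)) * ∑' k, W k :=
          mul_le_mul_right (ENNReal.tsum_comp_le_tsum_of_injective (mk_inj i) W) _
  rw [HsA.hsNorm_eq]
  calc ∫⁻ a in Icc (0 : ℝ) 1, ENNReal.ofReal (osf i u a) ≤ ∑' m, A m * B m := by
        rw [h2] at h1
        exact h1.trans h3
    _ ≤ (∑' m, A m ^ 2) ^ (1 / 2 : ℝ) * (∑' m, B m ^ 2) ^ (1 / 2 : ℝ) := cs_tsum A B
    _ ≤ (∑' m, A m ^ 2) ^ (1 / 2 : ℝ) * (ENNReal.ofReal (2 ^ (-s)) *
        ∑' k : Fin 2 → ℤ, ENNReal.ofReal (HsA.wt s k) * ‖fc u k‖ₑ ^ 2) ^ (1 / 2 : ℝ) :=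
        mul_le_mul_right (ENNReal.rpow_le_rpow h4 (by norm_num)) _
    _ = K * (∑' k : Fin 2 → ℤ, ENNReal.ofReal (HsA.wt s k) * ‖fc u k‖ₑ ^ 2) ^ (1 / 2 : ℝ) := by
        rw [ENNReal.mul_rpow_of_nonneg _ _ (by norm_num), hKdef, mul_assoc]

end

end TH
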