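import Pool.Agent.TH.Defs

/-!
TH-7 (MP_b0bf68_gt, project TH): the derivative of the action.
-/

set_option autoImplicit false

open MeasureTheory Set Pool.Agent.H68.VD
open scoped ENNReal ContDiff

namespace TH

private theorem act_pt_eq (a s : ℝ) : pt a s = pt a 0 + s • pt 0 1 := by
  ext i
  fin_cases i <;> simp [pt]

private theorem act_pt_smooth (a : ℝ) : ContDiff ℝ ∞ (fun z : ℝ × ℝ => (z.1, pt a z.2)) := by
  have h1 : (fun z : ℝ × ℝ => (z.1, pt a z.2)) = fun z : ℝ × ℝ => (z.1, pt a 0 + z.2 • pt 0 1) := by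
    funext z
    rw [act_pt_eq]
  rw [h1]
  exact contDiff_fst.prodMk (contDiff_const.add (contDiff_snd.smul contDiff_const))

private theorem act_coord {f : ℝ → Eu 2} {f' : Eu 2} {t : ℝ} (h : HasDerivAt f f' t) (i : Fin 2) :
    HasDerivAt (fun τ => f τ i) (f' i) t :=
  (EuclideanSpace.proj i : Eu 2 →L[ℝ] ℝ).hasFDerivAt.comp_hasDerivAt t h

private theorem act_d1 {F : Type*} [NormedAddCommGroup F] [NormedSpace ℝ F] {Φ : ℝ × ℝ → F}
    (hΦ : Differentiable ℝ Φ) (t s : ℝ) :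
    HasDerivAt (fun τ => Φ (τ, s)) (fderiv ℝ Φ (t, s) (1, 0)) t := by
  have h1 : HasDerivAt (fun τ : ℝ => (τ, s)) ((1 : ℝ), (0 : ℝ)) t :=
    (hasDerivAt_id t).prodMk (hasDerivAt_const t s)
  exact (hΦ (t, s)).hasFDerivAt.comp_hasDerivAt t h1

private theorem act_d2 {F : Type*} [NormedAddCommGroup F] [NormedSpace ℝ F] {Φ : ℝ × ℝ → F}
    (hΦ : Differentiable ℝ Φ) (t s : ℝ) :
    HasDerivAt (fun τ => Φ (t, τ)) (fderiv ℝ Φ (t, s) (0, 1)) s := by
  have h1 : HasDerivAt (fun τ : ℝ => (t, τ)) ((0 : ℝ), (1 : ℝ)) s :=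
    (hasDerivAt_const s t).prodMk (hasDerivAt_id s)
  exact (hΦ (t, s)).hasFDerivAt.comp_hasDerivAt s h1

/-- differentiation under the integral sign over `[0,1]` for a function with a continuous
derivative in the parameter -/
private theorem act_param {G Gs : ℝ × ℝ → ℝ} (hG : Continuous G) (hGs : Continuous Gs)
    (h : ∀ t s, HasDerivAt (fun τ => G (t, τ)) (Gs (t, s)) s) (s : ℝ) :
    HasDerivAt (fun τ => ∫ t in (0 : ℝ)..1, G (t, τ)) (∫ t in (0 : ℝ)..1, Gs (t, s)) s := by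
  have hK : IsCompact (Icc (0 : ℝ) 1 ×ˢ Icc (s - 1) (s + 1)) := isCompact_Icc.prod isCompact_Icc
  obtain ⟨C, hC⟩ := hK.exists_bound_of_continuousOn hGs.continuousOn
  refine (intervalIntegral.hasDerivAt_integral_of_dominated_loc_of_deriv_le (s := Ioo (s - 1) (s + 1))
    (F := fun τ t => G (t, τ)) (F' := fun τ t => Gs (t, τ)) (bound := fun _ => C)
    (Ioo_mem_nhds (by linarith) (by linarith)) ?_ ?_ ?_ ?_ ?_ ?_).2
  · exact Filter.Eventually.of_forall fun τ =>
      (hG.comp (continuous_id.prodMk continuous_const)).aestronglyMeasurable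
  · exact (hG.comp (continuous_id.prodMk continuous_const)).intervalIntegrable _ _
  · exact (hGs.comp (continuous_id.prodMk continuous_const)).aestronglyMeasurable
  · refine Filter.Eventually.of_forall fun t ht τ hτ => hC (t, τ) ⟨?_, Ioo_subset_Icc_self hτ⟩
    rw [uIoc_of_le zero_le_one] at ht
    exact Ioc_subset_Icc_self ht
  · exact intervalIntegrable_const
  · exact Filter.Eventually.of_forall fun t _ τ _ => h t τ

theorem act_deriv {u : ℝ → Eu 2 → Eu 2} {H : ℝ → Eu 2 → ℝ} {φ : ℝ → Eu 2 → Eu 2} (h : HFl u H φ)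
    (a s : ℝ) : HasDerivAt (act u H φ a)
      ((φ 1 (pt a s) 0 - a) * deriv (fun r => φ 1 (pt a r) 1) s) s := by
  set Φ : ℝ × ℝ → Eu 2 := fun z => φ z.1 (pt a z.2) with hΦdef
  have hΦ : ContDiff ℝ ∞ Φ := h.fs.comp (act_pt_smooth a)
  have hΦd : Differentiable ℝ Φ := hΦ.differentiable (by simp)
  have hD : ContDiff ℝ ∞ (fderiv ℝ Φ) := hΦ.fderiv_right (by simp)
  have hDd : Differentiable ℝ (fderiv ℝ Φ) := hD.differentiable (by simp)
  have hDD : ContDiff ℝ ∞ (fderiv ℝ (fderiv ℝ Φ)) := hD.fderiv_right (by simp)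
  -- the time derivative
  have ht : ∀ t r, fderiv ℝ Φ (t, r) (1, 0) = u t (Φ (t, r)) := fun t r =>
    (act_d1 hΦd t r).unique (h.fd t (pt a r))
  -- the derivative in the parameter
  have hr : ∀ t r, HasDerivAt (fun τ => Φ (t, τ)) (fderiv ℝ Φ (t, r) (0, 1)) r := act_d2 hΦd
  have hsym : ∀ z, fderiv ℝ (fderiv ℝ Φ) z (0, 1) (1, 0) =
      fderiv ℝ (fderiv ℝ Φ) z (1, 0) (0, 1) := by
    intro z
    exact (hΦ.contDiffAt.isSymmSndFDerivAt (by
      rw [minSmoothness_of_isRCLikeNormedField]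
      exact WithTop.coe_le_coe.mpr le_top)).eq (0, 1) (1, 0)
  set G : ℝ × ℝ → ℝ := fun z => (Φ z 0 - a) * (fderiv ℝ Φ z (1, 0)) 1 + H z.1 (Φ z) with hG
  set Gs : ℝ × ℝ → ℝ := fun z => (fderiv ℝ Φ z (1, 0)) 0 * (fderiv ℝ Φ z (0, 1)) 1 +
    (Φ z 0 - a) * (fderiv ℝ (fderiv ℝ Φ) z (1, 0) (0, 1)) 1 with hGs
  have hact : act u H φ a = fun τ => ∫ t in (0 : ℝ)..1, G (t, τ) := by
    funext τ
    unfold act agr
    refine intervalIntegral.integral_congr fun t _ => ?_
    simp only [hG, ht]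
    rfl
  have cc : ∀ (i : Fin 2) {f : ℝ × ℝ → Eu 2}, Continuous f → Continuous (fun z => f z i) :=
    fun i f hf => (EuclideanSpace.proj i : Eu 2 →L[ℝ] ℝ).continuous.comp hf
  have cG : Continuous G := by
    have c1 := hΦ.continuous
    have c2 := hD.continuous
    have c3 : Continuous (fun z : ℝ × ℝ => H z.1 (Φ z)) :=
      h.Hs.continuous.comp (continuous_fst.prodMk c1)
    exact (((cc 0 c1).sub continuous_const).mul
      (cc 1 (c2.clm_apply continuous_const))).add c3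
  have cGs : Continuous Gs := by
    have c1 := hΦ.continuous
    have c2 := hD.continuous
    have c3 := hDD.continuous
    exact ((cc 0 (c2.clm_apply continuous_const)).mul (cc 1 (c2.clm_apply continuous_const))).add
      (((cc 0 c1).sub continuous_const).mul
      (cc 1 ((c3.clm_apply continuous_const).clm_apply continuous_const)))
  have hGd : ∀ t r, HasDerivAt (fun τ => G (t, τ)) (Gs (t, r)) r := by
    intro t r
    have h1 := (act_coord (hr t r) 0).sub_const a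
    have h2 : HasDerivAt (fun τ => fderiv ℝ Φ (t, τ) (1, 0))
        (fderiv ℝ (fderiv ℝ Φ) (t, r) (0, 1) (1, 0)) r := by
      have := (act_d2 hDd t r).clm_apply (hasDerivAt_const r ((1 : ℝ), (0 : ℝ)))
      simpa using this
    have h3 := act_coord h2 1
    have h4 := (h.Hd t (Φ (t, r))).comp_hasDerivAt r (hr t r)
    have h5 := (h1.mul h3).add h4
    refine h5.congr_deriv ?_
    have e : (u t (Φ (t, r)) 0 • (EuclideanSpace.proj 1 : Eu 2 →L[ℝ] ℝ) -
        u t (Φ (t, r)) 1 • (EuclideanSpace.proj 0 : Eu 2 →L[ℝ] ℝ)) (fderiv ℝ Φ (t, r) (0, 1)) =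
        u t (Φ (t, r)) 0 * (fderiv ℝ Φ (t, r) (0, 1)) 1 -
        u t (Φ (t, r)) 1 * (fderiv ℝ Φ (t, r) (0, 1)) 0 := rfl
    rw [e]
    simp only [hGs, hsym, ← ht]
    ring
  have hK : ∀ t, HasDerivAt (fun τ => (Φ (τ, s) 0 - a) * (fderiv ℝ Φ (τ, s) (0, 1)) 1)
      (Gs (t, s)) t := by
    intro t
    have h1 := (act_coord (act_d1 hΦd t s) 0).sub_const a
    have h2 : HasDerivAt (fun τ => fderiv ℝ Φ (τ, s) (0, 1))
        (fderiv ℝ (fderiv ℝ Φ) (t, s) (1, 0) (0, 1)) t := by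
      have := (act_d1 hDd t s).clm_apply (hasDerivAt_const t ((0 : ℝ), (1 : ℝ)))
      simpa using this
    exact h1.mul (act_coord h2 1)
  have hint := intervalIntegral.integral_eq_sub_of_hasDerivAt (a := 0) (b := 1)
    (fun t _ => hK t) ((cGs.comp (continuous_id.prodMk continuous_const)).intervalIntegrable _ _)
  have h0 : Φ (0, s) 0 = a := by
    simp only [hΦdef, h.f0]
    simp [pt]
  have h1 : deriv (fun r => φ 1 (pt a r) 1) s = (fderiv ℝ Φ (1, s) (0, 1)) 1 :=
    (act_coord (hr 1 s) 1).deriv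
  rw [hact, h1]
  have h2 := act_param cG cGs hGd s
  rw [hint, h0] at h2
  refine h2.congr_deriv ?_
  simp [hΦdef]

end TH
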