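import Pool.Agent.TH.Bas
import Pool.Agent.H68.VD.Stream

/-! # Project TH, row TH-10: the largest flux through a segment of a line -/

set_option autoImplicit false

open MeasureTheory Set Pool.Agent.H68.VD
open scoped ENNReal ContDiff

namespace TH

noncomputable section

private theorem osf_ln_add (i j : Fin 2) (hij : i ≠ j) (a r : ℝ) :
    ln i a 0 + r • ev j = ln i a r := by
  fin_cases i <;> fin_cases j <;> first | exact absurd rfl hij | skip
  · ext k
    fin_cases k <;> simp [ln, pt, ev]
  · ext k
    fin_cases k <;> simp [ln, pt, ev]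

private theorem osf_aop {u : Eu 2 → Eu 2} (hu : ContDiff ℝ ∞ u) (hp : Per u) (hd : DvF u)
    (i j : Fin 2) (hij : i ≠ j) (x : Eu 2) : StreamA.Aop (fun _ => 1) j u x i = mn u i := by
  have hw : ContDiff ℝ ∞ (StreamA.Aop (fun _ => 1) j u) := StreamA.A_smooth contDiff_const j hu
  have hg : ∀ x, HasFDerivAt (fun y => StreamA.Aop (fun _ => 1) j u y i)
      ((EuclideanSpace.proj (𝕜 := ℝ) i).comp (fderiv ℝ (StreamA.Aop (fun _ => 1) j u) x)) x := fun x =>
    (EuclideanSpace.proj (𝕜 := ℝ) i).hasFDerivAt.comp x ((hw.differentiable (by simp)) x).hasFDerivAt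
  have hz : ∀ x, fderiv ℝ (fun y => StreamA.Aop (fun _ => 1) j u y i) x = 0 := by
    intro x
    rw [(hg x).fderiv]
    have h1 := StreamA.M_self hu hp j x
    have h2 := StreamA.A_div contDiff_const j hu hd x (ρ := fun _ => 1)
    have h3 : (fderiv ℝ (StreamA.Aop (fun _ => 1) j u) x (ev i)) i = 0 := by
      have h4 : ∑ k, (fderiv ℝ (StreamA.Aop (fun _ => 1) j u) x (ev k)) k =
          (fderiv ℝ (StreamA.Aop (fun _ => 1) j u) x (ev i)) i +
          (fderiv ℝ (StreamA.Aop (fun _ => 1) j u) x (ev j)) j := by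
        rw [Fin.sum_univ_two]
        fin_cases i <;> fin_cases j <;> first | exact absurd rfl hij | skip
        · rfl
        · exact add_comm _ _
      rw [h4, h1] at h2
      simpa using h2
    ext1 y
    have hy : y = y i • ev i + y j • ev j := by
      ext k
      fin_cases i <;> fin_cases j <;> first | exact absurd rfl hij | skip
      all_goals fin_cases k <;> simp [ev]
    rw [hy]
    simp only [ContinuousLinearMap.comp_apply, map_add, map_smul, h1]
    simp [h3]
  have hcst : ∀ y, StreamA.Aop (fun _ => 1) j u y i = StreamA.Aop (fun _ => 1) j u x i := fun y =>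
    is_const_of_fderiv_eq_zero (fun z => (hg z).differentiableAt) hz y x
  have h6 : mn u i = ∫ y in cube 2, StreamA.Aop (fun _ => 1) j u y i := by
    unfold mn
    rw [← StreamA.M_mean j hu hp]
    exact ((EuclideanSpace.proj (𝕜 := ℝ) i).integral_comp_comm
      (HsA.int_cube hw.continuous)).symm
  rw [h6]
  simp only [hcst]
  rw [setIntegral_const, Measure.real, HsA.vol_cube]
  simp

/-- the mean is the flux through any line -/
private theorem osf_line {u : Eu 2 → Eu 2} (hu : ContDiff ℝ ∞ u) (hp : Per u) (hd : DvF u)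
    (i : Fin 2) (a : ℝ) : mn u i = ∫ r in (0 : ℝ)..1, u (ln i a r) i := by
  obtain ⟨j, hij⟩ : ∃ j : Fin 2, i ≠ j := by
    fin_cases i
    · exact ⟨1, by decide⟩
    · exact ⟨0, by decide⟩
  rw [← osf_aop hu hp hd i j hij (ln i a 0)]
  unfold StreamA.Aop
  simp only [one_smul, osf_ln_add i j hij]
  have hc : Continuous (fun r : ℝ => u (ln i a r)) := by
    have h1 : (fun r : ℝ => u (ln i a r)) = fun r : ℝ => u (ln i a 0 + r • ev j) := by
      funext r
      rw [osf_ln_add i j hij]
    rw [h1]
    exact hu.continuous.comp (continuous_const.add (continuous_id.smul continuous_const))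
  exact ((EuclideanSpace.proj (𝕜 := ℝ) i).intervalIntegral_comp_comm
    (hc.intervalIntegrable (μ := volume) 0 1)).symm

private theorem osf_pt_cont : Continuous (fun z : ℝ × ℝ => pt z.1 z.2) := by
  unfold pt
  refine (PiLp.continuous_toLp 2 _).comp ?_
  refine continuous_pi fun k => ?_
  fin_cases k
  · exact continuous_fst
  · exact continuous_snd

private theorem osf_ln_cont (i : Fin 2) : Continuous (fun z : ℝ × ℝ => ln i z.1 z.2) := by
  unfold ln
  by_cases h : i = 0
  · simp only [h, if_true]
    exact osf_pt_cont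
  · simp only [h, if_false]
    exact osf_pt_cont.comp (continuous_snd.prodMk continuous_fst)

private theorem osf_flx_cont (i : Fin 2) {u : Eu 2 → Eu 2} (hu : Continuous u) (a : ℝ) :
    Continuous (fun y => flx i u a y) := by
  unfold flx
  refine intervalIntegral.continuous_parametric_intervalIntegral_of_continuous
    (f := fun _ r => u (ln i a r) i - mn u i) ?_ continuous_id
  have h1 : Continuous (fun z : ℝ × ℝ => u (ln i a z.2)) :=
    hu.comp ((osf_ln_cont i).comp (continuous_const.prodMk continuous_snd))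
  exact ((EuclideanSpace.proj (𝕜 := ℝ) i).continuous.comp h1).sub continuous_const

private theorem osf_ln_per (i : Fin 2) (a r : ℝ) :
    ln i (a + 1) r = ln i a r + iv (Pi.single i 1) := by
  fin_cases i
  · ext k
    fin_cases k <;> simp [ln, pt, iv]
  · ext k
    fin_cases k <;> simp [ln, pt, iv]

private theorem osf_ln_per0 (a r : ℝ) :
    ln 0 a (r + 1) = ln 0 a r + iv (Pi.single 1 1) := by
  ext k
  fin_cases k <;> simp [ln, pt, iv]

theorem osf_cont (i : Fin 2) {φ : ℝ → Eu 2 → Eu 2} (h : FPath lat φ) :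
    Continuous (fun z : ℝ × ℝ => osf i (vel φ z.1) z.2) := by
  have hv := (vel_smooth h).continuous
  have hvt : ∀ t, ContDiff ℝ ∞ (vel φ t) := fun t =>
    (vel_smooth h).comp (contDiff_const.prodMk contDiff_id)
  have hm : Continuous (fun t : ℝ => mn (vel φ t) i) := by
    have h1 : (fun t : ℝ => mn (vel φ t) i) = fun t => ∫ r in (0 : ℝ)..1, vel φ t (ln i 0 r) i := by
      funext t
      exact osf_line (hvt t) (vel_per h t) (vel_div h t) i 0
    rw [h1]
    refine intervalIntegral.continuous_parametric_intervalIntegral_of_continuous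
      (f := fun t r => vel φ t (ln i 0 r) i) ?_ continuous_const
    have h2 : Continuous (fun z : ℝ × ℝ => vel φ z.1 (ln i 0 z.2)) :=
      hv.comp (continuous_fst.prodMk ((osf_ln_cont i).comp (continuous_const.prodMk continuous_snd)))
    exact (EuclideanSpace.proj (𝕜 := ℝ) i).continuous.comp h2
  unfold osf
  refine isCompact_Icc.continuous_sSup (f := fun (z : ℝ × ℝ) y => |flx i (vel φ z.1) z.2 y|) ?_
  refine Continuous.abs ?_
  show Continuous (fun w : (ℝ × ℝ) × ℝ => flx i (vel φ w.1.1) w.1.2 w.2)
  unfold flx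
  refine intervalIntegral.continuous_parametric_intervalIntegral_of_continuous
    (f := fun (w : (ℝ × ℝ) × ℝ) r => vel φ w.1.1 (ln i w.1.2 r) i - mn (vel φ w.1.1) i) ?_
    continuous_snd
  have h3 : Continuous (fun w : ((ℝ × ℝ) × ℝ) × ℝ => vel φ w.1.1.1 (ln i w.1.1.2 w.2)) :=
    hv.comp ((continuous_fst.comp (continuous_fst.comp continuous_fst)).prodMk
      ((osf_ln_cont i).comp ((continuous_snd.comp (continuous_fst.comp continuous_fst)).prodMk
        continuous_snd)))
  exact ((EuclideanSpace.proj (𝕜 := ℝ) i).continuous.comp h3).sub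
    (hm.comp (continuous_fst.comp (continuous_fst.comp continuous_fst)))

theorem osf_per (i : Fin 2) {u : Eu 2 → Eu 2} (hu : Per u) (a : ℝ) :
    osf i u (a + 1) = osf i u a := by
  have h1 : ∀ y, flx i u (a + 1) y = flx i u a y := by
    intro y
    unfold flx
    refine intervalIntegral.integral_congr fun r _ => ?_
    show u (ln i (a + 1) r) i - mn u i = u (ln i a r) i - mn u i
    rw [osf_ln_per, hu (ln i a r)]
  unfold osf
  simp only [h1]

theorem osf_nonneg (i : Fin 2) (u : Eu 2 → Eu 2) (a : ℝ) : 0 ≤ osf i u a := by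
  unfold osf
  refine Real.sSup_nonneg ?_
  rintro _ ⟨y, -, rfl⟩
  exact abs_nonneg _

private theorem osf_flx_le {u : Eu 2 → Eu 2} (hu : ContDiff ℝ ∞ u) (hp : Per u) (hd : DvF u)
    (a y : ℝ) : |flx 0 u a y| ≤ osf 0 u a := by
  set f : ℝ → ℝ := fun r => u (ln 0 a r) 0 - mn u 0 with hf
  have hfc : Continuous f := by
    have h1 : Continuous (fun r : ℝ => u (ln 0 a r)) :=
      hu.continuous.comp ((osf_ln_cont 0).comp (continuous_const.prodMk continuous_id))
    exact ((EuclideanSpace.proj (𝕜 := ℝ) (0 : Fin 2)).continuous.comp h1).sub continuous_const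
  have hfp : Function.Periodic f 1 := by
    intro r
    show u (ln 0 a (r + 1)) 0 - mn u 0 = u (ln 0 a r) 0 - mn u 0
    rw [osf_ln_per0, hp (ln 0 a r)]
  have hf0 : ∫ r in (0 : ℝ)..1, f r = 0 := by
    have hc1 : Continuous (fun r : ℝ => u (ln 0 a r) 0) := by
      have h1 : Continuous (fun r : ℝ => u (ln 0 a r)) :=
        hu.continuous.comp ((osf_ln_cont 0).comp (continuous_const.prodMk continuous_id))
      exact (EuclideanSpace.proj (𝕜 := ℝ) (0 : Fin 2)).continuous.comp h1
    simp only [hf]
    rw [intervalIntegral.integral_sub (hc1.intervalIntegrable _ _)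
      (continuous_const.intervalIntegrable _ _), ← osf_line hu hp hd 0 a]
    simp
  have hper : Function.Periodic (fun y => flx 0 u a y) 1 := by
    intro y
    show ∫ r in (0 : ℝ)..(y + 1), f r = ∫ r in (0 : ℝ)..y, f r
    have h1 := intervalIntegral.integral_add_adjacent_intervals (μ := volume)
      (hfc.intervalIntegrable 0 y) (hfc.intervalIntegrable y (y + 1))
    have h2 : ∫ r in y..(y + 1), f r = ∫ r in (0 : ℝ)..(0 + 1), f r :=
      hfp.intervalIntegral_add_eq y 0
    rw [zero_add, hf0] at h2
    rw [← h1, h2, add_zero]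
  have hfr : flx 0 u a (Int.fract y) = flx 0 u a y := by
    have h1 := hper.sub_int_mul_eq ⌊y⌋ (x := y)
    rw [mul_one] at h1
    exact h1
  rw [← hfr]
  unfold osf
  refine le_csSup ?_ (mem_image_of_mem _ ⟨Int.fract_nonneg y, (Int.fract_lt_one y).le⟩)
  exact isCompact_Icc.bddAbove_image (osf_flx_cont 0 hu.continuous a).abs.continuousOn

theorem flx_shift {u : Eu 2 → Eu 2} (hu : ContDiff ℝ ∞ u) (hp : Per u) (hd : DvF u) (c : Eu 2)
    (a y : ℝ) : |flx 0 (fun x => u (x + c) - mn u) a y| ≤ 2 * osf 0 u (a + c 0) := by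
  set f : ℝ → ℝ := fun r => u (ln 0 (a + c 0) r) 0 - mn u 0 with hf
  have hfc : Continuous f := by
    have h1 : Continuous (fun r : ℝ => u (ln 0 (a + c 0) r)) :=
      hu.continuous.comp ((osf_ln_cont 0).comp (continuous_const.prodMk continuous_id))
    exact ((EuclideanSpace.proj (𝕜 := ℝ) (0 : Fin 2)).continuous.comp h1).sub continuous_const
  have hmn : mn (fun x => u (x + c) - mn u) = 0 := by
    have h1 : ∫ x in cube 2, u (x + c) = mn u := by
      have h2 := HsA.cube_trans u hp c
      simpa only [add_comm c, mn] using h2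
    have hc : Continuous (fun x => u (x + c)) := hu.continuous.comp (continuous_id.add continuous_const)
    unfold mn at h1 ⊢
    rw [integral_sub (HsA.int_cube hc) (HsA.int_cube continuous_const), h1, setIntegral_const,
      Measure.real, HsA.vol_cube]
    simp
  have hln : ∀ r, ln 0 a r + c = ln 0 (a + c 0) (r + c 1) := by
    intro r
    ext k
    fin_cases k <;> simp [ln, pt]
  have h1 : flx 0 (fun x => u (x + c) - mn u) a y = ∫ r in (0 : ℝ)..y, f (r + c 1) := by
    unfold flx
    rw [hmn]
    refine intervalIntegral.integral_congr fun r _ => ?_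
    simp only [hln, hf]
    simp
  have h2 : ∫ r in (0 : ℝ)..y, f (r + c 1) = flx 0 u (a + c 0) (y + c 1) - flx 0 u (a + c 0) (c 1) := by
    rw [intervalIntegral.integral_comp_add_right (fun r => f r) (c 1), zero_add]
    exact (intervalIntegral.integral_interval_sub_left (hfc.intervalIntegrable _ _)
      (hfc.intervalIntegrable _ _)).symm
  rw [h1, h2]
  have h3 := osf_flx_le hu hp hd (a + c 0) (y + c 1)
  have h4 := osf_flx_le hu hp hd (a + c 0) (c 1)
  calc |flx 0 u (a + c 0) (y + c 1) - flx 0 u (a + c 0) (c 1)|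
      ≤ |flx 0 u (a + c 0) (y + c 1)| + |flx 0 u (a + c 0) (c 1)| := abs_sub _ _
    _ ≤ 2 * osf 0 u (a + c 0) := by linarith

end

end TH
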