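import Pool.Agent.TH.Bas
import Pool.Agent.TH.Osf

/-!
# The average over the lines of the bound of the action (TH-12)
-/

set_option autoImplicit false

open MeasureTheory Set Pool.Agent.H68.VD
open scoped ENNReal ContDiff

namespace TH

private theorem avg_lint {F : ℝ → ℝ} (hF : Continuous F) (h0 : ∀ a, 0 ≤ F a) :
    ∫⁻ a in Icc (0 : ℝ) 1, ENNReal.ofReal (F a) = ENNReal.ofReal (∫ a in (0 : ℝ)..1, F a) := by
  rw [intervalIntegral.integral_of_le zero_le_one, ← integral_Icc_eq_integral_Ioc]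
  exact (ofReal_integral_eq_lintegral_ofReal hF.integrableOn_Icc
    (Filter.Eventually.of_forall h0)).symm

private theorem avg_shift {F : ℝ → ℝ} (hF : Continuous F) (h0 : ∀ a, 0 ≤ F a)
    (hp : ∀ a, F (a + 1) = F a) (c : ℝ) :
    ∫⁻ a in Icc (0 : ℝ) 1, ENNReal.ofReal (F (a + c)) =
      ∫⁻ a in Icc (0 : ℝ) 1, ENNReal.ofReal (F a) := by
  have hper : Function.Periodic F 1 := hp
  have h1 : ∫ a in (0 : ℝ)..1, F (a + c) = ∫ a in (0 : ℝ)..1, F a := by
    rw [intervalIntegral.integral_comp_add_right, zero_add, add_comm 1 c]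
    have h2 := hper.intervalIntegral_add_eq c 0
    rwa [zero_add] at h2
  rw [avg_lint hF h0, ← h1]
  exact avg_lint (F := fun a => F (a + c)) (hF.comp (continuous_id.add continuous_const))
    fun a => h0 _

theorem avg {N : (Eu 2 → Eu 2) → ℝ≥0∞} (hN : Slc N) : ∃ C : ℝ, 0 ≤ C ∧ ∀ (i : Fin 2)
    (φ : ℝ → Eu 2 → Eu 2), FPath lat φ →
    ∫⁻ a in Icc (0 : ℝ) 1, ENNReal.ofReal (Ebd i φ a) ≤ ENNReal.ofReal C * len N φ := by
  obtain ⟨C, hC, hS⟩ := hN
  refine ⟨2 * C, by positivity, fun i φ h => ?_⟩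
  have hd : Continuous fun t => dsp (φ t) :=
    continuous_iff_continuousAt.2 fun t => (dsp_deriv h t).continuousAt
  have hdi : Continuous fun t => dsp (φ t) i :=
    (EuclideanSpace.proj i : Eu 2 →L[ℝ] ℝ).continuous.comp hd
  have hosf := osf_cont i h
  have hg : Continuous fun z : ℝ × ℝ => osf i (vel φ z.2) (z.1 + dsp (φ z.2) i) :=
    hosf.comp (f := fun z : ℝ × ℝ => (z.2, z.1 + dsp (φ z.2) i))
      (continuous_snd.prodMk (continuous_fst.add (hdi.comp continuous_snd)))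
  have h1 : ∀ a : ℝ, ENNReal.ofReal (Ebd i φ a) = ENNReal.ofReal 2 *
      ∫⁻ t in Icc (0 : ℝ) 1, ENNReal.ofReal (osf i (vel φ t) (a + dsp (φ t) i)) := by
    intro a
    unfold Ebd
    rw [ENNReal.ofReal_mul (by norm_num)]
    congr 1
    exact (avg_lint (F := fun t => osf i (vel φ t) (a + dsp (φ t) i))
      (hg.comp (f := fun t => (a, t)) (by fun_prop)) fun t => osf_nonneg i _ _).symm
  have h2 : ∀ t : ℝ, ∫⁻ a in Icc (0 : ℝ) 1,
      ENNReal.ofReal (osf i (vel φ t) (a + dsp (φ t) i)) ≤ ENNReal.ofReal C * N (vel φ t) := by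
    intro t
    rw [avg_shift (F := fun a => osf i (vel φ t) a) (hosf.comp (f := fun a => (t, a)) (by fun_prop))
      (fun a => osf_nonneg i _ _) (fun a => osf_per i (vel_per h t) a)]
    refine hS i _ ?_ (vel_per h t) (vel_div h t)
    exact (vel_smooth h).comp (f := fun x : Eu 2 => (t, x)) (contDiff_const.prodMk contDiff_id)
  calc ∫⁻ a in Icc (0 : ℝ) 1, ENNReal.ofReal (Ebd i φ a)
      = ∫⁻ a in Icc (0 : ℝ) 1, ENNReal.ofReal 2 * ∫⁻ t in Icc (0 : ℝ) 1,
          ENNReal.ofReal (osf i (vel φ t) (a + dsp (φ t) i)) := by simp only [h1]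
    _ = ENNReal.ofReal 2 * ∫⁻ a in Icc (0 : ℝ) 1, ∫⁻ t in Icc (0 : ℝ) 1,
          ENNReal.ofReal (osf i (vel φ t) (a + dsp (φ t) i)) :=
        lintegral_const_mul' _ _ ENNReal.ofReal_ne_top
    _ = ENNReal.ofReal 2 * ∫⁻ t in Icc (0 : ℝ) 1, ∫⁻ a in Icc (0 : ℝ) 1,
          ENNReal.ofReal (osf i (vel φ t) (a + dsp (φ t) i)) := by
        congr 1
        refine lintegral_lintegral_swap (f := fun a t =>
          ENNReal.ofReal (osf i (vel φ t) (a + dsp (φ t) i))) ?_
        exact (ENNReal.continuous_ofReal.comp hg).measurable.aemeasurable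
    _ ≤ ENNReal.ofReal 2 * ∫⁻ t in Icc (0 : ℝ) 1, ENNReal.ofReal C * N (vel φ t) := by
        gcongr with t
        exact h2 t
    _ = ENNReal.ofReal 2 * (ENNReal.ofReal C * len N φ) := by
        rw [lintegral_const_mul' _ _ ENNReal.ofReal_ne_top]
        rfl
    _ = ENNReal.ofReal (2 * C) * len N φ := by
        rw [ENNReal.ofReal_mul (by norm_num), mul_assoc]

end TH
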