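import Pool.Agent.TH.Defs
import Pool.Agent.H68.VD.Tr
import Pool.Agent.H68.VD.VelDiv

/-!
# Project TH (MP_b0bf68_gt): basic facts on paths of area preserving maps of the torus
-/

set_option autoImplicit false

open MeasureTheory Set Pool.Agent.H68.VD
open scoped ENNReal ContDiff

namespace TH

noncomputable section

theorem lat_deck : FlatDeck lat := by
  have hadd : ∀ k l : Fin 2 → ℤ, (iv (k + l) : Eu 2) = iv k + iv l := by
    intro k l
    ext i
    simp [iv]
  have hzero : (iv 0 : Eu 2) = 0 := by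
    ext i
    simp [iv]
  refine ⟨⟨0, ?_⟩, ?_, ?_, fun k => ⟨k, rfl⟩, ?_, ?_, ?_⟩
  · funext x
    simp [hzero]
  · rintro _ ⟨k, rfl⟩ _ ⟨l, rfl⟩
    refine ⟨l + k, ?_⟩
    funext x
    simp only [Function.comp]
    rw [hadd, add_assoc]
  · rintro _ ⟨k, rfl⟩
    refine ⟨fun x => x + iv (-k), ⟨-k, rfl⟩, ?_, ?_⟩
    · funext x
      simp only [Function.comp, id]
      rw [TrA.iv_neg]
      abel
    · funext x
      simp only [Function.comp, id]
      rw [TrA.iv_neg]
      abel
  · refine ⟨{id}, Set.finite_singleton _, ?_⟩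
    rintro _ ⟨k, rfl⟩
    exact ⟨id, rfl, k, fun x => rfl⟩
  · rintro _ ⟨k, rfl⟩
    refine ⟨fun v => v, ?_, fun c v => rfl, fun l => ⟨l, rfl⟩⟩
    intro x v
    show x + v + iv k = x + iv k + v
    abel
  · rintro _ ⟨k, rfl⟩ hne x hx
    apply hne
    have h1 : (iv k : Eu 2) = 0 := by
      have h2 : x + iv k = x + 0 := by rw [add_zero]; exact hx
      exact add_left_cancel h2
    funext y
    show y + iv k = y
    rw [h1, add_zero]

private theorem ip {φ : ℝ → Eu 2 → Eu 2} (h : FPath lat φ) : IsPath (TrA.sub lat_deck) φ :=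
  (TrA.path_iff lat_deck φ).1 h

theorem vel_smooth {φ : ℝ → Eu 2 → Eu 2} (h : FPath lat φ) :
    ContDiff ℝ ∞ (fun z : ℝ × Eu 2 => vel φ z.1 z.2) :=
  FamA.velSmooth (ip h)

theorem vel_per {φ : ℝ → Eu 2 → Eu 2} (h : FPath lat φ) (t : ℝ) : Per (vel φ t) := by
  intro x k
  have h6 := FamA.velEqui (ip h) _ ((TrA.deck lat_deck).trans k) t x
  rw [FluxA.trans_apply] at h6
  rw [h6]
  rfl

theorem vel_eq {φ : ℝ → Eu 2 → Eu 2} (h : FPath lat φ) (t : ℝ) (x : Eu 2) :
    HasDerivAt (fun τ => φ τ x) (vel φ t (φ t x)) t :=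
  FamA.velEq (ip h) t x

theorem vel_div {φ : ℝ → Eu 2 → Eu 2} (h : FPath lat φ) (t : ℝ) : DvF (vel φ t) :=
  velDiv famKit 2 _ φ (ip h) t

theorem dsp_deriv {φ : ℝ → Eu 2 → Eu 2} (h : FPath lat φ) (t : ℝ) :
    HasDerivAt (fun τ => dsp (φ τ)) (mn (vel φ t)) t :=
  (fluxKit famKit).mean 2 _ (TrA.deck lat_deck) φ (ip h) t

private theorem dsp_smooth {φ : ℝ → Eu 2 → Eu 2} (h : FPath lat φ) :
    ContDiff ℝ ∞ (fun τ => dsp (φ τ)) :=
  FluxA.smooth_int (fun τ x => φ τ x - x) (h.smooth.sub contDiff_snd)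

private theorem nrm_path {φ : ℝ → Eu 2 → Eu 2} (h : FPath lat φ) :
    FPath lat (fun t => nrm (φ t)) := by
  refine ⟨?_, ?_, ?_, ?_⟩
  · exact h.smooth.sub ((dsp_smooth h).comp contDiff_fst)
  · intro t
    constructor
    · intro x y hxy
      exact (h.bij t).1 (sub_left_injective hxy)
    · intro y
      obtain ⟨x, hx⟩ := (h.bij t).2 (y + dsp (φ t))
      exact ⟨x, by show φ t x - dsp (φ t) = y; rw [hx]; abel⟩
  · intro t x
    have h2 : fderiv ℝ (fun x => φ t x - dsp (φ t)) x = fderiv ℝ (φ t) x := by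
      rw [fderiv_sub_const]
    show (fderiv ℝ (fun x => φ t x - dsp (φ t)) x).det = 1
    rw [h2]
    exact h.det t x
  · rintro t _ ⟨k, rfl⟩ x
    have h2 := h.equi t _ ⟨k, rfl⟩ x
    show φ t (x + iv k) - dsp (φ t) = φ t x - dsp (φ t) + iv k
    have h3 : φ t (x + iv k) = φ t x + iv k := h2
    rw [h3]
    abel

private theorem dsp_id : dsp (id : Eu 2 → Eu 2) = 0 := by
  show ∫ x in cube 2, ((id x : Eu 2) - x) = 0
  simp

/-- moving frame: the path with mean displacement zero -/
theorem frame {φ : ℝ → Eu 2 → Eu 2} (h : FPath lat φ) (h0 : φ 0 = id) :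
    FPath lat (fun t => nrm (φ t)) ∧ nrm (φ 0) = id ∧
      (∀ t, mn (vel (fun t => nrm (φ t)) t) = 0) ∧
      ∀ t x, vel (fun t => nrm (φ t)) t x = vel φ t (x + dsp (φ t)) - mn (vel φ t) := by
  have hp := nrm_path h
  refine ⟨hp, ?_, ?_, ?_⟩
  · funext x
    show φ 0 x - dsp (φ 0) = x
    rw [h0, dsp_id, sub_zero]
    rfl
  · intro t
    have h2 := dsp_deriv hp t
    have h3 : (fun τ => dsp ((fun t => nrm (φ t)) τ)) = fun _ => 0 := by
      funext τ
      have hs : ContDiff ℝ ∞ (φ τ) := h.smooth.comp (contDiff_const.prodMk contDiff_id)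
      have h4 : ∀ x, nrm (φ τ) x - x = (φ τ x - x) - dsp (φ τ) := fun x => by
        show φ τ x - dsp (φ τ) - x = _
        abel
      show ∫ x in cube 2, (nrm (φ τ) x - x) = 0
      simp only [h4]
      have hi : IntegrableOn (fun x => φ τ x - x) (cube 2) volume :=
        HsA.int_cube (hs.continuous.sub continuous_id)
      rw [integral_sub hi (integrable_const _), setIntegral_const, Measure.real, HsA.vol_cube]
      simp [dsp]
    rw [h3] at h2
    exact h2.unique (hasDerivAt_const t 0)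
  · intro t x
    obtain ⟨y, hy⟩ := (hp.bij t).2 x
    have hy' : φ t y - dsp (φ t) = x := hy
    have h1 := vel_eq hp t y
    have h2 : HasDerivAt (fun τ => nrm (φ τ) y) (vel φ t (φ t y) - mn (vel φ t)) t :=
      (vel_eq h t y).sub (dsp_deriv h t)
    have h3 := h1.unique h2
    rw [hy] at h3
    rw [h3, ← hy']
    congr 2
    abel

/-- composition on the right with the inverse of an element of the group -/
theorem right_div {f g : Eu 2 → Eu 2} (hf : FG lat f) (hg : FG lat g) :
    ∃ k : Eu 2 → Eu 2, FG lat k ∧ (∀ x, k (f x) = x) ∧ (∀ x, f (k x) = x) ∧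
      FG lat (fun x => g (k x)) ∧
      ∀ φ : ℝ → Eu 2 → Eu 2, FPath lat φ → φ 0 = f → FPath lat (fun t x => φ t (k x)) ∧
        ∀ t, vel (fun t x => φ t (k x)) t = vel φ t := by
  obtain ⟨φf, hφf, hf0, hf1⟩ := hf
  obtain ⟨φg, hφg, hg0, hg1⟩ := hg
  have hinv : IsPath (TrA.sub lat_deck) (fun t => Function.invFun (φf t)) :=
    FamA.isFamInv (ip hφf)
  have hid : Function.invFun (id : Eu 2 → Eu 2) = id := by
    funext x
    exact Function.leftInverse_invFun (f := (id : Eu 2 → Eu 2)) Function.injective_id x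
  have hbij : Function.Bijective f := hf1 ▸ hφf.bij 1
  have hk1 : ∀ x, Function.invFun f (f x) = x := Function.leftInverse_invFun hbij.1
  have hk2 : ∀ x, f (Function.invFun f x) = x := Function.rightInverse_invFun hbij.2
  have hkb : Function.Bijective (Function.invFun f) :=
    ⟨fun x y hxy => by rw [← hk2 x, ← hk2 y, hxy], fun x => ⟨f x, hk1 x⟩⟩
  refine ⟨Function.invFun f, ?_, hk1, hk2, ?_, ?_⟩
  · refine ⟨fun t => Function.invFun (φf t), (TrA.path_iff lat_deck _).2 hinv, ?_, ?_⟩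
    · show Function.invFun (φf 0) = id
      rw [hf0, hid]
    · show Function.invFun (φf 1) = Function.invFun f
      rw [hf1]
  · refine ⟨fun t x => φg t (Function.invFun (φf t) x), (TrA.path_iff lat_deck _).2
      (FamA.isFamComp (ip hφg) hinv), ?_, ?_⟩
    · funext x
      show φg 0 (Function.invFun (φf 0) x) = x
      rw [hf0, hg0, hid]
      rfl
    · funext x
      show φg 1 (Function.invFun (φf 1) x) = g (Function.invFun f x)
      rw [hf1, hg1]
  · intro φ hφ _
    have hc : IsPath (TrA.sub lat_deck) (fun _ => Function.invFun f) := by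
      have h1 := FamA.isFamRe (E' := ℝ) (h := fun _ => (1 : ℝ)) hinv contDiff_const
      simp only [hf1] at h1
      exact h1
    refine ⟨(TrA.path_iff lat_deck _).2 (FamA.isFamComp (ip hφ) hc), ?_⟩
    intro t
    funext x
    exact FamA.velConst (Function.invFun f) hφ.bij hkb t x

end

end TH
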