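import Pool.Agent.TH.Defs
import Pool.Agent.H68.VD.DensB

/-!
Project TH, row TH-3: bounds of smooth periodic data.
-/

set_option autoImplicit false

open MeasureTheory Set Pool.Agent.H68.VD
open scoped ENNReal ContDiff

namespace TH

noncomputable section

/-- Continuous functions on `[0,1] × ℝ²` which are periodic in the second variable are bounded. -/
private theorem bdd_of_per {F : Type*} [NormedAddCommGroup F] {G : ℝ × Eu 2 → F}
    (hG : Continuous G) (hp : ∀ (t : ℝ) (x : Eu 2) (k : Fin 2 → ℤ), G (t, x + iv k) = G (t, x)) :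
    ∃ M : ℝ, 0 ≤ M ∧ ∀ t ∈ Icc (0 : ℝ) 1, ∀ x, ‖G (t, x)‖ ≤ M := by
  obtain ⟨C, hC⟩ := (isCompact_Icc (a := (0 : ℝ)) (b := 1)).prod
    (HsA.closed_compact (n := 2)) |>.exists_bound_of_continuousOn hG.continuousOn
  refine ⟨max C 0, le_max_right _ _, fun t ht x => ?_⟩
  obtain ⟨k, hk⟩ := DensBA.exists_cube x
  rw [← hp t x k]
  exact (hC _ ⟨ht, HsA.cube_sub_closed hk⟩).trans (le_max_left _ _)

/-- Smooth functions which are periodic in the second variable are Lipschitz on `[0,1] × ℝ²`. -/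
private theorem lip_of_per {F : Type*} [NormedAddCommGroup F] [NormedSpace ℝ F]
    {G : ℝ × Eu 2 → F} (hG : ContDiff ℝ ∞ G)
    (hp : ∀ (t : ℝ) (x : Eu 2) (k : Fin 2 → ℤ), G (t, x + iv k) = G (t, x)) :
    ∃ M : ℝ, 0 ≤ M ∧ ∀ t ∈ Icc (0 : ℝ) 1, ∀ t' ∈ Icc (0 : ℝ) 1, ∀ x x',
      ‖G (t, x) - G (t', x')‖ ≤ M * (|t - t'| + ‖x - x'‖) := by
  have hd : Continuous (fderiv ℝ G) := hG.continuous_fderiv (by simp)
  have hdp : ∀ (t : ℝ) (x : Eu 2) (k : Fin 2 → ℤ),
      fderiv ℝ G (t, x + iv k) = fderiv ℝ G (t, x) := by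
    intro t x k
    have h1 : (fun z : ℝ × Eu 2 => G (z + (0, iv k))) = G := by
      funext z
      obtain ⟨s, y⟩ := z
      rw [Prod.mk_add_mk, add_zero]
      exact hp s y k
    have h2 := fderiv_comp_add_right (𝕜 := ℝ) (f := G) (x := ((t, x) : ℝ × Eu 2))
      ((0, iv k) : ℝ × Eu 2)
    rw [h1, Prod.mk_add_mk, add_zero] at h2
    exact h2.symm
  obtain ⟨M, hM0, hM⟩ := bdd_of_per hd hdp
  refine ⟨M, hM0, fun t ht t' ht' x x' => ?_⟩
  have hconv : Convex ℝ (Icc (0 : ℝ) 1 ×ˢ (univ : Set (Eu 2))) :=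
    (convex_Icc 0 1).prod convex_univ
  have h3 := hconv.norm_image_sub_le_of_norm_fderiv_le (𝕜 := ℝ) (f := G) (C := M)
    (x := (t', x')) (y := (t, x))
    (fun z _ => (hG.differentiable (by simp)) z) (fun z hz => hM z.1 hz.1 z.2)
    ⟨ht', mem_univ _⟩ ⟨ht, mem_univ _⟩
  refine h3.trans (mul_le_mul_of_nonneg_left ?_ hM0)
  rw [Prod.mk_sub_mk, Prod.norm_mk, Real.norm_eq_abs]
  exact max_le (by linarith [norm_nonneg (x - x')]) (by linarith [abs_nonneg (t - t')])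

theorem HFl.bnd {u : ℝ → Eu 2 → Eu 2} {H : ℝ → Eu 2 → ℝ} {φ : ℝ → Eu 2 → Eu 2} (h : HFl u H φ) :
    ∃ L : ℝ, 0 ≤ L ∧ (∀ t ∈ Icc (0 : ℝ) 1, ∀ x, ‖u t x‖ ≤ L) ∧
      (∀ t ∈ Icc (0 : ℝ) 1, ∀ t' ∈ Icc (0 : ℝ) 1, ∀ x x', ‖u t x - u t' x'‖ ≤ L * (|t - t'| + ‖x - x'‖)) ∧
      (∀ t ∈ Icc (0 : ℝ) 1, ∀ t' ∈ Icc (0 : ℝ) 1, ∀ x x', |H t x - H t' x'| ≤ L * (|t - t'| + ‖x - x'‖)) ∧
      (∀ t ∈ Icc (0 : ℝ) 1, ∀ x w : Eu 2, |H t (x + w) - H t x - (u t x 0 * w 1 - u t x 1 * w 0)| ≤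
        L * ‖w‖ ^ 2) := by
  obtain ⟨A, hA0, hA⟩ := bdd_of_per (G := fun z : ℝ × Eu 2 => u z.1 z.2) h.us.continuous
    (fun t x k => h.up t x k)
  obtain ⟨B, hB0, hB⟩ := lip_of_per (G := fun z : ℝ × Eu 2 => u z.1 z.2) h.us
    (fun t x k => h.up t x k)
  obtain ⟨C, hC0, hC⟩ := lip_of_per (G := fun z : ℝ × Eu 2 => H z.1 z.2) h.Hs
    (fun t x k => h.Hp t x k)
  refine ⟨A + 2 * B + C, by positivity, ?_, ?_, ?_, ?_⟩
  · intro t ht x
    have := hA t ht x
    dsimp only at this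
    linarith
  · intro t ht t' ht' x x'
    have h1 := hB t ht t' ht' x x'
    dsimp only at h1
    have h2 : 0 ≤ |t - t'| + ‖x - x'‖ := by positivity
    nlinarith [mul_nonneg hA0 h2, mul_nonneg hB0 h2, mul_nonneg hC0 h2]
  · intro t ht t' ht' x x'
    have h1 := hC t ht t' ht' x x'
    dsimp only at h1
    rw [Real.norm_eq_abs] at h1
    have h2 : 0 ≤ |t - t'| + ‖x - x'‖ := by positivity
    nlinarith [mul_nonneg hA0 h2, mul_nonneg hB0 h2, mul_nonneg hC0 h2]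
  · intro t ht x w
    -- the remainder as a function of the point
    have hball : ∀ y ∈ segment ℝ x (x + w), ‖y - x‖ ≤ ‖w‖ := by
      intro y hy
      rw [segment_eq_image'] at hy
      obtain ⟨r, hr, rfl⟩ := hy
      rw [add_sub_cancel_left, add_sub_cancel_left, norm_smul, Real.norm_eq_abs, abs_of_nonneg hr.1]
      exact mul_le_of_le_one_left (norm_nonneg _) hr.2
    set D : Eu 2 → (Eu 2 →L[ℝ] ℝ) := fun y =>
      u t y 0 • (EuclideanSpace.proj 1 : Eu 2 →L[ℝ] ℝ) -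
        u t y 1 • (EuclideanSpace.proj 0 : Eu 2 →L[ℝ] ℝ) with hD
    have hder : ∀ y ∈ segment ℝ x (x + w),
        HasFDerivWithinAt (fun y => H t y - D x y) (D y - D x) (segment ℝ x (x + w)) y := by
      intro y _
      exact ((h.Hd t y).sub (D x).hasFDerivAt).hasFDerivWithinAt
    have hbd : ∀ y ∈ segment ℝ x (x + w), ‖D y - D x‖ ≤ 2 * B * ‖w‖ := by
      intro y hy
      have h1 := hB t ht t ht y x
      dsimp only at h1
      rw [sub_self, abs_zero, zero_add] at h1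
      have h2 : ‖u t y - u t x‖ ≤ B * ‖w‖ :=
        h1.trans (mul_le_mul_of_nonneg_left (hball y hy) hB0)
      have h3 : ∀ i, |u t y i - u t x i| ≤ B * ‖w‖ := by
        intro i
        have h4 : ‖(u t y - u t x) i‖ ≤ ‖u t y - u t x‖ := PiLp.norm_apply_le _ i
        rw [PiLp.sub_apply, Real.norm_eq_abs] at h4
        exact h4.trans h2
      have hproj : ∀ i : Fin 2, ‖(EuclideanSpace.proj i : Eu 2 →L[ℝ] ℝ)‖ ≤ 1 := by
        intro i
        refine ContinuousLinearMap.opNorm_le_bound _ zero_le_one fun v => ?_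
        rw [one_mul]
        exact PiLp.norm_apply_le v i
      have h5 : D y - D x = (u t y 0 - u t x 0) • (EuclideanSpace.proj 1 : Eu 2 →L[ℝ] ℝ) -
          (u t y 1 - u t x 1) • (EuclideanSpace.proj 0 : Eu 2 →L[ℝ] ℝ) := by
        rw [hD]
        simp only [sub_smul]
        abel
      rw [h5]
      refine (norm_sub_le _ _).trans ?_
      rw [norm_smul, norm_smul, Real.norm_eq_abs, Real.norm_eq_abs]
      have h6 := mul_le_mul (h3 0) (hproj 1) (norm_nonneg _) (by positivity)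
      have h7 := mul_le_mul (h3 1) (hproj 0) (norm_nonneg _) (by positivity)
      linarith
    have h8 := (convex_segment x (x + w)).norm_image_sub_le_of_norm_hasFDerivWithin_le hder hbd
      (left_mem_segment ℝ x (x + w)) (right_mem_segment ℝ x (x + w))
    rw [add_sub_cancel_left, Real.norm_eq_abs] at h8
    have h9 : H t (x + w) - D x (x + w) - (H t x - D x x) =
        H t (x + w) - H t x - (u t x 0 * w 1 - u t x 1 * w 0) := by
      rw [map_add]
      have h10 : D x w = u t x 0 * w 1 - u t x 1 * w 0 := by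
        rfl
      rw [h10]
      ring
    rw [h9] at h8
    refine h8.trans ?_
    have h11 : 0 ≤ ‖w‖ ^ 2 := by positivity
    nlinarith [mul_nonneg hA0 h11, mul_nonneg hC0 h11]

end

end TH
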