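import Pool.Agent.TH.Defs

/-!
# Project TH (MP_b0bf68_gt), row TH-24: calculus of `cvg`, suprema on typical lines
-/

set_option autoImplicit false

open MeasureTheory Set Pool.Agent.H68.VD
open scoped ENNReal ContDiff

namespace TH

noncomputable section

theorem cvg_cont {K : Eu 2 → Eu 2} (hK : ContDiff ℝ ∞ K) (hKs : HasCompactSupport K)
    {u : Eu 2 → Eu 2} (hu : Continuous u) :
    Continuous (fun z : Ioi (0 : ℝ) × Eu 2 => cvg K z.1 u z.2) := by
  have : LocallyCompactSpace (Ioi (0 : ℝ)) := isOpen_Ioi.locallyCompactSpace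
  have h1 : Continuous (Function.uncurry fun (z : Ioi (0 : ℝ) × Eu 2) (w : Eu 2) =>
      (inner ℝ (u (z.2 - (z.1 : ℝ)⁻¹ • w)) (K w) : ℝ)) := by
    refine Continuous.inner (hu.comp ?_) (hK.continuous.comp continuous_snd)
    have h0 : Continuous (fun t : (Ioi (0 : ℝ) × Eu 2) × Eu 2 => ((t.1.1 : ℝ))⁻¹) := by
      refine Continuous.inv₀ (continuous_subtype_val.comp (continuous_fst.comp continuous_fst)) ?_
      intro z
      exact ne_of_gt z.1.1.2
    exact Continuous.sub (continuous_snd.comp continuous_fst) (h0.smul continuous_snd)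
  have h2 := continuous_parametric_integral_of_continuous (μ := (volume : Measure (Eu 2))) h1
    (s := tsupport K) hKs
  refine h2.congr fun z => ?_
  unfold cvg
  refine setIntegral_eq_integral_of_forall_compl_eq_zero fun w hw => ?_
  rw [image_eq_zero_of_notMem_tsupport hw, inner_zero_right]

theorem cvg_per {K : Eu 2 → Eu 2} {u : Eu 2 → Eu 2} (hu : Per u) (l : ℝ) :
    Per (cvg K l u) := by
  intro x k
  unfold cvg
  refine integral_congr_ae (Filter.Eventually.of_forall fun w => ?_)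
  beta_reduce
  have h1 : x + iv k - l⁻¹ • w = (x - l⁻¹ • w) + iv k := by abel
  rw [h1, hu]

/-- `cvg` as a convolution -/
theorem cvg_conv {K : Eu 2 → Eu 2} {u : Eu 2 → Eu 2} {l : ℝ} (hl : 0 < l) (x : Eu 2) :
    cvg K l u x = l ^ 2 * (convolution u (fun z => K (l • z)) (innerSL ℝ) volume x) := by
  rw [convolution_eq_swap]
  have h1 := Measure.integral_comp_smul (volume : Measure (Eu 2))
    (fun w => (inner ℝ (u (x - l⁻¹ • w)) (K w) : ℝ)) l
  rw [finrank_euclideanSpace_fin] at h1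
  have h2 : (fun z => (inner ℝ (u (x - l⁻¹ • l • z)) (K (l • z)) : ℝ)) =
      fun t => (innerSL ℝ (u (x - t))) (K (l • t)) := by
    funext z
    rw [inv_smul_smul₀ hl.ne']
    rfl
  rw [h2, smul_eq_mul, abs_of_pos (by positivity)] at h1
  rw [h1]
  unfold cvg
  field_simp

theorem cvg_ln (i : Fin 2) (a r : ℝ) : ln i a r = ln i a 0 + r • ev (1 - i) := by
  fin_cases i
  · ext j
    fin_cases j <;> simp [ln, pt, ev]
  · ext j
    fin_cases j <;> simp [ln, pt, ev]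

theorem cvg_lnDeriv (i : Fin 2) (a r : ℝ) : HasDerivAt (fun r => ln i a r) (ev (1 - i)) r := by
  have h1 : (fun r => ln i a r) = fun r => ln i a 0 + r • ev (1 - i) := by
    funext r
    exact cvg_ln i a r
  rw [h1]
  have h2 := ((hasDerivAt_id r).smul_const (ev (1 - i) : Eu 2)).const_add (ln i a 0)
  simpa using h2

theorem cvg_deriv {K : Eu 2 → Eu 2} (hK : ContDiff ℝ ∞ K) (hKs : HasCompactSupport K)
    {u : Eu 2 → Eu 2} (hu : Continuous u) {l : ℝ} (hl : 0 < l) (i : Fin 2) (a r : ℝ) :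
    HasDerivAt (fun r => cvg K l u (ln i a r))
      (l * cvg (fun w => fderiv ℝ K w (ev (1 - i))) l u (ln i a r)) r := by
  set g : Eu 2 → Eu 2 := fun z => K (l • z) with hg
  have hg1 : ContDiff ℝ ∞ g := hK.comp (contDiff_const_smul l)
  have hgs : HasCompactSupport g := hKs.comp_homeomorph (Homeomorph.smulOfNeZero l hl.ne')
  have hul : LocallyIntegrable u (volume : Measure (Eu 2)) := hu.locallyIntegrable
  have h1 := hgs.hasFDerivAt_convolution_right (innerSL ℝ) hul (hg1.of_le (by simp)) (ln i a r)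
  have h2 : HasFDerivAt (fun x => cvg K l u x)
      (l ^ 2 • (convolution u (fderiv ℝ g) ((innerSL ℝ).precompR (Eu 2)) volume (ln i a r)))
      (ln i a r) := by
    have h3 : (fun x => cvg K l u x) = fun x => l ^ 2 • (convolution u g (innerSL ℝ) volume x) := by
      funext x
      rw [cvg_conv hl x, smul_eq_mul]
    rw [h3]
    exact h1.const_smul (l ^ 2)
  have h3 := h2.comp_hasDerivAt r (cvg_lnDeriv i a r)
  have h4 : (l ^ 2 • (convolution u (fderiv ℝ g) ((innerSL ℝ).precompR (Eu 2)) volume (ln i a r)))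
      (ev (1 - i)) = l * cvg (fun w => fderiv ℝ K w (ev (1 - i))) l u (ln i a r) := by
    rw [_root_.smul_apply, convolution_precompR_apply (innerSL ℝ) hul (hgs.fderiv ℝ)
      (hg1.continuous_fderiv (by simp)), cvg_conv hl]
    have h5 : (fun z => fderiv ℝ g z (ev (1 - i))) =
        l • fun z => (fun w => fderiv ℝ K w (ev (1 - i))) (l • z) := by
      funext z
      have h6 : HasFDerivAt g ((fderiv ℝ K (l • z)).comp (l • ContinuousLinearMap.id ℝ (Eu 2)))
          z := by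
        have h7 : HasFDerivAt K (fderiv ℝ K (l • z)) (l • z) :=
          (hK.differentiable (by simp) (l • z)).hasFDerivAt
        have h8 : HasFDerivAt (fun z : Eu 2 => l • z) (l • ContinuousLinearMap.id ℝ (Eu 2)) z :=
          (hasFDerivAt_id z).const_smul l
        exact h7.comp z h8
      rw [h6.fderiv]
      simp
    rw [h5, convolution_smul]
    simp only [smul_eq_mul, Pi.smul_apply]
    ring
  rw [← h4]
  exact h3

/-! ### Fubini on the unit square -/

private theorem pt_meas : MeasurePreserving (fun z : ℝ × ℝ => pt z.1 z.2) volume volume := by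
  have h1 := (PiLp.volume_preserving_toLp (Fin 2)).comp (volume_preserving_finTwoArrow ℝ).symm
  refine Eq.mp ?_ h1
  congr 1

private theorem pt_pre : (fun z : ℝ × ℝ => pt z.1 z.2) ⁻¹' (cube 2) =
    Ico (0 : ℝ) 1 ×ˢ Ico (0 : ℝ) 1 := by
  ext z
  simp only [mem_preimage, cube, mem_ofPred_eq, Fin.forall_fin_two, mem_prod, pt]
  rfl

private theorem cube2_meas : MeasurableSet (cube 2) := by
  have h1 : cube 2 = ⋂ i : Fin 2, {x : Eu 2 | x i ∈ Ico (0 : ℝ) 1} := by
    ext x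
    simp [cube]
  rw [h1]
  refine MeasurableSet.iInter fun i => ?_
  have h2 : Measurable (fun x : Eu 2 => x i) := (EuclideanSpace.proj i).continuous.measurable
  exact h2 measurableSet_Ico

private theorem fub0 {F : Eu 2 → ℝ≥0∞} (hF : Measurable F) : ∫⁻ x in cube 2, F x =
    ∫⁻ a in Icc (0 : ℝ) 1, ∫⁻ r in Ioc (0 : ℝ) 1, F (pt a r) := by
  have hm : Measurable (fun z : ℝ × ℝ => F (pt z.1 z.2)) := hF.comp pt_meas.measurable
  rw [← pt_meas.setLIntegral_comp_preimage cube2_meas hF, pt_pre, Measure.volume_eq_prod,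
    ← Measure.prod_restrict, lintegral_prod _ hm.aemeasurable]
  rw [setLIntegral_congr (Ico_ae_eq_Icc (a := (0 : ℝ)) (b := 1))]
  refine lintegral_congr fun a => ?_
  exact setLIntegral_congr (Ico_ae_eq_Ioc (a := (0 : ℝ)) (b := 1))

private theorem fub1 {F : Eu 2 → ℝ≥0∞} (hF : Measurable F) : ∫⁻ x in cube 2, F x =
    ∫⁻ a in Icc (0 : ℝ) 1, ∫⁻ r in Ioc (0 : ℝ) 1, F (pt r a) := by
  have hm : Measurable (fun z : ℝ × ℝ => F (pt z.1 z.2)) := hF.comp pt_meas.measurable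
  rw [← pt_meas.setLIntegral_comp_preimage cube2_meas hF, pt_pre, Measure.volume_eq_prod,
    ← Measure.prod_restrict, lintegral_prod_symm _ hm.aemeasurable]
  rw [setLIntegral_congr (Ico_ae_eq_Icc (a := (0 : ℝ)) (b := 1))]
  refine lintegral_congr fun a => ?_
  exact setLIntegral_congr (Ico_ae_eq_Ioc (a := (0 : ℝ)) (b := 1))

/-- Fubini with the lines `x_i = a` -/
theorem cvg_fub (i : Fin 2) {F : Eu 2 → ℝ≥0∞} (hF : Measurable F) : ∫⁻ x in cube 2, F x =
    ∫⁻ a in Icc (0 : ℝ) 1, ∫⁻ r in Ioc (0 : ℝ) 1, F (ln i a r) := by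
  by_cases hi : i = 0
  · subst hi
    exact fub0 hF
  · rw [fub1 hF]
    unfold ln
    simp only [if_neg hi]

theorem cvg_lnCont (i : Fin 2) : Continuous (fun z : ℝ × ℝ => ln i z.1 z.2) := by
  have h1 : Continuous (fun z : ℝ × ℝ => pt z.1 z.2) := by
    unfold pt
    refine (PiLp.continuous_toLp 2 _).comp (continuous_pi fun j => ?_)
    fin_cases j
    · exact continuous_fst
    · exact continuous_snd
  by_cases hi : i = 0
  · subst hi
    exact h1
  · have h2 : (fun z : ℝ × ℝ => ln i z.1 z.2) = fun z : ℝ × ℝ => pt z.2 z.1 := by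
      funext z
      unfold ln
      rw [if_neg hi]
    rw [h2]
    exact h1.comp (continuous_snd.prodMk continuous_fst)

theorem cvg_lnPer (i : Fin 2) {G : Eu 2 → ℝ} (hG : Per G) (a r : ℝ) :
    G (ln i a (r + 1)) = G (ln i a r) := by
  have h1 := hG (ln i a r) (fun j => if j = 1 - i then 1 else 0)
  rw [← h1]
  congr 1
  rw [cvg_ln i a (r + 1), cvg_ln i a r]
  rw [add_smul, one_smul, ← add_assoc]
  congr 1
  ext j
  unfold iv ev
  simp only [PiLp.single_apply]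
  split_ifs <;> simp

/-! ### One line -/

/-- Hölder on a short interval -/
private theorem short_le {p l : ℝ} (hp : 1 < p) (hl : 1 ≤ l) {g : ℝ → ℝ} (hg : Continuous g)
    (hgp : ∀ r, g (r + 1) = g r) (r : ℝ) :
    ENNReal.ofReal l * ∫⁻ x in Ioc (r - l⁻¹) r, ‖g x‖ₑ ≤
      ENNReal.ofReal (l ^ (1 / p)) * (∫⁻ x in Ioc (0 : ℝ) 1, ‖g x‖ₑ ^ p) ^ (1 / p) := by
  have hl0 : 0 < l := by linarith
  have hp0 : 0 < p := by linarith
  have hpq : p.HolderConjugate (p / (p - 1)) := Real.HolderConjugate.conjExponent hp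
  have h1 := ENNReal.lintegral_mul_le_Lp_mul_Lq (volume.restrict (Ioc (r - l⁻¹) r)) hpq
    (f := fun x => ‖g x‖ₑ) (g := fun _ => 1) hg.enorm.measurable.aemeasurable
    aemeasurable_const
  simp only [Pi.mul_apply, mul_one, ENNReal.one_rpow, lintegral_const, one_mul,
    Measure.restrict_apply MeasurableSet.univ, univ_inter, Real.volume_Ioc] at h1
  have h2 : r - (r - l⁻¹) = l⁻¹ := by ring
  rw [h2] at h1
  have h3 : ∫⁻ x in Ioc (r - l⁻¹) r, ‖g x‖ₑ ^ p ≤ ∫⁻ x in Ioc (0 : ℝ) 1, ‖g x‖ₑ ^ p := by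
    have h4 : Ioc (r - l⁻¹) r ⊆ Ioc (r - 1) (r - 1 + 1) := by
      refine Ioc_subset_Ioc ?_ (by linarith)
      have : l⁻¹ ≤ 1 := inv_le_one_of_one_le₀ hl
      linarith
    refine (lintegral_mono_set h4).trans (le_of_eq ?_)
    have h5 := (isAddFundamentalDomain_Ioc (one_pos : (0 : ℝ) < 1) (r - 1)).setLIntegral_eq
      (isAddFundamentalDomain_Ioc (one_pos : (0 : ℝ) < 1) 0) (fun x => ‖g x‖ₑ ^ p) ?_
    · rw [h5, zero_add]
    · rintro ⟨y, hy⟩ x
      obtain ⟨m, rfl⟩ := AddSubgroup.mem_zmultiples_iff.1 hy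
      have h6 : Function.Periodic g 1 := hgp
      have h7 := h6.zsmul m x
      change ‖g (m • (1 : ℝ) + x)‖ₑ ^ p = ‖g x‖ₑ ^ p
      rw [add_comm, h7]
  calc ENNReal.ofReal l * ∫⁻ x in Ioc (r - l⁻¹) r, ‖g x‖ₑ
      ≤ ENNReal.ofReal l * ((∫⁻ x in Ioc (r - l⁻¹) r, ‖g x‖ₑ ^ p) ^ (1 / p) *
        ENNReal.ofReal l⁻¹ ^ (1 / (p / (p - 1)))) := by gcongr
    _ ≤ ENNReal.ofReal l * ((∫⁻ x in Ioc (0 : ℝ) 1, ‖g x‖ₑ ^ p) ^ (1 / p) *
        ENNReal.ofReal l⁻¹ ^ (1 / (p / (p - 1)))) := by gcongr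
    _ = (ENNReal.ofReal l * ENNReal.ofReal l⁻¹ ^ (1 / (p / (p - 1)))) *
        (∫⁻ x in Ioc (0 : ℝ) 1, ‖g x‖ₑ ^ p) ^ (1 / p) := by ring
    _ = ENNReal.ofReal (l ^ (1 / p)) * (∫⁻ x in Ioc (0 : ℝ) 1, ‖g x‖ₑ ^ p) ^ (1 / p) := by
        congr 1
        rw [ENNReal.ofReal_rpow_of_pos (inv_pos.2 hl0), ← ENNReal.ofReal_mul hl0.le]
        congr 1
        rw [Real.inv_rpow hl0.le, ← Real.rpow_neg hl0.le]
        nth_rewrite 1 [← Real.rpow_one l]
        rw [← Real.rpow_add hl0]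
        congr 1
        field_simp
        ring

private theorem line_le {p l : ℝ} (hp : 1 < p) (hl : 1 ≤ l) {g g' : ℝ → ℝ} (hg : Continuous g)
    (hg' : Continuous g') (hgp : ∀ r, g (r + 1) = g r) (hgp' : ∀ r, g' (r + 1) = g' r)
    (hd : ∀ r, HasDerivAt g (l * g' r) r) (r : ℝ) :
    ‖g r‖ₑ ≤ ENNReal.ofReal (l ^ (1 / p)) * ((∫⁻ x in Ioc (0 : ℝ) 1, ‖g x‖ₑ ^ p) ^ (1 / p) +
      (∫⁻ x in Ioc (0 : ℝ) 1, ‖g' x‖ₑ ^ p) ^ (1 / p)) := by
  have hl0 : 0 < l := by linarith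
  have hle : r - l⁻¹ ≤ r := by
    have : 0 < l⁻¹ := inv_pos.2 hl0
    linarith
  have h1 : ∀ x ∈ Icc (r - l⁻¹) r, |g r| ≤ |g x| + l * ∫ y in (r - l⁻¹)..r, |g' y| := by
    intro x hx
    have h2 : ∫ y in x..r, l * g' y = g r - g x :=
      intervalIntegral.integral_eq_sub_of_hasDerivAt (fun y _ => hd y)
        ((continuous_const.mul hg').intervalIntegrable _ _)
    have h3 : |∫ y in x..r, l * g' y| ≤ ∫ y in x..r, |l * g' y| :=
      intervalIntegral.abs_integral_le_integral_abs hx.2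
    have h4 : ∫ y in x..r, |l * g' y| = l * ∫ y in x..r, |g' y| := by
      rw [← intervalIntegral.integral_const_mul]
      refine intervalIntegral.integral_congr fun y _ => ?_
      rw [abs_mul, abs_of_pos hl0]
    have h5 : ∫ y in x..r, |g' y| ≤ ∫ y in (r - l⁻¹)..r, |g' y| := by
      refine intervalIntegral.integral_mono_interval hx.1 hx.2 le_rfl
        (Filter.Eventually.of_forall fun y => abs_nonneg _) (hg'.abs.intervalIntegrable _ _)
    have h6 : |g r| ≤ |g x| + |g r - g x| := by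
      have := abs_add_le (g x) (g r - g x)
      rwa [add_sub_cancel] at this
    rw [← h2] at h6
    have h7 := mul_le_mul_of_nonneg_left h5 hl0.le
    linarith
  have h2 : |g r| ≤ l * (∫ y in (r - l⁻¹)..r, |g y|) + l * ∫ y in (r - l⁻¹)..r, |g' y| := by
    have h3 : ∫ _x in (r - l⁻¹)..r, |g r| ≤
        ∫ x in (r - l⁻¹)..r, (|g x| + l * ∫ y in (r - l⁻¹)..r, |g' y|) := by
      refine intervalIntegral.integral_mono_on hle (continuous_const.intervalIntegrable _ _)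
        ((hg.abs.add continuous_const).intervalIntegrable _ _) h1
    rw [intervalIntegral.integral_add (hg.abs.intervalIntegrable _ _)
      (continuous_const.intervalIntegrable _ _), intervalIntegral.integral_const,
      intervalIntegral.integral_const, smul_eq_mul, smul_eq_mul] at h3
    have h4 : r - (r - l⁻¹) = l⁻¹ := by ring
    rw [h4] at h3
    have h5 := mul_le_mul_of_nonneg_left h3 hl0.le
    rw [mul_add, ← mul_assoc, mul_inv_cancel₀ hl0.ne', one_mul, ← mul_assoc l l⁻¹,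
      mul_inv_cancel₀ hl0.ne', one_mul] at h5
    exact h5
  have h3 : ∀ {f : ℝ → ℝ}, Continuous f → ENNReal.ofReal (l * ∫ y in (r - l⁻¹)..r, |f y|) =
      ENNReal.ofReal l * ∫⁻ x in Ioc (r - l⁻¹) r, ‖f x‖ₑ := by
    intro f hf
    rw [ENNReal.ofReal_mul hl0.le, intervalIntegral.integral_of_le hle]
    congr 1
    have h4 := ofReal_integral_norm_eq_lintegral_enorm
      (μ := volume.restrict (Ioc (r - l⁻¹) r)) (f := f) (hf.integrableOn_Ioc)
    exact h4
  calc ‖g r‖ₑ = ENNReal.ofReal |g r| := by rw [← Real.norm_eq_abs, ofReal_norm]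
    _ ≤ ENNReal.ofReal (l * (∫ y in (r - l⁻¹)..r, |g y|) + l * ∫ y in (r - l⁻¹)..r, |g' y|) :=
        ENNReal.ofReal_le_ofReal h2
    _ ≤ ENNReal.ofReal (l * (∫ y in (r - l⁻¹)..r, |g y|)) +
        ENNReal.ofReal (l * ∫ y in (r - l⁻¹)..r, |g' y|) := ENNReal.ofReal_add_le
    _ = ENNReal.ofReal l * (∫⁻ x in Ioc (r - l⁻¹) r, ‖g x‖ₑ) +
        ENNReal.ofReal l * (∫⁻ x in Ioc (r - l⁻¹) r, ‖g' x‖ₑ) := by rw [h3 hg, h3 hg']
    _ ≤ _ := by
        rw [mul_add]
        exact add_le_add (short_le hp hl hg hgp r) (short_le hp hl hg' hgp' r)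

/-- Jensen on the unit interval -/
private theorem jensen_le {p : ℝ} (hp : 1 < p) {F : ℝ → ℝ≥0∞} (hF : Measurable F) :
    ∫⁻ a in Icc (0 : ℝ) 1, F a ^ (1 / p) ≤ (∫⁻ a in Icc (0 : ℝ) 1, F a) ^ (1 / p) := by
  have hp0 : 0 < p := by linarith
  have hpq : p.HolderConjugate (p / (p - 1)) := Real.HolderConjugate.conjExponent hp
  have h1 := ENNReal.lintegral_mul_le_Lp_mul_Lq (volume.restrict (Icc (0 : ℝ) 1)) hpq
    (f := fun x => F x ^ (1 / p)) (g := fun _ => 1) (hF.pow_const _).aemeasurable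
    aemeasurable_const
  simp only [Pi.mul_apply, mul_one, ENNReal.one_rpow, lintegral_const,
    Measure.restrict_apply MeasurableSet.univ, univ_inter, Real.volume_Icc, sub_zero,
    ENNReal.ofReal_one] at h1
  refine h1.trans (le_of_eq ?_)
  congr 1
  refine lintegral_congr fun a => ?_
  rw [← ENNReal.rpow_mul, one_div, inv_mul_cancel₀ hp0.ne', ENNReal.rpow_one]

/-- the supremum on typical lines -/
theorem sup_line {p : ℝ} (hp : 1 < p) : ∃ C : ℝ, 0 ≤ C ∧ ∀ (i : Fin 2) (l : ℝ), 1 ≤ l →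
    ∀ G G' : Eu 2 → ℝ, Continuous G → Continuous G' → Per G → Per G' →
    (∀ a r, HasDerivAt (fun r => G (ln i a r)) (l * G' (ln i a r)) r) →
    ∫⁻ a in Icc (0 : ℝ) 1, ⨆ r : ℝ, ‖G (ln i a r)‖ₑ ≤
      ENNReal.ofReal (C * l ^ (1 / p)) * ((∫⁻ x in cube 2, ‖G x‖ₑ ^ p) ^ (1 / p) +
        (∫⁻ x in cube 2, ‖G' x‖ₑ ^ p) ^ (1 / p)) := by
  refine ⟨1, zero_le_one, fun i l hl G G' hG hG' hGp hGp' hd => ?_⟩
  rw [one_mul]
  have hlnr : ∀ a, Continuous (fun r => ln i a r) := fun a =>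
    (cvg_lnCont i).comp (continuous_const.prodMk continuous_id)
  have hNm : ∀ {f : Eu 2 → ℝ}, Continuous f →
      Measurable (fun a => ∫⁻ r in Ioc (0 : ℝ) 1, ‖f (ln i a r)‖ₑ ^ p) := by
    intro f hf
    have h1 : Measurable (fun z : ℝ × ℝ => ‖f (ln i z.1 z.2)‖ₑ ^ p) :=
      ((hf.comp (cvg_lnCont i)).enorm.measurable).pow_const p
    exact h1.lintegral_prod_right'
  have hN : ∀ {f : Eu 2 → ℝ}, Continuous f →
      ∫⁻ a in Icc (0 : ℝ) 1, (∫⁻ r in Ioc (0 : ℝ) 1, ‖f (ln i a r)‖ₑ ^ p) ^ (1 / p) ≤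
        (∫⁻ x in cube 2, ‖f x‖ₑ ^ p) ^ (1 / p) := by
    intro f hf
    refine (jensen_le hp (hNm hf)).trans (le_of_eq ?_)
    rw [← cvg_fub i (F := fun x => ‖f x‖ₑ ^ p) (hf.enorm.measurable.pow_const p)]
  calc ∫⁻ a in Icc (0 : ℝ) 1, ⨆ r : ℝ, ‖G (ln i a r)‖ₑ
      ≤ ∫⁻ a in Icc (0 : ℝ) 1, ENNReal.ofReal (l ^ (1 / p)) *
        ((∫⁻ r in Ioc (0 : ℝ) 1, ‖G (ln i a r)‖ₑ ^ p) ^ (1 / p) +
          (∫⁻ r in Ioc (0 : ℝ) 1, ‖G' (ln i a r)‖ₑ ^ p) ^ (1 / p)) := by
        refine lintegral_mono fun a => iSup_le fun r => ?_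
        exact line_le hp hl (g := fun r => G (ln i a r)) (g' := fun r => G' (ln i a r))
          (hG.comp (hlnr a)) (hG'.comp (hlnr a)) (fun r => cvg_lnPer i hGp a r)
          (fun r => cvg_lnPer i hGp' a r) (hd a) r
    _ = ENNReal.ofReal (l ^ (1 / p)) *
        ((∫⁻ a in Icc (0 : ℝ) 1, (∫⁻ r in Ioc (0 : ℝ) 1, ‖G (ln i a r)‖ₑ ^ p) ^ (1 / p)) +
          ∫⁻ a in Icc (0 : ℝ) 1, (∫⁻ r in Ioc (0 : ℝ) 1, ‖G' (ln i a r)‖ₑ ^ p) ^ (1 / p)) := by
        rw [lintegral_const_mul' _ _ ENNReal.ofReal_ne_top,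
          lintegral_add_left ((hNm hG).pow_const _)]
    _ ≤ _ := by
        gcongr
        · exact hN hG
        · exact hN hG'

end

end TH
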