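import Mathlib
import Pool.Agent.H59.SP.Brou2

/-!
# A consequence of Brouwer's fixed point theorem (row TH-1)
-/

set_option autoImplicit false

open Set Metric

namespace TH

theorem exists_zero {m : ℕ} {R : ℝ} (hR : 0 < R)
    {g : EuclideanSpace ℝ (Fin m) → EuclideanSpace ℝ (Fin m)} (hg : Continuous g)
    (h : ∀ x, ‖x‖ = R → g x = x) : ∃ x, ‖x‖ ≤ R ∧ g x = 0 := by
  by_contra hno
  have hne : ∀ x, ‖x‖ ≤ R → g x ≠ 0 := fun x hx h0 => hno ⟨x, hx, h0⟩
  have hpos : ∀ x ∈ closedBall (0 : EuclideanSpace ℝ (Fin m)) R, 0 < ‖g x‖ := by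
    intro x hx
    exact norm_pos_iff.2 (hne x (mem_closedBall_zero_iff.1 hx))
  have hcont : ContinuousOn (fun x => -((R / ‖g x‖) • g x))
      (closedBall (0 : EuclideanSpace ℝ (Fin m)) R) := by
    apply ContinuousOn.fun_neg
    apply ContinuousOn.fun_smul
    · exact continuousOn_const.div hg.norm.continuousOn (fun x hx => (hpos x hx).ne')
    · exact hg.continuousOn
  have hnorm : ∀ x ∈ closedBall (0 : EuclideanSpace ℝ (Fin m)) R,
      ‖-((R / ‖g x‖) • g x)‖ = R := by
    intro x hx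
    rw [norm_neg, norm_smul, Real.norm_eq_abs, abs_of_pos (div_pos hR (hpos x hx)),
      div_mul_cancel₀ _ (hpos x hx).ne']
  obtain ⟨x, hx, hfx⟩ := SP.brouwer (isCompact_closedBall (0 : EuclideanSpace ℝ (Fin m)) R)
    (convex_closedBall _ _) ⟨0, mem_closedBall_self hR.le⟩ hcont (fun x hx => by
      rw [mem_closedBall_zero_iff]
      exact (hnorm x hx).le)
  have hxR : ‖x‖ = R := by
    have h1 := hnorm x hx
    have h2 : -((R / ‖g x‖) • g x) = x := hfx
    rwa [h2] at h1
  have h2 : -((R / ‖g x‖) • g x) = x := hfx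
  rw [h x hxR, hxR, div_self hR.ne', one_smul] at h2
  have h3 : x = 0 := by
    have h4 : x + x = 0 := by
      calc x + x = -x + x := by rw [h2]
        _ = 0 := neg_add_cancel x
    have h5 : (2 : ℝ) • x = 0 := by rw [two_smul]; exact h4
    exact (smul_eq_zero.1 h5).resolve_left two_ne_zero
  rw [h3, norm_zero] at hxR
  exact hR.ne hxR

end TH
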