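import Mathlib
import Pool.Agent.TH.Defs
import Pool.Agent.TH.Zero

/-!
# TH-2: a finite dimensional minimax principle

`F (x, P) = <x, P> + B (x, P)` has a critical point with critical value in `[-e, e]`.
-/

set_option autoImplicit false

open Filter Set Topology

namespace TH

noncomputable section

private abbrev Em (m : ℕ) : Type := EuclideanSpace ℝ (Fin m)

section lemmas

variable {m : ℕ} {B : Em m → Em m → ℝ} {bx bP : Em m → Em m → Em m} {L C e : ℝ}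

private theorem mini_cont
    (hT : ∀ x P v w, |B (x + v) (P + w) - B x P - inner ℝ (bx x P) v - inner ℝ (bP x P) w| ≤
      L * (‖v‖ ^ 2 + ‖w‖ ^ 2))
    (hb : ∀ x P, ‖bx x P‖ ≤ C ∧ ‖bP x P‖ ≤ C) :
    Continuous fun z : Em m × Em m => B z.1 z.2 := by
  refine continuous_iff_continuousAt.2 fun z₀ => ?_
  rw [ContinuousAt, tendsto_iff_norm_sub_tendsto_zero]
  have h1 : Tendsto (fun z : Em m × Em m => C * ‖z.1 - z₀.1‖ + C * ‖z.2 - z₀.2‖ +
      L * (‖z.1 - z₀.1‖ ^ 2 + ‖z.2 - z₀.2‖ ^ 2)) (𝓝 z₀) (𝓝 0) := by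
    have h2 : Continuous (fun z : Em m × Em m => C * ‖z.1 - z₀.1‖ + C * ‖z.2 - z₀.2‖ +
      L * (‖z.1 - z₀.1‖ ^ 2 + ‖z.2 - z₀.2‖ ^ 2)) := by fun_prop
    have h3 := h2.tendsto z₀
    simpa using h3
  refine squeeze_zero (fun _ => norm_nonneg _) (fun z => ?_) h1
  have h2 := hT z₀.1 z₀.2 (z.1 - z₀.1) (z.2 - z₀.2)
  rw [add_sub_cancel, add_sub_cancel] at h2
  have h3 := (abs_real_inner_le_norm (bx z₀.1 z₀.2) (z.1 - z₀.1)).trans
    (mul_le_mul_of_nonneg_right (hb z₀.1 z₀.2).1 (norm_nonneg _))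
  have h4 := (abs_real_inner_le_norm (bP z₀.1 z₀.2) (z.2 - z₀.2)).trans
    (mul_le_mul_of_nonneg_right (hb z₀.1 z₀.2).2 (norm_nonneg _))
  rw [Real.norm_eq_abs]
  rw [abs_le] at h2 h3 h4 ⊢
  constructor <;> linarith [h2.1, h2.2, h3.1, h3.2, h4.1, h4.2]

private theorem mini_deriv
    (hT : ∀ x P v w, |B (x + v) (P + w) - B x P - inner ℝ (bx x P) v - inner ℝ (bP x P) w| ≤
      L * (‖v‖ ^ 2 + ‖w‖ ^ 2)) (x P : Em m) (r : ℝ) :
    HasDerivAt (fun r : ℝ => B (r • x) P) (inner ℝ (bx (r • x) P) x) r := by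
  rw [hasDerivAt_iff_isLittleO]
  refine Asymptotics.IsBigO.trans_isLittleO (g := fun s : ℝ => ‖s - r‖ ^ 2) ?_
    (Asymptotics.isLittleO_pow_sub_sub r (by norm_num))
  refine Asymptotics.IsBigO.of_bound (L * ‖x‖ ^ 2) (Eventually.of_forall fun s => ?_)
  have h1 := hT (r • x) P ((s - r) • x) 0
  have h2 : r • x + (s - r) • x = s • x := by
    rw [← add_smul]
    congr 1
    ring
  rw [h2, add_zero, inner_zero_right, sub_zero, real_inner_smul_right, norm_zero, norm_smul,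
    mul_pow] at h1
  rw [Real.norm_eq_abs, smul_eq_mul, norm_pow, norm_norm]
  calc |B (s • x) P - B (r • x) P - (s - r) * inner ℝ (bx (r • x) P) x|
      ≤ L * (‖s - r‖ ^ 2 * ‖x‖ ^ 2 + 0 ^ 2) := h1
    _ = L * ‖x‖ ^ 2 * ‖s - r‖ ^ 2 := by ring

private theorem mini_lip
    (hT : ∀ x P v w, |B (x + v) (P + w) - B x P - inner ℝ (bx x P) v - inner ℝ (bP x P) w| ≤
      L * (‖v‖ ^ 2 + ‖w‖ ^ 2))
    (hb : ∀ x P, ‖bx x P‖ ≤ C ∧ ‖bP x P‖ ≤ C) (x P : Em m) :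
    |B x P - B 0 P| ≤ C * ‖x‖ := by
  have h1 := norm_image_sub_le_of_norm_deriv_le_segment_01' (f := fun r : ℝ => B (r • x) P)
    (f' := fun r => inner ℝ (bx (r • x) P) x) (C := C * ‖x‖)
    (fun r _ => (mini_deriv hT x P r).hasDerivWithinAt)
    (fun r _ => (abs_real_inner_le_norm _ _).trans
      (mul_le_mul_of_nonneg_right (hb _ _).1 (norm_nonneg _)))
  simpa using h1

private theorem mini_gap {F : Em m → Em m → ℝ} {g₁ g₂ : Em m → Em m → Em m} (hC : 0 ≤ C)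
    (hF : Continuous fun z : Em m × Em m => F z.1 z.2)
    (h1 : Continuous fun z : Em m × Em m => g₁ z.1 z.2)
    (h2 : Continuous fun z : Em m × Em m => g₂ z.1 z.2)
    (hg : ∀ x P, ‖P‖ - C ≤ ‖g₁ x P‖ ∧ ‖x‖ - C ≤ ‖g₂ x P‖)
    (hne : ∀ x P, g₁ x P = 0 → g₂ x P = 0 → e < |F x P|) :
    ∃ d : ℝ, 0 < d ∧ d ≤ 1 ∧ ∀ x P, |F x P| ≤ e + d → d ≤ ‖g₁ x P‖ ^ 2 + ‖g₂ x P‖ ^ 2 := by
  set S : Set (Em m × Em m) := Metric.closedBall 0 (1 + C) ×ˢ Metric.closedBall 0 (1 + C) with hS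
  have hSc : IsCompact S := (isCompact_closedBall _ _).prod (isCompact_closedBall _ _)
  have hSn : S.Nonempty := ⟨(0, 0), by
    constructor <;> exact Metric.mem_closedBall_self (by linarith)⟩
  have hc : Continuous fun z : Em m × Em m => max (|F z.1 z.2| - e) 0 +
      (‖g₁ z.1 z.2‖ ^ 2 + ‖g₂ z.1 z.2‖ ^ 2) :=
    ((hF.abs.sub continuous_const).max continuous_const).add
      ((h1.norm.pow 2).add (h2.norm.pow 2))
  obtain ⟨z₀, hz₀, hmin⟩ := hSc.exists_isMinOn hSn hc.continuousOn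
  set h₀ := max (|F z₀.1 z₀.2| - e) 0 + (‖g₁ z₀.1 z₀.2‖ ^ 2 + ‖g₂ z₀.1 z₀.2‖ ^ 2) with hh
  have hpos : 0 < h₀ := by
    rcases lt_or_ge e |F z₀.1 z₀.2| with h | h
    · have : 0 < max (|F z₀.1 z₀.2| - e) 0 := lt_max_of_lt_left (by linarith)
      positivity
    · have h3 : ¬ (g₁ z₀.1 z₀.2 = 0 ∧ g₂ z₀.1 z₀.2 = 0) := fun h4 =>
        absurd (hne _ _ h4.1 h4.2) (not_lt.2 h)
      have h5 : 0 ≤ max (|F z₀.1 z₀.2| - e) 0 := le_max_right _ _
      by_cases h6 : g₁ z₀.1 z₀.2 = 0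
      · have h7 : g₂ z₀.1 z₀.2 ≠ 0 := fun h => h3 ⟨h6, h⟩
        have h8 : 0 < ‖g₂ z₀.1 z₀.2‖ ^ 2 := by positivity
        have h9 : 0 ≤ ‖g₁ z₀.1 z₀.2‖ ^ 2 := by positivity
        linarith
      · have h8 : 0 < ‖g₁ z₀.1 z₀.2‖ ^ 2 := by positivity
        have h9 : 0 ≤ ‖g₂ z₀.1 z₀.2‖ ^ 2 := by positivity
        linarith
  refine ⟨min 1 (h₀ / 2), lt_min one_pos (by linarith), min_le_left _ _, fun x P hx => ?_⟩
  have hd1 : min 1 (h₀ / 2) ≤ 1 := min_le_left _ _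
  have hd2 : min 1 (h₀ / 2) ≤ h₀ / 2 := min_le_right _ _
  have hd3 : 0 < min 1 (h₀ / 2) := lt_min one_pos (by linarith)
  by_cases hx1 : ‖x‖ ≤ 1 + C
  · by_cases hP1 : ‖P‖ ≤ 1 + C
    · have hz : (x, P) ∈ S := ⟨by simpa using hx1, by simpa using hP1⟩
      have h3 : h₀ ≤ max (|F x P| - e) 0 + (‖g₁ x P‖ ^ 2 + ‖g₂ x P‖ ^ 2) := hmin hz
      have h4 : max (|F x P| - e) 0 ≤ min 1 (h₀ / 2) := max_le (by linarith) hd3.le
      linarith
    · have h3 := (hg x P).1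
      have h4 : 1 < ‖g₁ x P‖ := by linarith
      have h5 : 0 ≤ ‖g₂ x P‖ ^ 2 := by positivity
      nlinarith
  · have h3 := (hg x P).2
    have h4 : 1 < ‖g₂ x P‖ := by linarith
    have h5 : 0 ≤ ‖g₁ x P‖ ^ 2 := by positivity
    nlinarith

/-- the cut-off -/
private def chi (e d r : ℝ) : ℝ := max 0 (min 1 ((r + e + d) * (2 / d)))

private theorem chi_cont (e d : ℝ) : Continuous (chi e d) := by
  unfold chi
  fun_prop

private theorem chi_nonneg (e d r : ℝ) : 0 ≤ chi e d r := le_max_left _ _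

private theorem chi_le (e d r : ℝ) : chi e d r ≤ 1 := max_le zero_le_one (min_le_left _ _)

private theorem chi_zero {e d r : ℝ} (hd : 0 < d) (hr : r ≤ -e - d) : chi e d r = 0 := by
  unfold chi
  refine max_eq_left ((min_le_right _ _).trans ?_)
  have : 0 < 2 / d := by positivity
  nlinarith

private theorem chi_one {e d r : ℝ} (hd : 0 < d) (hr : -e - d / 2 ≤ r) : chi e d r = 1 := by
  unfold chi
  have h1 : 1 ≤ (r + e + d) * (2 / d) := by
    rw [mul_div_assoc', le_div_iff₀ hd]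
    linarith
  rw [min_eq_left h1]
  exact max_eq_right zero_le_one

/-- one step of the descent -/
private def stp (F : Em m → Em m → ℝ) (g₁ g₂ : Em m → Em m → Em m) (τ e d : ℝ)
    (z : Em m × Em m) : Em m × Em m :=
  (z.1 - (τ * chi e d (F z.1 z.2)) • g₁ z.1 z.2, z.2 - (τ * chi e d (F z.1 z.2)) • g₂ z.1 z.2)

private theorem stp_cont {F : Em m → Em m → ℝ} {g₁ g₂ : Em m → Em m → Em m} (τ e d : ℝ)
    (hF : Continuous fun z : Em m × Em m => F z.1 z.2)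
    (h1 : Continuous fun z : Em m × Em m => g₁ z.1 z.2)
    (h2 : Continuous fun z : Em m × Em m => g₂ z.1 z.2) :
    Continuous (stp F g₁ g₂ τ e d) := by
  have h3 : Continuous fun z : Em m × Em m => τ * chi e d (F z.1 z.2) :=
    continuous_const.mul ((chi_cont e d).comp hF)
  exact (continuous_fst.sub (h3.smul h1)).prodMk (continuous_snd.sub (h3.smul h2))

private theorem stp_le {F : Em m → Em m → ℝ} {g₁ g₂ : Em m → Em m → Em m} {K τ e d : ℝ}
    (hK : 0 < K) (hτ : τ = 1 / (2 * K))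
    (hT : ∀ x P v w, F (x + v) (P + w) ≤ F x P + inner ℝ (g₁ x P) v + inner ℝ (g₂ x P) w +
      K * (‖v‖ ^ 2 + ‖w‖ ^ 2)) (z : Em m × Em m) :
    F (stp F g₁ g₂ τ e d z).1 (stp F g₁ g₂ τ e d z).2 ≤
      F z.1 z.2 - τ * chi e d (F z.1 z.2) / 2 * (‖g₁ z.1 z.2‖ ^ 2 + ‖g₂ z.1 z.2‖ ^ 2) := by
  have hτ0 : 0 < τ := by rw [hτ]; positivity
  have hτK : τ * K = 1 / 2 := by rw [hτ]; field_simp
  set c := τ * chi e d (F z.1 z.2) with hc
  have hc0 : 0 ≤ c := mul_nonneg hτ0.le (chi_nonneg _ _ _)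
  have hcK : c * K ≤ 1 / 2 := by
    calc c * K = chi e d (F z.1 z.2) * (τ * K) := by rw [hc]; ring
      _ ≤ 1 * (τ * K) := mul_le_mul_of_nonneg_right (chi_le _ _ _) (by rw [hτK]; norm_num)
      _ = 1 / 2 := by rw [hτK, one_mul]
  have h1 := hT z.1 z.2 (-(c • g₁ z.1 z.2)) (-(c • g₂ z.1 z.2))
  rw [← sub_eq_add_neg, ← sub_eq_add_neg, inner_neg_right, inner_neg_right,
    real_inner_smul_right, real_inner_smul_right, real_inner_self_eq_norm_sq,
    real_inner_self_eq_norm_sq, norm_neg, norm_neg, norm_smul, norm_smul, mul_pow, mul_pow,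
    Real.norm_eq_abs, sq_abs] at h1
  change F (z.1 - c • g₁ z.1 z.2) (z.2 - c • g₂ z.1 z.2) ≤ _
  have h2 : 0 ≤ ‖g₁ z.1 z.2‖ ^ 2 + ‖g₂ z.1 z.2‖ ^ 2 := by positivity
  have h3 : 0 ≤ (1 / 2 - c * K) * (c * (‖g₁ z.1 z.2‖ ^ 2 + ‖g₂ z.1 z.2‖ ^ 2)) :=
    mul_nonneg (by linarith) (mul_nonneg hc0 h2)
  nlinarith

private theorem stp_fix {F : Em m → Em m → ℝ} {g₁ g₂ : Em m → Em m → Em m} {τ e d : ℝ}
    (hd : 0 < d) {z : Em m × Em m} (hz : F z.1 z.2 ≤ -e - d) : stp F g₁ g₂ τ e d z = z := by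
  unfold stp
  rw [chi_zero hd hz, mul_zero, zero_smul, zero_smul, sub_zero, sub_zero]

private theorem stp_iter {F : Em m → Em m → ℝ} {g₁ g₂ : Em m → Em m → Em m} {K τ e d : ℝ}
    (hK : 0 < K) (hτ : τ = 1 / (2 * K)) (hd : 0 < d)
    (hT : ∀ x P v w, F (x + v) (P + w) ≤ F x P + inner ℝ (g₁ x P) v + inner ℝ (g₂ x P) w +
      K * (‖v‖ ^ 2 + ‖w‖ ^ 2))
    (hgap : ∀ x P, |F x P| ≤ e + d → d ≤ ‖g₁ x P‖ ^ 2 + ‖g₂ x P‖ ^ 2)
    {z : Em m × Em m} (hz : F z.1 z.2 ≤ e) (j : ℕ) :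
    F ((stp F g₁ g₂ τ e d)^[j] z).1 ((stp F g₁ g₂ τ e d)^[j] z).2 ≤ e - j * (τ * d / 2) ∨
      F ((stp F g₁ g₂ τ e d)^[j] z).1 ((stp F g₁ g₂ τ e d)^[j] z).2 ≤ -e - d / 2 := by
  have hτ0 : 0 < τ := by rw [hτ]; positivity
  induction j with
  | zero => left; simpa using hz
  | succ j ih =>
    rw [Function.iterate_succ_apply']
    generalize (stp F g₁ g₂ τ e d)^[j] z = y at ih
    have h1 := stp_le (e := e) (d := d) hK hτ hT y
    have h2 : 0 ≤ ‖g₁ y.1 y.2‖ ^ 2 + ‖g₂ y.1 y.2‖ ^ 2 := by positivity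
    have h3 : 0 ≤ τ * chi e d (F y.1 y.2) / 2 * (‖g₁ y.1 y.2‖ ^ 2 + ‖g₂ y.1 y.2‖ ^ 2) :=
      mul_nonneg (div_nonneg (mul_nonneg hτ0.le (chi_nonneg _ _ _)) (by norm_num)) h2
    rcases le_or_gt (F y.1 y.2) (-e - d / 2) with h | h
    · right; linarith
    · have h4 : F y.1 y.2 ≤ e - j * (τ * d / 2) := by
        rcases ih with ih | ih
        · exact ih
        · exact absurd ih (not_le.2 h)
      have h5 : 0 ≤ (j : ℝ) * (τ * d / 2) := by positivity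
      left
      have h6 : |F y.1 y.2| ≤ e + d := abs_le.2 ⟨by linarith, by linarith⟩
      have h7 := hgap _ _ h6
      rw [chi_one hd h.le] at h1
      have h8 : τ * d / 2 ≤ τ * 1 / 2 * (‖g₁ y.1 y.2‖ ^ 2 + ‖g₂ y.1 y.2‖ ^ 2) := by
        rw [mul_one]
        calc τ * d / 2 = τ / 2 * d := by ring
          _ ≤ _ := mul_le_mul_of_nonneg_left h7 (by positivity)
      push_cast
      linarith

/-- the cut-off of the starting map -/
private def lam (R : ℝ) (w : Em m) : ℝ := max 0 (min 1 (R - ‖w‖))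

private theorem lam_cont (R : ℝ) : Continuous (lam (m := m) R) := by
  unfold lam
  fun_prop

private def sta (R : ℝ) (w : Em m) : Em m × Em m := ((1 - lam R w) • w, -((1 + lam R w) • w))

private theorem sta_cont (R : ℝ) : Continuous (sta (m := m) R) := by
  have h := lam_cont (m := m) R
  exact ((continuous_const.sub h).smul continuous_id).prodMk
    ((continuous_const.add h).smul continuous_id).neg

private theorem sta_bdry {R : ℝ} {w : Em m} (hw : ‖w‖ = R) : sta R w = (w, -w) := by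
  have h : lam R w = 0 := by
    unfold lam
    rw [hw, sub_self]
    exact max_eq_left (min_le_right _ _)
  unfold sta
  rw [h, sub_zero, add_zero, one_smul]

private theorem sta_le (h0 : ∀ P, |B 0 P| ≤ e) (hL : ∀ x P, |B x P - B 0 P| ≤ C * ‖x‖)
    {R : ℝ} (hR : C ≤ R - 1) (hC : 0 ≤ C) {w : Em m} (hw : ‖w‖ ≤ R) :
    inner ℝ (sta R w).1 (sta R w).2 + B (sta R w).1 (sta R w).2 ≤ e := by
  set l := lam R w with hl
  have hl0 : 0 ≤ l := le_max_left _ _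
  have hl1 : l ≤ 1 := max_le zero_le_one (min_le_left _ _)
  change inner ℝ ((1 - l) • w) (-((1 + l) • w)) + B ((1 - l) • w) (-((1 + l) • w)) ≤ e
  have h1 := hL ((1 - l) • w) (-((1 + l) • w))
  have h2 := h0 (-((1 + l) • w))
  rw [norm_smul, Real.norm_eq_abs, abs_of_nonneg (by linarith : 0 ≤ 1 - l)] at h1
  have h3 := le_of_abs_le h1
  have h4 := le_of_abs_le h2
  rw [inner_neg_right, real_inner_smul_left, real_inner_smul_right, real_inner_self_eq_norm_sq]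
  have h5 : (1 - l) * (‖w‖ * (C - (1 + l) * ‖w‖)) ≤ 0 := by
    by_cases h6 : ‖w‖ ≤ R - 1
    · have h7 : l = 1 := by
        rw [hl]
        unfold lam
        rw [min_eq_left (by linarith)]
        exact max_eq_right zero_le_one
      rw [h7, sub_self, zero_mul]
    · have h7 : C ≤ (1 + l) * ‖w‖ := by nlinarith [norm_nonneg w]
      exact mul_nonpos_of_nonneg_of_nonpos (by linarith)
        (mul_nonpos_of_nonneg_of_nonpos (norm_nonneg _) (by linarith))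
  nlinarith

end lemmas

theorem minimax {m : ℕ} (B : EuclideanSpace ℝ (Fin m) → EuclideanSpace ℝ (Fin m) → ℝ)
    (bx bP : EuclideanSpace ℝ (Fin m) → EuclideanSpace ℝ (Fin m) → EuclideanSpace ℝ (Fin m))
    (L C e : ℝ)
    (hT : ∀ x P v w, |B (x + v) (P + w) - B x P - inner ℝ (bx x P) v - inner ℝ (bP x P) w| ≤
      L * (‖v‖ ^ 2 + ‖w‖ ^ 2))
    (hc : Continuous fun z : EuclideanSpace ℝ (Fin m) × EuclideanSpace ℝ (Fin m) => bx z.1 z.2)
    (hc' : Continuous fun z : EuclideanSpace ℝ (Fin m) × EuclideanSpace ℝ (Fin m) => bP z.1 z.2)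
    (hb : ∀ x P, ‖bx x P‖ ≤ C ∧ ‖bP x P‖ ≤ C) (h0 : ∀ P, |B 0 P| ≤ e) :
    ∃ x P, P + bx x P = 0 ∧ x + bP x P = 0 ∧ |inner ℝ x P + B x P| ≤ e := by
  by_contra hno
  push Not at hno
  have hC : 0 ≤ C := (norm_nonneg _).trans (hb 0 0).1
  have he : 0 ≤ e := (abs_nonneg _).trans (h0 0)
  have hBc := mini_cont hT hb
  have hLip := mini_lip hT hb
  set F : Em m → Em m → ℝ := fun x P => inner ℝ x P + B x P with hF
  set g₁ : Em m → Em m → Em m := fun x P => P + bx x P with hg₁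
  set g₂ : Em m → Em m → Em m := fun x P => x + bP x P with hg₂
  have hFc : Continuous fun z : Em m × Em m => F z.1 z.2 :=
    (continuous_fst.inner continuous_snd).add hBc
  have h1c : Continuous fun z : Em m × Em m => g₁ z.1 z.2 := continuous_snd.add hc
  have h2c : Continuous fun z : Em m × Em m => g₂ z.1 z.2 := continuous_fst.add hc'
  have hgn : ∀ x P, ‖P‖ - C ≤ ‖g₁ x P‖ ∧ ‖x‖ - C ≤ ‖g₂ x P‖ := by
    intro x P
    have h1 : ‖P‖ - ‖bx x P‖ ≤ ‖P + bx x P‖ := by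
      have := norm_sub_norm_le P (-(bx x P))
      rwa [norm_neg, sub_neg_eq_add] at this
    have h2 : ‖x‖ - ‖bP x P‖ ≤ ‖x + bP x P‖ := by
      have := norm_sub_norm_le x (-(bP x P))
      rwa [norm_neg, sub_neg_eq_add] at this
    exact ⟨by linarith [(hb x P).1], by linarith [(hb x P).2]⟩
  obtain ⟨d, hd, hd1, hgap⟩ := mini_gap (F := F) (g₁ := g₁) (g₂ := g₂) (e := e) hC hFc h1c h2c hgn
    hno
  set K : ℝ := 1 / 2 + max L 0 with hK
  have hK0 : 0 < K := by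
    have : 0 ≤ max L 0 := le_max_right _ _
    linarith
  have hTF : ∀ x P v w, F (x + v) (P + w) ≤ F x P + inner ℝ (g₁ x P) v + inner ℝ (g₂ x P) w +
      K * (‖v‖ ^ 2 + ‖w‖ ^ 2) := by
    intro x P v w
    have h1 := le_of_abs_le (hT x P v w)
    have h2 : inner ℝ (x + v) (P + w) = inner ℝ x P + inner ℝ P v + inner ℝ x w +
        inner ℝ v w := by
      rw [inner_add_left, inner_add_right, inner_add_right, real_inner_comm P v]
      ring
    have h3 : inner ℝ v w ≤ 1 / 2 * (‖v‖ ^ 2 + ‖w‖ ^ 2) := by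
      have h4 := real_inner_le_norm v w
      nlinarith [sq_nonneg (‖v‖ - ‖w‖)]
    have h4 : L * (‖v‖ ^ 2 + ‖w‖ ^ 2) ≤ max L 0 * (‖v‖ ^ 2 + ‖w‖ ^ 2) :=
      mul_le_mul_of_nonneg_right (le_max_left _ _) (by positivity)
    have h5 : K * (‖v‖ ^ 2 + ‖w‖ ^ 2) = 1 / 2 * (‖v‖ ^ 2 + ‖w‖ ^ 2) +
        max L 0 * (‖v‖ ^ 2 + ‖w‖ ^ 2) := by rw [hK]; ring
    change inner ℝ (x + v) (P + w) + B (x + v) (P + w) ≤ inner ℝ x P + B x P +
      inner ℝ (P + bx x P) v + inner ℝ (x + bP x P) w + K * (‖v‖ ^ 2 + ‖w‖ ^ 2)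
    rw [h2, h5, inner_add_left, inner_add_left]
    linarith
  set τ : ℝ := 1 / (2 * K) with hτ
  have hτ0 : 0 < τ := by positivity
  set R : ℝ := C + 2 * e + 3 with hR
  obtain ⟨M, hM⟩ := exists_nat_gt (2 * e / (τ * d / 2))
  have hM' : 2 * e < M * (τ * d / 2) := (div_lt_iff₀ (by positivity)).1 hM
  have hcont : Continuous fun w : Em m => ((stp F g₁ g₂ τ e d)^[M] (sta R w)).1 :=
    continuous_fst.comp (((stp_cont τ e d hFc h1c h2c).iterate M).comp (sta_cont R))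
  obtain ⟨w, hw, hw0⟩ := exists_zero (by linarith : 0 < R) hcont (by
    intro w hw
    have h1 : F w (-w) ≤ -e - d := by
      have h2 := le_of_abs_le (hLip w (-w))
      have h3 := le_of_abs_le (h0 (-w))
      change inner ℝ w (-w) + B w (-w) ≤ -e - d
      rw [inner_neg_right, real_inner_self_eq_norm_sq]
      rw [hw] at h2 ⊢
      have h4 : R ^ 2 = R * C + R * (2 * e + 3) := by rw [hR]; ring
      have h5 : 1 * (2 * e + 3) ≤ R * (2 * e + 3) :=
        mul_le_mul_of_nonneg_right (by linarith) (by linarith)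
      nlinarith
    have h2 : (stp F g₁ g₂ τ e d)^[M] (w, -w) = (w, -w) :=
      Function.iterate_fixed (stp_fix hd h1) M
    change ((stp F g₁ g₂ τ e d)^[M] (sta R w)).1 = w
    rw [sta_bdry hw, h2])
  have h1 : F (sta R w).1 (sta R w).2 ≤ e := sta_le h0 hLip (by linarith) hC hw
  have h2 := stp_iter hK0 hτ hd hTF hgap h1 M
  have h3 : -e ≤ F ((stp F g₁ g₂ τ e d)^[M] (sta R w)).1
      ((stp F g₁ g₂ τ e d)^[M] (sta R w)).2 := by
    change -e ≤ inner ℝ ((stp F g₁ g₂ τ e d)^[M] (sta R w)).1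
      ((stp F g₁ g₂ τ e d)^[M] (sta R w)).2 + B ((stp F g₁ g₂ τ e d)^[M] (sta R w)).1
      ((stp F g₁ g₂ τ e d)^[M] (sta R w)).2
    have h4 : ((stp F g₁ g₂ τ e d)^[M] (sta R w)).1 = 0 := hw0
    rw [h4, inner_zero_left, zero_add]
    exact neg_le_of_abs_le (h0 _)
  rcases h2 with h2 | h2 <;> linarith

end

end TH
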