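import Mathlib
import Pool.Agent.TH.Defs
import Pool.Agent.TH.Mini
import Pool.Agent.TH.Bnd

/-!
# Critical points of the discrete action
-/

set_option autoImplicit false

open MeasureTheory Set Pool.Agent.H68.VD
open scoped ENNReal ContDiff

namespace TH

noncomputable section

private theorem dis_inner {n : ℕ} (x y : EuclideanSpace ℝ (Fin n)) :
    inner ℝ x y = ∑ i, x i * y i := by
  rw [PiLp.inner_apply]
  exact Finset.sum_congr rfl fun i _ => by simp [mul_comm]

private theorem dis_norm {n : ℕ} {C : ℝ} (hn : 0 < n) (x : EuclideanSpace ℝ (Fin n))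
    (h : ∀ i, |x i| ≤ C) : ‖x‖ ≤ n * C := by
  have hC : 0 ≤ C := (abs_nonneg _).trans (h ⟨0, hn⟩)
  have hn1 : (1 : ℝ) ≤ n := by exact_mod_cast hn
  refine abs_le_of_sq_le_sq' ?_ (by positivity) |>.2
  rw [EuclideanSpace.norm_sq_eq]
  calc ∑ i, ‖x i‖ ^ 2 ≤ ∑ _i : Fin n, C ^ 2 := by
        refine Finset.sum_le_sum fun i _ => ?_
        rw [Real.norm_eq_abs]
        exact pow_le_pow_left₀ (abs_nonneg _) (h i) 2
    _ = n * C ^ 2 := by simp
    _ ≤ (n * C) ^ 2 := by
        rw [mul_pow]
        refine mul_le_mul_of_nonneg_right ?_ (sq_nonneg C)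
        nlinarith

private theorem dis_pt0 (q p : ℝ) : pt q p 0 = q := by simp [pt]

private theorem dis_pt1 (q p : ℝ) : pt q p 1 = p := by simp [pt]

private theorem dis_ptadd (q p q' p' : ℝ) : pt (q + q') (p + p') = pt q p + pt q' p' := by
  ext i
  fin_cases i <;> simp [pt]

private theorem dis_ptnorm (q p : ℝ) : ‖pt q p‖ ^ 2 = q ^ 2 + p ^ 2 := by
  rw [EuclideanSpace.norm_sq_eq]
  simp [pt, Fin.sum_univ_two]

private theorem dis_ptcont : Continuous fun z : ℝ × ℝ => pt z.1 z.2 := by
  unfold pt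
  refine (PiLp.continuous_toLp 2 _).comp (continuous_pi fun i => ?_)
  fin_cases i
  · simpa using continuous_fst
  · simpa using continuous_snd

private theorem dis_comp (x : Eu 2) (i : Fin 2) : |x i| ≤ ‖x‖ := by
  have := PiLp.norm_apply_le x i
  simpa using this

/-- the momentum -/
private def dpp {n : ℕ} (y : ℝ) (P : EuclideanSpace ℝ (Fin n)) (k : ℕ) : ℝ :=
  y - ∑ j : Fin n, if k ≤ (j : ℕ) then P j else 0

private def dz {n : ℕ} (a y : ℝ) (x P : EuclideanSpace ℝ (Fin n)) (i : Fin n) : Eu 2 :=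
  pt (a + x i) (dpp y P i)

private theorem dz_add {n : ℕ} (a y : ℝ) (x P v w : EuclideanSpace ℝ (Fin n)) (i : Fin n) :
    dz a y (x + v) (P + w) i = dz a y x P i +
      pt (v i) (-∑ j : Fin n, if (i : ℕ) ≤ (j : ℕ) then w j else 0) := by
  unfold dz
  rw [← dis_ptadd]
  congr 1
  · simp [add_assoc]
  · unfold dpp
    have : ∑ j : Fin n, (if (i : ℕ) ≤ (j : ℕ) then (P + w) j else 0) =
        (∑ j : Fin n, if (i : ℕ) ≤ (j : ℕ) then P j else 0) +
          ∑ j : Fin n, if (i : ℕ) ≤ (j : ℕ) then w j else 0 := by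
      rw [← Finset.sum_add_distrib]
      refine Finset.sum_congr rfl fun j _ => ?_
      split_ifs
      · simp
      · simp
    rw [this]
    ring

private theorem dz_cont {n : ℕ} (a y : ℝ) (i : Fin n) :
    Continuous fun z : EuclideanSpace ℝ (Fin n) × EuclideanSpace ℝ (Fin n) => dz a y z.1 z.2 i := by
  unfold dz dpp
  refine dis_ptcont.comp (Continuous.prodMk ?_ ?_)
  · fun_prop
  · refine continuous_const.sub (continuous_finsetSum _ fun j _ => ?_)
    split_ifs
    · fun_prop
    · exact continuous_const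

private theorem dis_cs {n : ℕ} (i : ℕ) (w : EuclideanSpace ℝ (Fin n)) :
    (∑ j : Fin n, if i ≤ (j : ℕ) then w j else 0) ^ 2 ≤ n * ‖w‖ ^ 2 := by
  have h1 := sq_sum_le_card_mul_sum_sq (s := (Finset.univ : Finset (Fin n)))
    (f := fun j : Fin n => if i ≤ (j : ℕ) then w j else 0)
  refine h1.trans ?_
  rw [EuclideanSpace.norm_sq_eq, Finset.card_univ, Fintype.card_fin]
  refine mul_le_mul_of_nonneg_left (Finset.sum_le_sum fun j _ => ?_) (by positivity)
  split_ifs
  · simp
  · simp only [ne_eq, OfNat.ofNat_ne_zero, not_false_eq_true, zero_pow]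
    positivity

theorem discrete {u : ℝ → Eu 2 → Eu 2} {H : ℝ → Eu 2 → ℝ} {φ : ℝ → Eu 2 → Eu 2} (h : HFl u H φ)
    (a y : ℝ) (g : ℝ → ℝ) (hg : ∀ t ∈ Icc (0 : ℝ) 1, ∀ r, |H t (pt a r)| ≤ g t) (n : ℕ) (hn : 0 < n) :
    ∃ Q p : ℕ → ℝ, Orb u n Q p ∧ Q 0 = a ∧ p n = y ∧
      |∑ i ∈ Finset.range n, 1 / n * agr u H a (i / n) (pt (Q (i + 1)) (p i))| ≤
        ∑ i ∈ Finset.range n, 1 / n * g (i / n) := by
  obtain ⟨L, hL0, hLu, -, -, hLT⟩ := h.bnd
  have hn0 : (0 : ℝ) < n := by exact_mod_cast hn
  have hn1 : (1 : ℝ) ≤ n := by exact_mod_cast hn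
  have ht : ∀ i : Fin n, ((i : ℕ) : ℝ) / n ∈ Icc (0 : ℝ) 1 := by
    intro i
    refine ⟨by positivity, ?_⟩
    rw [div_le_one hn0]
    exact_mod_cast i.2.le
  set D : ℝ := 1 / n with hD
  have hD0 : 0 ≤ D := by positivity
  have hnD : n * D = 1 := by rw [hD]; field_simp
  have hD1 : D ≤ 1 := by
    rw [hD, div_le_one hn0]
    exact hn1
  have huc : ∀ t, Continuous (u t) := fun t =>
    h.us.continuous.comp (Continuous.prodMk continuous_const continuous_id)
  have key : ∃ x P : EuclideanSpace ℝ (Fin n),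
      P + (WithLp.toLp 2 fun i : Fin n => -(D * u ((i : ℕ) / n) (dz a y x P i) 1)) = 0 ∧
      x + (WithLp.toLp 2 fun j : Fin n => -∑ i : Fin n,
        if (i : ℕ) ≤ (j : ℕ) then D * u ((i : ℕ) / n) (dz a y x P i) 0 else 0) = 0 ∧
      |inner ℝ x P + ∑ i : Fin n, D * H ((i : ℕ) / n) (dz a y x P i)| ≤
        ∑ i : Fin n, D * g ((i : ℕ) / n) := by
    refine minimax (m := n)
      (fun x P => ∑ i : Fin n, D * H ((i : ℕ) / n) (dz a y x P i))
      (fun x P => WithLp.toLp 2 fun i : Fin n => -(D * u ((i : ℕ) / n) (dz a y x P i) 1))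
      (fun x P => WithLp.toLp 2 fun j : Fin n => -∑ i : Fin n,
        if (i : ℕ) ≤ (j : ℕ) then D * u ((i : ℕ) / n) (dz a y x P i) 0 else 0)
      (L * n) (n * L) (∑ i : Fin n, D * g ((i : ℕ) / n)) ?_ ?_ ?_ ?_ ?_
    · -- the Taylor bound
      intro x P v w
      have e1 : (∑ i : Fin n, D * H ((i : ℕ) / n) (dz a y (x + v) (P + w) i)) -
          (∑ i : Fin n, D * H ((i : ℕ) / n) (dz a y x P i)) -
          inner ℝ (WithLp.toLp 2 fun i : Fin n => -(D * u ((i : ℕ) / n) (dz a y x P i) 1) :
            EuclideanSpace ℝ (Fin n)) v -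
          inner ℝ (WithLp.toLp 2 fun j : Fin n => -∑ i : Fin n,
            if (i : ℕ) ≤ (j : ℕ) then D * u ((i : ℕ) / n) (dz a y x P i) 0 else 0 :
            EuclideanSpace ℝ (Fin n)) w =
          ∑ i : Fin n, D * (H ((i : ℕ) / n) (dz a y x P i +
            pt (v i) (-∑ j : Fin n, if (i : ℕ) ≤ (j : ℕ) then w j else 0)) -
            H ((i : ℕ) / n) (dz a y x P i) -
            (u ((i : ℕ) / n) (dz a y x P i) 0 *
              (pt (v i) (-∑ j : Fin n, if (i : ℕ) ≤ (j : ℕ) then w j else 0)) 1 -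
             u ((i : ℕ) / n) (dz a y x P i) 1 *
              (pt (v i) (-∑ j : Fin n, if (i : ℕ) ≤ (j : ℕ) then w j else 0)) 0)) := by
        rw [dis_inner, dis_inner]
        have e2 : ∑ j : Fin n, (WithLp.toLp 2 fun j : Fin n => -∑ i : Fin n,
            if (i : ℕ) ≤ (j : ℕ) then D * u ((i : ℕ) / n) (dz a y x P i) 0 else 0 :
            EuclideanSpace ℝ (Fin n)) j * w j =
            ∑ i : Fin n, -(D * u ((i : ℕ) / n) (dz a y x P i) 0 *
              ∑ j : Fin n, if (i : ℕ) ≤ (j : ℕ) then w j else 0) := by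
          simp only [neg_mul, Finset.sum_mul, Finset.mul_sum, Finset.sum_neg_distrib]
          rw [Finset.sum_comm]
          congr 1
          refine Finset.sum_congr rfl fun i _ => Finset.sum_congr rfl fun j _ => ?_
          split_ifs
          · rfl
          · ring
        rw [e2, ← Finset.sum_sub_distrib, ← Finset.sum_sub_distrib, ← Finset.sum_sub_distrib]
        refine Finset.sum_congr rfl fun i _ => ?_
        rw [dz_add, dis_pt0, dis_pt1]
        simp only
        ring
      rw [e1]
      refine (Finset.abs_sum_le_sum_abs _ _).trans ?_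
      calc ∑ i : Fin n, |D * (H ((i : ℕ) / n) (dz a y x P i +
            pt (v i) (-∑ j : Fin n, if (i : ℕ) ≤ (j : ℕ) then w j else 0)) -
            H ((i : ℕ) / n) (dz a y x P i) -
            (u ((i : ℕ) / n) (dz a y x P i) 0 *
              (pt (v i) (-∑ j : Fin n, if (i : ℕ) ≤ (j : ℕ) then w j else 0)) 1 -
             u ((i : ℕ) / n) (dz a y x P i) 1 *
              (pt (v i) (-∑ j : Fin n, if (i : ℕ) ≤ (j : ℕ) then w j else 0)) 0))|
          ≤ ∑ i : Fin n, D * (L * (n * (‖v‖ ^ 2 + ‖w‖ ^ 2))) := by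
            refine Finset.sum_le_sum fun i _ => ?_
            rw [abs_mul, abs_of_nonneg hD0]
            refine mul_le_mul_of_nonneg_left ?_ hD0
            refine (hLT _ (ht i) _ _).trans ?_
            refine mul_le_mul_of_nonneg_left ?_ hL0
            rw [dis_ptnorm, neg_sq]
            have h1 := dis_cs (n := n) i w
            have h2 : v i ^ 2 ≤ ‖v‖ ^ 2 := by
              have := PiLp.norm_apply_le v i
              rw [Real.norm_eq_abs] at this
              rw [← sq_abs]
              exact pow_le_pow_left₀ (abs_nonneg _) this 2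
            have h3 : 0 ≤ ‖v‖ ^ 2 := by positivity
            nlinarith
        _ = L * n * (‖v‖ ^ 2 + ‖w‖ ^ 2) := by
            rw [Finset.sum_const, Finset.card_univ, Fintype.card_fin, nsmul_eq_mul]
            calc (n : ℝ) * (D * (L * (n * (‖v‖ ^ 2 + ‖w‖ ^ 2)))) =
                (n * D) * (L * n * (‖v‖ ^ 2 + ‖w‖ ^ 2)) := by ring
              _ = _ := by rw [hnD, one_mul]
    · refine (PiLp.continuous_toLp 2 _).comp (continuous_pi fun i => ?_)
      have := (huc ((i : ℕ) / n)).comp (dz_cont a y i)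
      have h1 : Continuous fun z : EuclideanSpace ℝ (Fin n) × EuclideanSpace ℝ (Fin n) =>
          (u ((i : ℕ) / n) (dz a y z.1 z.2 i)) 1 :=
        (EuclideanSpace.proj (𝕜 := ℝ) (1 : Fin 2)).continuous.comp this
      exact (continuous_const.mul h1).neg
    · refine (PiLp.continuous_toLp 2 _).comp (continuous_pi fun j => ?_)
      refine (continuous_finsetSum _ fun i _ => ?_).neg
      split_ifs
      · have := (huc ((i : ℕ) / n)).comp (dz_cont a y i)
        have h1 : Continuous fun z : EuclideanSpace ℝ (Fin n) × EuclideanSpace ℝ (Fin n) =>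
            (u ((i : ℕ) / n) (dz a y z.1 z.2 i)) 0 :=
          (EuclideanSpace.proj (𝕜 := ℝ) (0 : Fin 2)).continuous.comp this
        exact continuous_const.mul h1
      · exact continuous_const
    · intro x P
      have hu : ∀ (i : Fin n) (k : Fin 2), |u ((i : ℕ) / n) (dz a y x P i) k| ≤ L := fun i k =>
        (dis_comp _ k).trans (hLu _ (ht i) _)
      refine ⟨dis_norm hn _ fun i => ?_, dis_norm hn _ fun j => ?_⟩
      · simp only
        rw [abs_neg, abs_mul, abs_of_nonneg hD0]
        calc D * |u ((i : ℕ) / n) (dz a y x P i) 1| ≤ 1 * L :=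
              mul_le_mul hD1 (hu i 1) (abs_nonneg _) zero_le_one
          _ = L := one_mul L
      · simp only
        rw [abs_neg]
        refine (Finset.abs_sum_le_sum_abs _ _).trans ?_
        calc ∑ i : Fin n, |if (i : ℕ) ≤ (j : ℕ) then D * u ((i : ℕ) / n) (dz a y x P i) 0 else 0|
            ≤ ∑ _i : Fin n, D * L := by
              refine Finset.sum_le_sum fun i _ => ?_
              split_ifs
              · rw [abs_mul, abs_of_nonneg hD0]
                exact mul_le_mul_of_nonneg_left (hu i 0) hD0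
              · rw [abs_zero]
                positivity
          _ = L := by
              rw [Finset.sum_const, Finset.card_univ, Fintype.card_fin, nsmul_eq_mul, ← mul_assoc,
                hnD, one_mul]
    · intro P
      refine (Finset.abs_sum_le_sum_abs _ _).trans (Finset.sum_le_sum fun i _ => ?_)
      rw [abs_mul, abs_of_nonneg hD0]
      refine mul_le_mul_of_nonneg_left ?_ hD0
      have h1 : dz a y (0 : EuclideanSpace ℝ (Fin n)) P i = pt a (dpp y P i) := by
        unfold dz
        simp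
      rw [h1]
      exact hg _ (ht i) _
  obtain ⟨x, P, hx, hP, hxP⟩ := key
  -- the orbit
  have hPi : ∀ i : Fin n, P i = D * u ((i : ℕ) / n) (dz a y x P i) 1 := by
    intro i
    have := congrArg (fun z : EuclideanSpace ℝ (Fin n) => z i) hx
    simp only [PiLp.add_apply, PiLp.zero_apply] at this
    linarith
  have hxj : ∀ j : Fin n, x j = ∑ i : Fin n,
      if (i : ℕ) ≤ (j : ℕ) then D * u ((i : ℕ) / n) (dz a y x P i) 0 else 0 := by
    intro j
    have := congrArg (fun z : EuclideanSpace ℝ (Fin n) => z j) hP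
    simp only [PiLp.add_apply, PiLp.zero_apply] at this
    linarith
  set Q : ℕ → ℝ := fun k => a + ∑ i : Fin n,
    if (i : ℕ) < k then D * u ((i : ℕ) / n) (dz a y x P i) 0 else 0 with hQd
  have hQx : ∀ i : Fin n, Q (i + 1) = a + x i := by
    intro i
    rw [hQd, hxj i]
    simp only [Nat.lt_succ_iff]
  have hz : ∀ i : Fin n, pt (Q (i + 1)) (dpp y P i) = dz a y x P i := by
    intro i
    rw [hQx]
    rfl
  refine ⟨Q, dpp y P, ⟨?_, ?_⟩, ?_, ?_, ?_⟩
  · intro i hi
    have h1 := hz ⟨i, hi⟩
    simp only at h1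
    rw [h1, hQd]
    simp only
    rw [add_assoc]
    congr 1
    have : D * u ((i : ℕ) / n) (dz a y x P ⟨i, hi⟩) 0 = ∑ k : Fin n, if (k : ℕ) = i then
        D * u ((k : ℕ) / n) (dz a y x P k) 0 else 0 := by
      rw [Finset.sum_eq_single (⟨i, hi⟩ : Fin n)]
      · simp
      · intro b _ hb
        rw [if_neg]
        intro hbi
        exact hb (Fin.ext hbi)
      · simp
    rw [this, ← Finset.sum_add_distrib]
    refine Finset.sum_congr rfl fun k _ => ?_
    rcases lt_trichotomy (k : ℕ) i with hk | hk | hk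
    · rw [if_pos (by omega), if_pos hk, if_neg (by omega), add_zero]
    · rw [if_pos (by omega), if_neg (by omega), if_pos hk, zero_add]
    · rw [if_neg (by omega), if_neg (by omega), if_neg (by omega), add_zero]
  · intro i hi
    have h1 := hz ⟨i, hi⟩
    simp only at h1
    rw [h1]
    have h2 := hPi ⟨i, hi⟩
    simp only at h2
    rw [← h2]
    unfold dpp
    have : P ⟨i, hi⟩ = ∑ k : Fin n, if (k : ℕ) = i then P k else 0 := by
      rw [Finset.sum_eq_single (⟨i, hi⟩ : Fin n)]
      · simp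
      · intro b _ hb
        rw [if_neg]
        intro hbi
        exact hb (Fin.ext hbi)
      · simp
    have h3 : (∑ j : Fin n, if i ≤ (j : ℕ) then P j else 0) =
        (∑ j : Fin n, if i + 1 ≤ (j : ℕ) then P j else 0) +
          ∑ k : Fin n, if (k : ℕ) = i then P k else 0 := by
      rw [← Finset.sum_add_distrib]
      refine Finset.sum_congr rfl fun k _ => ?_
      rcases lt_trichotomy (k : ℕ) i with hk | hk | hk
      · rw [if_neg (by omega), if_neg (by omega), if_neg (by omega), add_zero]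
      · rw [if_pos (by omega), if_neg (by omega), if_pos hk, zero_add]
      · rw [if_pos (by omega), if_pos (by omega), if_neg (by omega), add_zero]
    rw [this, h3]
    ring
  · rw [hQd]
    simp
  · unfold dpp
    rw [Finset.sum_eq_zero, sub_zero]
    intro j _
    rw [if_neg (by have := j.2; omega)]
  · rw [Finset.sum_range, Finset.sum_range]
    have h4 : ∑ i : Fin n, 1 / n * agr u H a ((i : ℕ) / n) (pt (Q (i + 1)) (dpp y P i)) =
        inner ℝ x P + ∑ i : Fin n, D * H ((i : ℕ) / n) (dz a y x P i) := by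
      rw [dis_inner, ← Finset.sum_add_distrib]
      refine Finset.sum_congr rfl fun i _ => ?_
      rw [hz i, agr]
      have h5 : dz a y x P i 0 = a + x i := dis_pt0 _ _
      rw [h5, hPi i]
      ring
    rw [h4]
    exact hxP

end

end TH
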