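import Pool.Agent.TH.Defs
import Pool.Agent.H68.VD.Wsp

/-!
# TH-22: the Slobodeckij norm of a mollified function
-/

set_option autoImplicit false

open MeasureTheory Set Pool.Agent.H68.VD
open scoped ENNReal ContDiff Pointwise

namespace TH

noncomputable section

/-- translation invariance of the integral of a periodic function -/
private theorem tst_trans {n : ℕ} (f : Eu n → ℝ≥0∞) (hf : Per f) (a : Eu n) :
    ∫⁻ x in cube n, f (x + a) = ∫⁻ x in cube n, f x := by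
  have hd : IsAddFundamentalDomain (Submodule.span ℤ (Set.range (WspA.bs n))) (cube n)
      (volume : Measure (Eu n)) := by
    rw [WspA.cube_eq]; exact ZSpan.isAddFundamentalDomain _ _
  have : VAddInvariantMeasure (Submodule.span ℤ (Set.range (WspA.bs n))) (Eu n) volume :=
    inferInstanceAs <| VAddInvariantMeasure
      (Submodule.span ℤ (Set.range (WspA.bs n))).toAddSubgroup (Eu n) volume
  have hd2 : IsAddFundamentalDomain (Submodule.span ℤ (Set.range (WspA.bs n))) (a +ᵥ cube n)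
      (volume : Measure (Eu n)) := by
    exact hd.vadd_of_comm a
  have hper : ∀ (g : Submodule.span ℤ (Set.range (WspA.bs n))) (x : Eu n),
      f (g +ᵥ x) = f x := by
    intro g x
    obtain ⟨k, hk⟩ := WspA.span_iv g
    have : g +ᵥ x = x + iv k := by
      rw [← hk, add_comm]; rfl
    rw [this]; exact hf x k
  have h := hd.setLIntegral_eq hd2 f hper
  rw [h]
  have h2 : (a +ᵥ cube n) = (fun x => x + a) '' cube n := by
    ext y
    simp only [Set.mem_vadd_set, Set.mem_image, vadd_eq_add]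
    constructor
    · rintro ⟨x, hx, rfl⟩; exact ⟨x, hx, add_comm _ _⟩
    · rintro ⟨x, hx, rfl⟩; exact ⟨x, hx, add_comm _ _⟩
  rw [h2]
  exact (measurePreserving_add_right volume a).setLIntegral_comp_emb
    (measurableEmbedding_addRight a) f (cube n)

/-- Minkowski's inequality for convolutions -/
private theorem tst_mink {q : ℝ} (hq : 1 < q) {θ : Eu 2 → ℝ} (hθ : Continuous θ) (hp : Per θ)
    {Φ : Eu 2 → Eu 2} (hΦ : Continuous Φ) (l : ℝ) :
    ∫⁻ z in cube 2, (∫⁻ w, ‖θ (z + l⁻¹ • w)‖ₑ * ‖Φ w‖ₑ) ^ q ≤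
      (∫⁻ w, ‖Φ w‖ₑ) ^ q * ∫⁻ x in cube 2, ‖θ x‖ₑ ^ q := by
  have hq0 : 0 < q := by linarith
  have hq1 : 0 < q - 1 := by linarith
  obtain ⟨q', hq'⟩ : ∃ q', q' = Real.conjExponent q := ⟨_, rfl⟩
  have hconj : q.HolderConjugate q' := by rw [hq']; exact Real.HolderConjugate.conjExponent hq
  have hq'0 : 0 < q' := hconj.symm.pos
  have hsum : 1 / q + 1 / q' = 1 := by
    have := hconj.inv_add_inv_eq_one
    simpa [one_div] using this
  have hm1 : Measurable (fun w => ‖Φ w‖ₑ) := hΦ.measurable.enorm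
  have hm2 : Measurable (fun p : Eu 2 × Eu 2 => ‖θ (p.1 + l⁻¹ • p.2)‖ₑ) := by
    have : Continuous (fun p : Eu 2 × Eu 2 => θ (p.1 + l⁻¹ • p.2)) := by fun_prop
    exact this.measurable.enorm
  have h1 : ∀ z, (∫⁻ w, ‖θ (z + l⁻¹ • w)‖ₑ * ‖Φ w‖ₑ) ^ q ≤
      (∫⁻ w, ‖θ (z + l⁻¹ • w)‖ₑ ^ q * ‖Φ w‖ₑ) * (∫⁻ w, ‖Φ w‖ₑ) ^ (q - 1) := by
    intro z
    have hmz : Measurable (fun w => ‖θ (z + l⁻¹ • w)‖ₑ) := hm2.comp measurable_prodMk_left
    have hH := ENNReal.lintegral_mul_le_Lp_mul_Lq (volume : Measure (Eu 2)) hconj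
      (f := fun w => ‖θ (z + l⁻¹ • w)‖ₑ * ‖Φ w‖ₑ ^ (1 / q)) (g := fun w => ‖Φ w‖ₑ ^ (1 / q'))
      (hmz.mul (hm1.pow_const _)).aemeasurable (hm1.pow_const _).aemeasurable
    have e1 : (fun w => ‖θ (z + l⁻¹ • w)‖ₑ * ‖Φ w‖ₑ ^ (1 / q)) * (fun w => ‖Φ w‖ₑ ^ (1 / q')) =
        fun w => ‖θ (z + l⁻¹ • w)‖ₑ * ‖Φ w‖ₑ := by
      funext w
      simp only [Pi.mul_apply]
      rw [mul_assoc, ← ENNReal.rpow_add_of_nonneg _ _ (by positivity) (by positivity), hsum,
        ENNReal.rpow_one]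
    have e2 : ∀ w, (‖θ (z + l⁻¹ • w)‖ₑ * ‖Φ w‖ₑ ^ (1 / q)) ^ q =
        ‖θ (z + l⁻¹ • w)‖ₑ ^ q * ‖Φ w‖ₑ := by
      intro w
      rw [ENNReal.mul_rpow_of_nonneg _ _ hq0.le, ← ENNReal.rpow_mul, one_div_mul_cancel hq0.ne',
        ENNReal.rpow_one]
    have e3 : ∀ w, (‖Φ w‖ₑ ^ (1 / q')) ^ q' = ‖Φ w‖ₑ := by
      intro w
      rw [← ENNReal.rpow_mul, one_div_mul_cancel hq'0.ne', ENNReal.rpow_one]
    rw [e1] at hH
    simp only [e2, e3] at hH
    have h2 := ENNReal.rpow_le_rpow hH hq0.le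
    refine h2.trans (le_of_eq ?_)
    rw [ENNReal.mul_rpow_of_nonneg _ _ hq0.le, ← ENNReal.rpow_mul, one_div_mul_cancel hq0.ne',
      ENNReal.rpow_one, ← ENNReal.rpow_mul]
    congr 2
    have : 1 / q' = 1 - 1 / q := by linarith
    rw [this]
    field_simp
  calc ∫⁻ z in cube 2, (∫⁻ w, ‖θ (z + l⁻¹ • w)‖ₑ * ‖Φ w‖ₑ) ^ q
      ≤ ∫⁻ z in cube 2, (∫⁻ w, ‖θ (z + l⁻¹ • w)‖ₑ ^ q * ‖Φ w‖ₑ) *
          (∫⁻ w, ‖Φ w‖ₑ) ^ (q - 1) := lintegral_mono h1
    _ = (∫⁻ z in cube 2, ∫⁻ w, ‖θ (z + l⁻¹ • w)‖ₑ ^ q * ‖Φ w‖ₑ) *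
          (∫⁻ w, ‖Φ w‖ₑ) ^ (q - 1) := by
        rw [lintegral_mul_const]
        exact Measurable.lintegral_prod_right' (f := fun p : Eu 2 × Eu 2 =>
          ‖θ (p.1 + l⁻¹ • p.2)‖ₑ ^ q * ‖Φ p.2‖ₑ) ((hm2.pow_const q).mul (hm1.comp measurable_snd))
    _ = (∫⁻ w, ∫⁻ z in cube 2, ‖θ (z + l⁻¹ • w)‖ₑ ^ q * ‖Φ w‖ₑ) *
          (∫⁻ w, ‖Φ w‖ₑ) ^ (q - 1) := by
        congr 1
        exact lintegral_lintegral_swap
          ((hm2.pow_const q).mul (hm1.comp measurable_snd)).aemeasurable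
    _ = (∫⁻ w, (∫⁻ x in cube 2, ‖θ x‖ₑ ^ q) * ‖Φ w‖ₑ) *
          (∫⁻ w, ‖Φ w‖ₑ) ^ (q - 1) := by
        congr 1
        refine lintegral_congr (fun w => ?_)
        have hmw : Measurable (fun z => ‖θ (z + l⁻¹ • w)‖ₑ ^ q) :=
          (hm2.comp measurable_prodMk_right).pow_const q
        rw [lintegral_mul_const _ hmw]
        congr 1
        exact tst_trans (fun z => ‖θ z‖ₑ ^ q) (fun x k => by
          show ‖θ (x + iv k)‖ₑ ^ q = ‖θ x‖ₑ ^ q
          rw [hp x k]) (l⁻¹ • w)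
    _ = (∫⁻ w, ‖Φ w‖ₑ) ^ q * ∫⁻ x in cube 2, ‖θ x‖ₑ ^ q := by
        rw [lintegral_const_mul _ hm1]
        have : (∫⁻ w, ‖Φ w‖ₑ) ^ q = (∫⁻ w, ‖Φ w‖ₑ) * (∫⁻ w, ‖Φ w‖ₑ) ^ (q - 1) := by
          conv_lhs => rw [show q = 1 + (q - 1) by ring]
          rw [ENNReal.rpow_add_of_nonneg _ _ zero_le_one hq1.le, ENNReal.rpow_one]
        rw [this]
        ring

private theorem tst_dim : Module.finrank ℝ (Eu 2) = 2 := by
  rw [finrank_euclideanSpace, Fintype.card_fin]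

/-- the increments of the kernel -/
private theorem tst_ker {K : Eu 2 → Eu 2} (hK : ContDiff ℝ ∞ K) (hKs : HasCompactSupport K) :
    ∃ M : ℝ, 0 ≤ M ∧ ∀ a : Eu 2, ∫⁻ w, ‖K (w - a) - K w‖ₑ ≤ ENNReal.ofReal (M * min 1 ‖a‖) := by
  obtain ⟨C, hC⟩ := ContDiff.lipschitzWith_of_hasCompactSupport hKs hK (by simp)
  obtain ⟨R, hR⟩ := hKs.isCompact.isBounded.subset_closedBall (0 : Eu 2)
  have hKi : Integrable K := hK.continuous.integrable_of_hasCompactSupport hKs
  set I₁ : ℝ := (∫⁻ w, ‖K w‖ₑ).toReal with hI₁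
  have hI₁' : ∫⁻ w, ‖K w‖ₑ = ENNReal.ofReal I₁ := (ENNReal.ofReal_toReal hKi.2.ne).symm
  set V : ℝ := (volume (Metric.closedBall (0 : Eu 2) (R + 1))).toReal with hV
  have hV' : volume (Metric.closedBall (0 : Eu 2) (R + 1)) = ENNReal.ofReal V :=
    (ENNReal.ofReal_toReal measure_closedBall_lt_top.ne).symm
  have hI0 : 0 ≤ I₁ := ENNReal.toReal_nonneg
  have hV0 : 0 ≤ V := ENNReal.toReal_nonneg
  have hC0 : (0 : ℝ) ≤ C := C.2
  refine ⟨2 * I₁ + C * V, by positivity, fun a => ?_⟩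
  rcases le_total ‖a‖ 1 with ha | ha
  · have hpt : ∀ w, ‖K (w - a) - K w‖ₑ ≤ (Metric.closedBall (0 : Eu 2) (R + 1)).indicator
        (fun _ => ENNReal.ofReal (C * ‖a‖)) w := by
      intro w
      by_cases hw : w ∈ Metric.closedBall (0 : Eu 2) (R + 1)
      · rw [Set.indicator_of_mem hw, ← ofReal_norm]
        refine ENNReal.ofReal_le_ofReal ?_
        have := hC.dist_le_mul (w - a) w
        rw [dist_eq_norm, dist_eq_norm] at this
        simpa using this
      · rw [Set.indicator_of_notMem hw]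
        have hw' : R + 1 < ‖w‖ := by simpa using hw
        have h1 : K w = 0 := by
          by_contra hne
          have := hR (subset_tsupport K hne)
          rw [mem_closedBall_zero_iff] at this
          linarith
        have h2 : K (w - a) = 0 := by
          by_contra hne
          have := hR (subset_tsupport K hne)
          rw [mem_closedBall_zero_iff] at this
          have h3 := norm_sub_norm_le w a
          linarith
        rw [h1, h2]; simp
    calc ∫⁻ w, ‖K (w - a) - K w‖ₑ ≤ ∫⁻ w, (Metric.closedBall (0 : Eu 2) (R + 1)).indicator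
          (fun _ => ENNReal.ofReal (C * ‖a‖)) w := lintegral_mono hpt
      _ = ENNReal.ofReal (C * ‖a‖) * ENNReal.ofReal V := by
          rw [lintegral_indicator_const Metric.isClosed_closedBall.measurableSet, hV']
      _ = ENNReal.ofReal (C * ‖a‖ * V) := (ENNReal.ofReal_mul (by positivity)).symm
      _ ≤ _ := by
          refine ENNReal.ofReal_le_ofReal ?_
          rw [min_eq_right ha]
          nlinarith [mul_nonneg hI0 (norm_nonneg a)]
  · have hpt : ∀ w, ‖K (w - a) - K w‖ₑ ≤ ‖K (w - a)‖ₑ + ‖K w‖ₑ := fun w => enorm_sub_le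
    calc ∫⁻ w, ‖K (w - a) - K w‖ₑ ≤ ∫⁻ w, (‖K (w - a)‖ₑ + ‖K w‖ₑ) := lintegral_mono hpt
      _ = (∫⁻ w, ‖K (w - a)‖ₑ) + ∫⁻ w, ‖K w‖ₑ := by
          refine lintegral_add_right _ ?_
          exact hK.continuous.measurable.enorm
      _ = ENNReal.ofReal I₁ + ENNReal.ofReal I₁ := by
          rw [lintegral_sub_right_eq_self (fun w => ‖K w‖ₑ) a, hI₁']
      _ = ENNReal.ofReal (2 * I₁) := by
          rw [← ENNReal.ofReal_add hI0 hI0]; congr 1; ring
      _ ≤ _ := by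
          refine ENNReal.ofReal_le_ofReal ?_
          rw [min_eq_left ha]
          nlinarith [mul_nonneg hC0 hV0]

/-- the radial integral -/
private theorem tst_rad {σ q : ℝ} (hσ : 0 < σ) (hσ1 : σ < 1) (hq : 1 < q) :
    ∫⁻ a : Eu 2, ENNReal.ofReal (min 1 ‖a‖) ^ q / ‖a‖ₑ ^ ((2 : ℝ) + σ * q) ≠ ⊤ := by
  have hq0 : 0 < q := by linarith
  have hσq : 0 < σ * q := by positivity
  have hσq2 : σ * q < q := by nlinarith
  have hrad : Integrable (fun a : Eu 2 => (min 1 ‖a‖) ^ q * ‖a‖ ^ (-((2 : ℝ) + σ * q))) := by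
    have : Nontrivial (Eu 2) := Module.nontrivial_of_finrank_pos (R := ℝ) (by rw [tst_dim]; norm_num)
    have h := integrable_fun_norm_addHaar (volume : Measure (Eu 2))
      (f := fun r : ℝ => (min 1 r) ^ q * r ^ (-((2 : ℝ) + σ * q)))
    rw [h, tst_dim]
    have e : Ioi (0 : ℝ) = Ioc 0 1 ∪ Ioi 1 := (Ioc_union_Ioi_eq_Ioi zero_le_one).symm
    rw [e]
    refine IntegrableOn.union ?_ ?_
    · have h1 : IntegrableOn (fun r : ℝ => r ^ (q - 1 - σ * q)) (Ioc 0 1) := by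
        rw [← intervalIntegrable_iff_integrableOn_Ioc_of_le zero_le_one]
        exact intervalIntegral.intervalIntegrable_rpow' (by linarith)
      refine h1.congr_fun (fun r hr => ?_) measurableSet_Ioc
      have hr0 : 0 < r := hr.1
      simp only [smul_eq_mul]
      rw [min_eq_right hr.2, ← Real.rpow_natCast r (2 - 1), ← mul_assoc, ← Real.rpow_add hr0,
        ← Real.rpow_add hr0]
      congr 1
      push_cast
      norm_num
      ring
    · have h1 : IntegrableOn (fun r : ℝ => r ^ (-1 - σ * q)) (Ioi 1) :=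
        integrableOn_Ioi_rpow_of_lt (by linarith) one_pos
      refine h1.congr_fun (fun r hr => ?_) measurableSet_Ioi
      have hr1 : 1 < r := hr
      have hr0 : 0 < r := by linarith
      simp only [smul_eq_mul]
      rw [min_eq_left hr1.le, Real.one_rpow, one_mul, ← Real.rpow_natCast r (2 - 1),
        ← Real.rpow_add hr0]
      congr 1
      push_cast
      norm_num
      ring
  have hfin := hrad.2
  rw [hasFiniteIntegral_iff_ofReal (Filter.Eventually.of_forall (fun a => by positivity))] at hfin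
  refine ne_top_of_le_ne_top hfin.ne (lintegral_mono_ae ?_)
  have h0 : ∀ᵐ a : Eu 2, a ≠ 0 := by
    have : Nontrivial (Eu 2) := Module.nontrivial_of_finrank_pos (R := ℝ) (by rw [tst_dim]; norm_num)
    exact Measure.ae_ne volume 0
  refine h0.mono (fun a ha => ?_)
  have hap : 0 < ‖a‖ := norm_pos_iff.2 ha
  show ENNReal.ofReal (min 1 ‖a‖) ^ q / ‖a‖ₑ ^ ((2 : ℝ) + σ * q) ≤
    ENNReal.ofReal ((min 1 ‖a‖) ^ q * ‖a‖ ^ (-((2 : ℝ) + σ * q)))
  rw [ENNReal.ofReal_mul (by positivity), ← ENNReal.ofReal_rpow_of_nonneg (by positivity) hq0.le,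
    Real.rpow_neg hap.le, ENNReal.ofReal_inv_of_pos (by positivity),
    ← ENNReal.ofReal_rpow_of_pos hap, ofReal_norm, div_eq_mul_inv]

/-- scaling of the radial integral -/
private theorem tst_scale {σ q : ℝ} (hσ : 0 < σ) (hq : 1 < q) {l : ℝ} (hl : 1 ≤ l) :
    ∫⁻ h : Eu 2, ENNReal.ofReal (min 1 (l * ‖h‖)) ^ q / ‖h‖ₑ ^ ((2 : ℝ) + σ * q) =
      ENNReal.ofReal (l ^ (σ * q)) *
        ∫⁻ a : Eu 2, ENNReal.ofReal (min 1 ‖a‖) ^ q / ‖a‖ₑ ^ ((2 : ℝ) + σ * q) := by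
  have hl0 : 0 < l := by linarith
  have hr : (0 : ℝ) < 2 + σ * q := by positivity
  set g : Eu 2 → ℝ≥0∞ := fun a => ENNReal.ofReal (min 1 ‖a‖) ^ q / ‖a‖ₑ ^ ((2 : ℝ) + σ * q) with hg
  have hgm : Measurable g := by
    have h1 : Measurable (fun a : Eu 2 => min 1 ‖a‖) := measurable_const.min measurable_norm
    exact (h1.ennreal_ofReal.pow_const q).div (measurable_enorm.pow_const _)
  have h1 : ∀ h : Eu 2, ENNReal.ofReal (min 1 (l * ‖h‖)) ^ q / ‖h‖ₑ ^ ((2 : ℝ) + σ * q) =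
      ENNReal.ofReal (l ^ ((2 : ℝ) + σ * q)) * g (l • h) := by
    intro h
    simp only [hg]
    rw [norm_smul, Real.norm_of_nonneg hl0.le, enorm_smul,
      ENNReal.mul_rpow_of_nonneg _ _ hr.le]
    have e1 : ‖l‖ₑ ^ ((2 : ℝ) + σ * q) = ENNReal.ofReal (l ^ ((2 : ℝ) + σ * q)) := by
      rw [← ofReal_norm, Real.norm_of_nonneg hl0.le, ENNReal.ofReal_rpow_of_pos hl0]
    rw [e1]
    set c : ℝ≥0∞ := ENNReal.ofReal (l ^ ((2 : ℝ) + σ * q)) with hc
    have hc0 : c ≠ 0 := by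
      rw [hc]
      simp only [ne_eq, ENNReal.ofReal_eq_zero, not_le]
      positivity
    have hcT : c ≠ ⊤ := ENNReal.ofReal_ne_top
    rw [div_eq_mul_inv, div_eq_mul_inv, ENNReal.mul_inv (Or.inl hc0) (Or.inl hcT)]
    have : c * (ENNReal.ofReal (min 1 (l * ‖h‖)) ^ q * (c⁻¹ * (‖h‖ₑ ^ ((2 : ℝ) + σ * q))⁻¹)) =
        (c * c⁻¹) * (ENNReal.ofReal (min 1 (l * ‖h‖)) ^ q * (‖h‖ₑ ^ ((2 : ℝ) + σ * q))⁻¹) := by
      ring
    rw [this, ENNReal.mul_inv_cancel hc0 hcT, one_mul]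
  have h2 : ∫⁻ h : Eu 2, g (l • h) = ENNReal.ofReal (l ^ (-(2 : ℝ))) * ∫⁻ a : Eu 2, g a := by
    have h3 : ∫⁻ h : Eu 2, g (l • h) = ∫⁻ a, g a ∂(Measure.map (fun h : Eu 2 => l • h) volume) :=
      (lintegral_map hgm (measurable_const_smul l)).symm
    rw [h3, Measure.map_addHaar_smul (volume : Measure (Eu 2)) hl0.ne', lintegral_smul_measure,
      tst_dim, smul_eq_mul]
    congr 2
    rw [abs_of_pos (by positivity), Real.rpow_neg hl0.le]
    norm_num
  have hgl : Measurable (fun h : Eu 2 => g (l • h)) := hgm.comp (measurable_const_smul l)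
  simp only [h1]
  rw [lintegral_const_mul _ hgl, h2, ← mul_assoc,
    ← ENNReal.ofReal_mul (by positivity), ← Real.rpow_add hl0]
  congr 3
  ring

/-- convolution with a kernel of compact support is integrable -/
private theorem tst_int {θ : Eu 2 → ℝ} (hθ : Continuous θ) {Φ : Eu 2 → Eu 2} (hΦ : Continuous Φ)
    (hΦs : HasCompactSupport Φ) (l : ℝ) (z : Eu 2) :
    Integrable (fun w => θ (z + l⁻¹ • w) • Φ w) := by
  refine Continuous.integrable_of_hasCompactSupport ?_ (hΦs.mono (fun w hw h0 => hw ?_))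
  · have h1 : Continuous (fun w : Eu 2 => θ (z + l⁻¹ • w)) :=
      hθ.comp (continuous_const.add (continuous_id.const_smul l⁻¹))
    exact h1.smul hΦ
  · show θ (z + l⁻¹ • w) • Φ w = 0
    rw [h0, smul_zero]

private theorem tst_smooth {K : Eu 2 → Eu 2} (hK : ContDiff ℝ ∞ K) (hKs : HasCompactSupport K)
    {l : ℝ} (hl : 1 ≤ l) {θ : Eu 2 → ℝ} (hθ : Continuous θ) : ContDiff ℝ ∞ (cvt K l θ) := by
  have hl0 : 0 < l := by linarith
  set g : Eu 2 → Eu 2 := fun x => (l ^ 2) • K ((-l) • x) with hg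
  have hgd0 : ContDiff ℝ ∞ (fun x : Eu 2 => K ((-l) • x)) := hK.comp (contDiff_id.const_smul (-l))
  have hgd : ContDiff ℝ ∞ g := hgd0.const_smul (l ^ 2)
  have hgs : HasCompactSupport g := by
    have h1 : HasCompactSupport (fun x => K ((-l) • x)) :=
      hKs.comp_homeomorph (Homeomorph.smulOfNeZero (-l) (by linarith))
    refine h1.mono (fun x hx h0 => hx ?_)
    show (l ^ 2) • K ((-l) • x) = 0
    have h0' : K ((-l) • x) = 0 := h0
    rw [h0', smul_zero]
  have h := HasCompactSupport.contDiff_convolution_right (𝕜 := ℝ) (n := ⊤)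
    (ContinuousLinearMap.lsmul ℝ ℝ : ℝ →L[ℝ] Eu 2 →L[ℝ] Eu 2)
    (μ := (volume : Measure (Eu 2))) hgs hθ.locallyIntegrable hgd
  have e : cvt K l θ = convolution θ g
      (ContinuousLinearMap.lsmul ℝ ℝ : ℝ →L[ℝ] Eu 2 →L[ℝ] Eu 2) (volume : Measure (Eu 2)) := by
    funext z
    rw [convolution_def]
    unfold cvt
    set F : Eu 2 → Eu 2 := fun s => θ (z + s) • K (l • s) with hF
    have e1 : ∫ w, θ (z + l⁻¹ • w) • K w = ∫ w, F (l⁻¹ • w) := by
      refine integral_congr_ae (Filter.Eventually.of_forall (fun w => ?_))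
      simp only [hF]
      rw [smul_smul, mul_inv_cancel₀ hl0.ne', one_smul]
    have e2 : ∫ w, F (l⁻¹ • w) = (l ^ 2) • ∫ s, F s := by
      rw [Measure.integral_comp_smul (volume : Measure (Eu 2)) F l⁻¹, tst_dim]
      congr 1
      rw [abs_of_pos (by positivity)]
      field_simp
    have e3 : ∫ s, F s = ∫ t, θ t • K (l • (t - z)) := by
      rw [← integral_sub_right_eq_self F z]
      refine integral_congr_ae (Filter.Eventually.of_forall (fun t => ?_))
      simp only [hF]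
      congr 2
      abel
    rw [e1, e2, e3, ← integral_smul]
    refine integral_congr_ae (Filter.Eventually.of_forall (fun t => ?_))
    simp only [hg, ContinuousLinearMap.lsmul_apply]
    rw [smul_comm]
    congr 3
    rw [neg_smul, ← smul_neg]
    congr 1
    abel
  rw [e]
  exact h

theorem tst {σ q : ℝ} (hσ : 0 < σ) (hσ1 : σ < 1) (hq : 1 < q) {K : Eu 2 → Eu 2} (hK : ContDiff ℝ ∞ K)
    (hKs : HasCompactSupport K) : ∃ C : ℝ, 0 ≤ C ∧ ∀ l : ℝ, 1 ≤ l → ∀ θ : Eu 2 → ℝ, Continuous θ →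
      Per θ → ContDiff ℝ ∞ (cvt K l θ) ∧ Per (cvt K l θ) ∧
      slobP σ q (cvt K l θ) ≤ ENNReal.ofReal (C * l ^ (σ * q)) * ∫⁻ x in cube 2, ‖θ x‖ₑ ^ q := by
  have hq0 : 0 < q := by linarith
  obtain ⟨M, hM0, hM⟩ := tst_ker hK hKs
  have hKi : Integrable K := hK.continuous.integrable_of_hasCompactSupport hKs
  set I₁ : ℝ := (∫⁻ w, ‖K w‖ₑ).toReal with hI₁
  have hI₁' : ∫⁻ w, ‖K w‖ₑ = ENNReal.ofReal I₁ := (ENNReal.ofReal_toReal hKi.2.ne).symm
  have hI0 : 0 ≤ I₁ := ENNReal.toReal_nonneg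
  set R : ℝ≥0∞ := ∫⁻ a : Eu 2, ENNReal.ofReal (min 1 ‖a‖) ^ q / ‖a‖ₑ ^ ((2 : ℝ) + σ * q) with hR
  have hRT : R ≠ ⊤ := tst_rad hσ hσ1 hq
  have hR' : R = ENNReal.ofReal R.toReal := (ENNReal.ofReal_toReal hRT).symm
  have hR0 : 0 ≤ R.toReal := ENNReal.toReal_nonneg
  refine ⟨I₁ ^ q + M ^ q * R.toReal, by positivity, fun l hl θ hθ hp => ?_⟩
  have hl0 : 0 < l := by linarith
  have hsm := tst_smooth hK hKs hl hθ
  have hvc : Continuous (cvt K l θ) := hsm.continuous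
  refine ⟨hsm, ?_, ?_⟩
  · intro x k
    unfold cvt
    refine integral_congr_ae (Filter.Eventually.of_forall (fun w => ?_))
    show θ (x + iv k + l⁻¹ • w) • K w = θ (x + l⁻¹ • w) • K w
    rw [show x + iv k + l⁻¹ • w = (x + l⁻¹ • w) + iv k by abel, hp]
  set N : ℝ≥0∞ := ∫⁻ x in cube 2, ‖θ x‖ₑ ^ q with hN
  -- the values
  have hval : ∫⁻ x in cube 2, ‖cvt K l θ x‖ₑ ^ q ≤ ENNReal.ofReal (I₁ ^ q) * N := by
    have h1 : ∀ x, ‖cvt K l θ x‖ₑ ≤ ∫⁻ w, ‖θ (x + l⁻¹ • w)‖ₑ * ‖K w‖ₑ := by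
      intro x
      unfold cvt
      refine (enorm_integral_le_lintegral_enorm _).trans (le_of_eq ?_)
      refine lintegral_congr (fun w => ?_)
      rw [enorm_smul]
    calc ∫⁻ x in cube 2, ‖cvt K l θ x‖ₑ ^ q
        ≤ ∫⁻ x in cube 2, (∫⁻ w, ‖θ (x + l⁻¹ • w)‖ₑ * ‖K w‖ₑ) ^ q :=
          lintegral_mono (fun x => ENNReal.rpow_le_rpow (h1 x) hq0.le)
      _ ≤ (∫⁻ w, ‖K w‖ₑ) ^ q * N := tst_mink hq hθ hp hK.continuous l
      _ = _ := by rw [hI₁', ENNReal.ofReal_rpow_of_nonneg hI0 hq0.le]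
  -- the increments
  have hinc : ∀ h : Eu 2, ∫⁻ x in cube 2, ‖cvt K l θ (x + h) - cvt K l θ x‖ₑ ^ q ≤
      (ENNReal.ofReal M ^ q * N) * ENNReal.ofReal (min 1 (l * ‖h‖)) ^ q := by
    intro h
    have hΦc : Continuous (fun w => K (w - l • h) - K w) :=
      (hK.continuous.comp (continuous_id.sub continuous_const)).sub hK.continuous
    have h0 : ∀ x, cvt K l θ (x + h) - cvt K l θ x =
        ∫ w, θ (x + l⁻¹ • w) • (K (w - l • h) - K w) := by
      intro x
      have e1 : cvt K l θ (x + h) = ∫ w, θ (x + l⁻¹ • w) • K (w - l • h) := by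
        unfold cvt
        rw [← integral_sub_right_eq_self (fun w => θ (x + h + l⁻¹ • w) • K w) (l • h)]
        refine integral_congr_ae (Filter.Eventually.of_forall (fun w => ?_))
        show θ (x + h + l⁻¹ • (w - l • h)) • K (w - l • h) = θ (x + l⁻¹ • w) • K (w - l • h)
        rw [smul_sub, smul_smul, inv_mul_cancel₀ hl0.ne', one_smul]
        congr 2
        abel
      have hs1 : HasCompactSupport (fun w => K (w - l • h)) :=
        hKs.comp_homeomorph (Homeomorph.subRight (l • h))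
      have i1 := tst_int hθ (Φ := fun w => K (w - l • h))
        (hK.continuous.comp (continuous_id.sub continuous_const)) hs1 l x
      have i2 := tst_int hθ hK.continuous hKs l x
      rw [e1]
      unfold cvt
      rw [← integral_sub i1 i2]
      refine integral_congr_ae (Filter.Eventually.of_forall (fun w => ?_))
      show θ (x + l⁻¹ • w) • K (w - l • h) - θ (x + l⁻¹ • w) • K w = _
      rw [← smul_sub]
    have h1 : ∀ x, ‖cvt K l θ (x + h) - cvt K l θ x‖ₑ ≤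
        ∫⁻ w, ‖θ (x + l⁻¹ • w)‖ₑ * ‖K (w - l • h) - K w‖ₑ := by
      intro x
      rw [h0 x]
      refine (enorm_integral_le_lintegral_enorm _).trans (le_of_eq ?_)
      refine lintegral_congr (fun w => ?_)
      rw [enorm_smul]
    calc ∫⁻ x in cube 2, ‖cvt K l θ (x + h) - cvt K l θ x‖ₑ ^ q
        ≤ ∫⁻ x in cube 2, (∫⁻ w, ‖θ (x + l⁻¹ • w)‖ₑ * ‖K (w - l • h) - K w‖ₑ) ^ q :=
          lintegral_mono (fun x => ENNReal.rpow_le_rpow (h1 x) hq0.le)
      _ ≤ (∫⁻ w, ‖K (w - l • h) - K w‖ₑ) ^ q * N := tst_mink hq hθ hp hΦc l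
      _ ≤ (ENNReal.ofReal (M * min 1 ‖l • h‖)) ^ q * N :=
          mul_le_mul_left (ENNReal.rpow_le_rpow (hM _) hq0.le) _
      _ = _ := by
          rw [norm_smul, Real.norm_of_nonneg hl0.le, ENNReal.ofReal_mul hM0,
            ENNReal.mul_rpow_of_nonneg _ _ hq0.le]
          ring
  have hgag : gag 0 σ q (cvt K l θ) ≤
      ENNReal.ofReal (M ^ q * R.toReal * l ^ (σ * q)) * N := by
    have hmeas : Measurable (fun p : Eu 2 × Eu 2 =>
        ‖cvt K l θ (p.1 + p.2) - cvt K l θ p.1‖ₑ ^ q / ‖p.2‖ₑ ^ (((2 : ℕ) : ℝ) + σ * q)) := by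
      have h1 : Continuous (fun p : Eu 2 × Eu 2 => cvt K l θ (p.1 + p.2) - cvt K l θ p.1) :=
        (hvc.comp (continuous_fst.add continuous_snd)).sub (hvc.comp continuous_fst)
      exact (h1.measurable.enorm.pow_const q).div
        ((measurable_enorm.comp measurable_snd).pow_const _)
    have e0 : gag 0 σ q (cvt K l θ) = ∫⁻ x in cube 2, ∫⁻ h in Metric.ball (0 : Eu 2) 1,
        ‖cvt K l θ (x + h) - cvt K l θ x‖ₑ ^ q / ‖h‖ₑ ^ (((2 : ℕ) : ℝ) + σ * q) := by
      unfold gag dnorm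
      refine lintegral_congr (fun x => lintegral_congr (fun h => ?_))
      rw [norm_iteratedFDeriv_zero, ofReal_norm]
    rw [e0, lintegral_lintegral_swap hmeas.aemeasurable]
    calc ∫⁻ h in Metric.ball (0 : Eu 2) 1, ∫⁻ x in cube 2,
          ‖cvt K l θ (x + h) - cvt K l θ x‖ₑ ^ q / ‖h‖ₑ ^ (((2 : ℕ) : ℝ) + σ * q)
        ≤ ∫⁻ h in Metric.ball (0 : Eu 2) 1, (ENNReal.ofReal M ^ q * N) *
          (ENNReal.ofReal (min 1 (l * ‖h‖)) ^ q / ‖h‖ₑ ^ ((2 : ℝ) + σ * q)) := by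
          refine lintegral_mono (fun h => ?_)
          have hmx : Measurable (fun x => ‖cvt K l θ (x + h) - cvt K l θ x‖ₑ ^ q) := by
            have h1 : Continuous (fun x : Eu 2 => cvt K l θ (x + h) - cvt K l θ x) :=
              (hvc.comp (continuous_id.add continuous_const)).sub hvc
            exact h1.measurable.enorm.pow_const q
          simp only [div_eq_mul_inv]
          rw [lintegral_mul_const _ hmx, ← mul_assoc]
          push_cast
          exact mul_le_mul_left (hinc h) _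
      _ ≤ ∫⁻ h, (ENNReal.ofReal M ^ q * N) *
          (ENNReal.ofReal (min 1 (l * ‖h‖)) ^ q / ‖h‖ₑ ^ ((2 : ℝ) + σ * q)) :=
          setLIntegral_le_lintegral _ _
      _ = (ENNReal.ofReal M ^ q * N) * (ENNReal.ofReal (l ^ (σ * q)) * R) := by
          have hm : Measurable (fun h : Eu 2 =>
              ENNReal.ofReal (min 1 (l * ‖h‖)) ^ q / ‖h‖ₑ ^ ((2 : ℝ) + σ * q)) := by
            have h1 : Measurable (fun a : Eu 2 => min 1 (l * ‖a‖)) :=
              measurable_const.min (measurable_norm.const_mul l)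
            exact (h1.ennreal_ofReal.pow_const q).div (measurable_enorm.pow_const _)
          rw [lintegral_const_mul _ hm, tst_scale hσ hq hl]
      _ = _ := by
          rw [ENNReal.ofReal_mul (by positivity), ENNReal.ofReal_mul (by positivity), ← hR',
            ← ENNReal.ofReal_rpow_of_nonneg hM0 hq0.le]
          ring
  have hfl : ⌊σ⌋₊ = 0 := Nat.floor_eq_zero.2 hσ1
  have hslob : slobP σ q (cvt K l θ) =
      (∫⁻ x in cube 2, ‖cvt K l θ x‖ₑ ^ q) + gag 0 σ q (cvt K l θ) := by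
    unfold slobP
    rw [hfl]
    simp only [zero_add, Finset.range_one, Finset.sum_singleton, Nat.cast_zero, sub_zero, hσ,
      if_true]
    congr 1
    unfold dnorm
    refine lintegral_congr (fun x => ?_)
    rw [norm_iteratedFDeriv_zero, ofReal_norm]
  rw [hslob]
  have hl1 : 1 ≤ l ^ (σ * q) := Real.one_le_rpow hl (by positivity)
  calc (∫⁻ x in cube 2, ‖cvt K l θ x‖ₑ ^ q) + gag 0 σ q (cvt K l θ)
      ≤ ENNReal.ofReal (I₁ ^ q * l ^ (σ * q)) * N +
          ENNReal.ofReal (M ^ q * R.toReal * l ^ (σ * q)) * N := by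
        refine add_le_add (hval.trans (mul_le_mul_left (ENNReal.ofReal_le_ofReal ?_) _)) hgag
        have : 0 ≤ I₁ ^ q := by positivity
        nlinarith
    _ = _ := by
        rw [← add_mul, ← ENNReal.ofReal_add (by positivity) (by positivity)]
        congr 2
        ring

end

end TH
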