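import Pool.Agent.TH.Cvg
import Pool.Agent.TH.Tst
import Pool.Agent.H68.VD.Wsp
import Pool.Agent.H68.VD.DispLow

/-!
# Project TH (MP_b0bf68_gt), row TH-23: the duality bound of `cvg` in `W^{s,p}` (helper49)
-/

set_option autoImplicit false

open MeasureTheory Set Pool.Agent.H68.VD
open scoped ENNReal ContDiff

namespace TH

noncomputable section

/-! ### Homogeneity of the Sobolev-Slobodeckij norm -/

private theorem dua_dnorm (k : ℕ) (c : ℝ) {v : Eu 2 → Eu 2} (hv : ContDiff ℝ ∞ v) (x : Eu 2) :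
    dnorm k (fun y => c • v y) x = ENNReal.ofReal |c| * dnorm k v x := by
  unfold dnorm
  have h1 : iteratedFDeriv ℝ k (fun y => c • v y) x = c • iteratedFDeriv ℝ k v x :=
    iteratedFDeriv_const_smul_apply' (hv.of_le (by exact_mod_cast le_top)).contDiffAt
  rw [h1, norm_smul, Real.norm_eq_abs, ENNReal.ofReal_mul (abs_nonneg c)]

private theorem dua_slob (r : ℝ) {q : ℝ} (hq : 0 ≤ q) (c : ℝ) {v : Eu 2 → Eu 2}
    (hv : ContDiff ℝ ∞ v) :
    slobP r q (fun y => c • v y) = ENNReal.ofReal |c| ^ q * slobP r q v := by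
  have ht : ENNReal.ofReal |c| ^ q ≠ ⊤ := ENNReal.rpow_ne_top_of_nonneg hq ENNReal.ofReal_ne_top
  have h1 : ∀ k, ∫⁻ x in cube 2, dnorm k (fun y => c • v y) x ^ q =
      ENNReal.ofReal |c| ^ q * ∫⁻ x in cube 2, dnorm k v x ^ q := by
    intro k
    rw [← lintegral_const_mul' _ _ ht]
    refine lintegral_congr fun x => ?_
    rw [dua_dnorm k c hv, ENNReal.mul_rpow_of_nonneg _ _ hq]
  have h2 : gag ⌊r⌋₊ (r - ⌊r⌋₊) q (fun y => c • v y) =
      ENNReal.ofReal |c| ^ q * gag ⌊r⌋₊ (r - ⌊r⌋₊) q v := by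
    unfold gag
    rw [← lintegral_const_mul' _ _ ht]
    refine lintegral_congr fun x => ?_
    rw [← lintegral_const_mul' _ _ ht]
    refine lintegral_congr fun h => ?_
    have h3 : ContDiff ℝ ∞ (fun y => v (y + h) - v y) :=
      (hv.comp (contDiff_id.add contDiff_const)).sub hv
    have h4 : (fun y => c • v (y + h) - c • v y) = fun y => c • (v (y + h) - v y) := by
      funext y
      rw [smul_sub]
    rw [h4, dua_dnorm _ c h3, ENNReal.mul_rpow_of_nonneg _ _ hq, mul_div_assoc]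
  unfold slobP
  rw [h2, mul_add, Finset.mul_sum]
  congr 1
  · exact Finset.sum_congr rfl fun k _ => h1 k
  · split_ifs
    · rfl
    · rw [mul_zero]

private theorem dua_test {s p : ℝ} (hp : 1 < p) (hs0 : s < 0) {u v : Eu 2 → Eu 2}
    (hv : ContDiff ℝ ∞ v) (hvp : Per v) {A : ℝ} (hA : 0 < A)
    (h : slobP (-s) (p / (p - 1)) v ≤ ENNReal.ofReal (A ^ (p / (p - 1)))) :
    ENNReal.ofReal (|∫ x in cube 2, inner ℝ (u x) (v x)| / A) ≤ wspP s p u := by
  have hq : 0 < p / (p - 1) := div_pos (by linarith) (by linarith)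
  unfold wspP
  rw [if_neg (not_le.mpr hs0)]
  refine le_trans ?_ (le_iSup₂ (f := fun (v : Eu 2 → Eu 2)
    (_ : ContDiff ℝ ∞ v ∧ Per v ∧ slobP (-s) (p / (p - 1)) v ≤ 1) =>
    ENNReal.ofReal |∫ x in cube 2, inner ℝ (u x) (v x)|) (fun x => A⁻¹ • v x)
    ⟨hv.const_smul A⁻¹, fun x k => by
      show A⁻¹ • v (x + iv k) = A⁻¹ • v x
      rw [hvp x k], ?_⟩)
  · refine ENNReal.ofReal_le_ofReal (le_of_eq ?_)
    have h1 : ∫ x in cube 2, inner ℝ (u x) (A⁻¹ • v x) =
        A⁻¹ * ∫ x in cube 2, inner ℝ (u x) (v x) := by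
      rw [← integral_const_mul]
      refine integral_congr_ae (Filter.Eventually.of_forall fun x => ?_)
      beta_reduce
      rw [inner_smul_right]
    rw [h1, abs_mul, abs_of_pos (inv_pos.2 hA), div_eq_inv_mul]
  · rw [dua_slob _ hq.le _ hv, abs_of_pos (inv_pos.2 hA)]
    calc ENNReal.ofReal A⁻¹ ^ (p / (p - 1)) * slobP (-s) (p / (p - 1)) v
        ≤ ENNReal.ofReal A⁻¹ ^ (p / (p - 1)) * ENNReal.ofReal (A ^ (p / (p - 1))) := by gcongr
      _ = 1 := by
        rw [ENNReal.ofReal_rpow_of_pos (inv_pos.2 hA), ← ENNReal.ofReal_mul (by positivity),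
          Real.inv_rpow hA.le, inv_mul_cancel₀ (by positivity), ENNReal.ofReal_one]

/-! ### Moving the kernel to the other factor -/

private theorem dua_move {K : Eu 2 → Eu 2} (hK : Continuous K) (hKs : HasCompactSupport K)
    {u : Eu 2 → Eu 2} (hu : Continuous u) (hup : Per u) {θ : Eu 2 → ℝ} (hθ : Continuous θ)
    (hθp : Per θ) (l : ℝ) :
    ∫ x in cube 2, cvg K l u x * θ x = ∫ x in cube 2, inner ℝ (u x) (cvt K l θ x) := by
  obtain ⟨Mu, hMu0, hMu⟩ := WspA.bdd u hu hup
  obtain ⟨Mt, hMt0, hMt⟩ := WspA.bdd θ hθ hθp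
  have hfin : IsFiniteMeasure ((volume : Measure (Eu 2)).restrict (cube 2)) :=
    ⟨by rw [Measure.restrict_apply_univ, WspA.cube_vol]; exact ENNReal.one_lt_top⟩
  have hKi : Integrable K := hK.integrable_of_hasCompactSupport hKs
  have hint : ∀ a b : Eu 2 × Eu 2 → Eu 2, Continuous a → Continuous b →
      Integrable (fun z : Eu 2 × Eu 2 => θ (a z) * (inner ℝ (u (b z)) (K z.2) : ℝ))
        ((volume.restrict (cube 2)).prod volume) := by
    intro a b ha hb
    have h2 : Integrable (fun z : Eu 2 × Eu 2 => ‖K z.2‖ * (Mt * Mu))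
        ((volume.restrict (cube 2)).prod volume) := (hKi.norm.comp_snd _).mul_const _
    refine h2.mono' ?_ (Filter.Eventually.of_forall fun z => ?_)
    · exact ((hθ.comp ha).mul ((hu.comp hb).inner (hK.comp continuous_snd))).aestronglyMeasurable
    · rw [norm_mul]
      calc ‖θ (a z)‖ * ‖(inner ℝ (u (b z)) (K z.2) : ℝ)‖ ≤ Mt * (Mu * ‖K z.2‖) := by
            refine mul_le_mul (hMt _) ((norm_inner_le_norm _ _).trans ?_) (norm_nonneg _) hMt0
            exact mul_le_mul_of_nonneg_right (hMu _) (norm_nonneg _)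
        _ = ‖K z.2‖ * (Mt * Mu) := by ring
  have hI1 : Integrable (Function.uncurry fun (x w : Eu 2) =>
      θ x * (inner ℝ (u (x - l⁻¹ • w)) (K w) : ℝ)) ((volume.restrict (cube 2)).prod volume) :=
    hint (fun z => z.1) (fun z => z.1 - l⁻¹ • z.2) (by fun_prop) (by fun_prop)
  have hI2 : Integrable (Function.uncurry fun (x w : Eu 2) =>
      θ (x + l⁻¹ • w) * (inner ℝ (u x) (K w) : ℝ)) ((volume.restrict (cube 2)).prod volume) :=
    hint (fun z => z.1 + l⁻¹ • z.2) (fun z => z.1) (by fun_prop) (by fun_prop)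
  have e1 : ∀ x, cvg K l u x * θ x = ∫ w, θ x * (inner ℝ (u (x - l⁻¹ • w)) (K w) : ℝ) := by
    intro x
    rw [integral_const_mul, mul_comm]
    rfl
  have e2 : ∀ x, (inner ℝ (u x) (cvt K l θ x) : ℝ) =
      ∫ w, θ (x + l⁻¹ • w) * (inner ℝ (u x) (K w) : ℝ) := by
    intro x
    have hi : Integrable (fun w => θ (x + l⁻¹ • w) • K w) := by
      apply Continuous.integrable_of_hasCompactSupport
      · exact (hθ.comp (by fun_prop)).smul hK
      · exact HasCompactSupport.smul_left (f := fun w : Eu 2 => θ (x + l⁻¹ • w)) hKs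
    unfold cvt
    rw [← integral_inner hi]
    congr 1
    ext1 w
    rw [inner_smul_right]
  calc ∫ x in cube 2, cvg K l u x * θ x
      = ∫ x in cube 2, ∫ w, θ x * (inner ℝ (u (x - l⁻¹ • w)) (K w) : ℝ) := by simp_rw [e1]
    _ = ∫ w, ∫ x in cube 2, θ x * (inner ℝ (u (x - l⁻¹ • w)) (K w) : ℝ) :=
        integral_integral_swap hI1
    _ = ∫ w, ∫ x in cube 2, θ (x + l⁻¹ • w) * (inner ℝ (u x) (K w) : ℝ) := by
        congr 1
        ext1 w
        have h1 := WspA.trans_int (fun x => θ x * (inner ℝ (u (x - l⁻¹ • w)) (K w) : ℝ)) (by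
          intro x k
          have h2 : x + iv k - l⁻¹ • w = (x - l⁻¹ • w) + iv k := by abel
          simp only [h2, hup (x - l⁻¹ • w) k, hθp x k]) (l⁻¹ • w)
        rw [← h1]
        simp
    _ = ∫ x in cube 2, ∫ w, θ (x + l⁻¹ • w) * (inner ℝ (u x) (K w) : ℝ) :=
        (integral_integral_swap hI2).symm
    _ = _ := by simp_rw [e2]

/-! ### The extremal function -/

/-- the derivative of `|t|^p / p` -/
private def dphi (p t : ℝ) : ℝ := max t 0 ^ (p - 1) - max (-t) 0 ^ (p - 1)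

private theorem dphi_cont {p : ℝ} (hp : 1 < p) : Continuous (dphi p) := by
  have h1 : Continuous fun x : ℝ => x ^ (p - 1) := Real.continuous_rpow_const (by linarith)
  exact (h1.comp (continuous_id.max continuous_const)).sub
    (h1.comp (continuous_neg.max continuous_const))

private theorem dphi_nonneg {p t : ℝ} (hp : 1 < p) (ht : 0 ≤ t) : dphi p t = t ^ (p - 1) := by
  unfold dphi
  rw [max_eq_left ht, max_eq_right (by linarith), Real.zero_rpow (by linarith), sub_zero]

private theorem dphi_neg {p t : ℝ} : dphi p (-t) = -dphi p t := by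
  unfold dphi
  rw [neg_neg]
  ring

private theorem dphi_mul {p : ℝ} (hp : 1 < p) (t : ℝ) : t * dphi p t = |t| ^ p := by
  have key : ∀ t : ℝ, 0 ≤ t → t * dphi p t = t ^ p := by
    intro t ht
    rw [dphi_nonneg hp ht]
    rcases ht.eq_or_lt with h | h
    · rw [← h, zero_mul, Real.zero_rpow (by linarith)]
    · nth_rewrite 1 [← Real.rpow_one t]
      rw [← Real.rpow_add h]
      congr 1
      ring
  rcases le_total 0 t with h | h
  · rw [key t h, abs_of_nonneg h]
  · have h1 := key (-t) (by linarith)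
    rw [dphi_neg] at h1
    rw [abs_of_nonpos h, ← h1]
    ring

private theorem dphi_abs {p : ℝ} (hp : 1 < p) (t : ℝ) :
    |dphi p t| ^ (p / (p - 1)) = |t| ^ p := by
  have key : ∀ t : ℝ, 0 ≤ t → |dphi p t| ^ (p / (p - 1)) = |t| ^ p := by
    intro t ht
    rw [dphi_nonneg hp ht, abs_of_nonneg (by positivity), abs_of_nonneg ht, ← Real.rpow_mul ht]
    congr 1
    have : p - 1 ≠ 0 := by linarith
    field_simp
  rcases le_total 0 t with h | h
  · exact key t h
  · have h1 := key (-t) (by linarith)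
    rw [dphi_neg, abs_neg, abs_neg] at h1
    exact h1

theorem dua {s p : ℝ} (hp : 1 < p) (hs : -1 < s) (hs0 : s < 0) {K : Eu 2 → Eu 2} (hK : ContDiff ℝ ∞ K)
    (hKs : HasCompactSupport K) : ∃ C : ℝ, 0 ≤ C ∧ ∀ l : ℝ, 1 ≤ l → ∀ u : Eu 2 → Eu 2, Continuous u →
      Per u → (∫⁻ x in cube 2, ‖cvg K l u x‖ₑ ^ p) ^ (1 / p) ≤ ENNReal.ofReal (C * l ^ (-s)) * wspP s p u := by
  have hp0 : 0 < p := by linarith
  have hp1 : 0 < p - 1 := by linarith
  set q : ℝ := p / (p - 1) with hq
  have hq1 : 1 < q := by rw [hq, one_lt_div hp1]; linarith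
  have hq0 : 0 < q := by linarith
  obtain ⟨C₀, hC₀, htst⟩ := tst (σ := -s) (q := q) (by linarith) (by linarith) hq1 hK hKs
  refine ⟨(C₀ + 1) ^ (1 / q), by positivity, fun l hl u hu hup => ?_⟩
  have hl0 : 0 < l := by linarith
  -- the function `G`
  have hG : Continuous (cvg K l u) := by
    have h1 := cvg_cont hK hKs hu
    have h2 : Continuous (fun x : Eu 2 => ((⟨l, hl0⟩ : Ioi (0 : ℝ)), x)) := by fun_prop
    exact h1.comp h2
  have hGp : Per (cvg K l u) := cvg_per hup l
  set G := cvg K l u with hGdef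
  have hθ : Continuous (fun x => dphi p (G x)) := (dphi_cont hp).comp hG
  have hθp : Per (fun x => dphi p (G x)) := fun x k => by
    show dphi p (G (x + iv k)) = dphi p (G x)
    rw [hGp x k]
  obtain ⟨hv, hvp, hvs⟩ := htst l hl _ hθ hθp
  set I : ℝ := ∫ x in cube 2, |G x| ^ p with hI
  have hGpc : Continuous (fun x => |G x| ^ p) :=
    (Real.continuous_rpow_const hp0.le).comp hG.abs
  have hI0 : 0 ≤ I := integral_nonneg fun x => by positivity
  have hlin : ∫⁻ x in cube 2, ENNReal.ofReal (|G x| ^ p) = ENNReal.ofReal I :=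
    (ofReal_integral_eq_lintegral_ofReal (DispLowA.integrableOn_cube hGpc)
      (Filter.Eventually.of_forall fun x => by positivity)).symm
  have hlin1 : ∫⁻ x in cube 2, ‖G x‖ₑ ^ p = ENNReal.ofReal I := by
    rw [← hlin]
    refine lintegral_congr fun x => ?_
    rw [Real.enorm_eq_ofReal_abs, ENNReal.ofReal_rpow_of_nonneg (abs_nonneg _) hp0.le]
  have hlin2 : ∫⁻ x in cube 2, ‖dphi p (G x)‖ₑ ^ q = ENNReal.ofReal I := by
    rw [← hlin]
    refine lintegral_congr fun x => ?_
    rw [Real.enorm_eq_ofReal_abs, ENNReal.ofReal_rpow_of_nonneg (abs_nonneg _) hq0.le, hq,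
      dphi_abs hp]
  rw [hlin1]
  rcases hI0.eq_or_lt with h0 | h0
  · rw [← h0, ENNReal.ofReal_zero, ENNReal.zero_rpow_of_pos (by positivity)]
    exact zero_le
  -- the normalization
  set A : ℝ := ((C₀ + 1) * l ^ (-s * q) * I) ^ (1 / q) with hA
  have hB0 : 0 < (C₀ + 1) * l ^ (-s * q) * I := by positivity
  have hA0 : 0 < A := Real.rpow_pos_of_pos hB0 _
  have hAq : A ^ q = (C₀ + 1) * l ^ (-s * q) * I := by
    rw [hA, ← Real.rpow_mul hB0.le, one_div_mul_cancel hq0.ne', Real.rpow_one]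
  have h1 : slobP (-s) (p / (p - 1)) (cvt K l fun x => dphi p (G x)) ≤
      ENNReal.ofReal (A ^ (p / (p - 1))) := by
    rw [← hq, hAq]
    refine hvs.trans ?_
    rw [hlin2, ← ENNReal.ofReal_mul (by positivity)]
    refine ENNReal.ofReal_le_ofReal ?_
    gcongr
    linarith
  have h2 := dua_test (u := u) hp hs0 hv hvp hA0 h1
  have h3 : ∫ x in cube 2, inner ℝ (u x) (cvt K l (fun x => dphi p (G x)) x) = I := by
    rw [← dua_move hK.continuous hKs hu hup hθ hθp l, hI]
    refine integral_congr_ae (Filter.Eventually.of_forall fun x => ?_)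
    exact dphi_mul hp (G x)
  rw [h3, abs_of_pos h0] at h2
  have h4 : I ^ (1 / p) = (C₀ + 1) ^ (1 / q) * l ^ (-s) * (I / A) := by
    have h5 : A = (C₀ + 1) ^ (1 / q) * l ^ (-s) * I ^ (1 / q) := by
      rw [hA, Real.mul_rpow (by positivity) hI0, Real.mul_rpow (by positivity) (by positivity),
        ← Real.rpow_mul hl0.le, mul_one_div, mul_div_assoc, div_self hq0.ne', mul_one]
    have h6 : I = I ^ (1 / p) * I ^ (1 / q) := by
      rw [← Real.rpow_add h0]
      have h7 : 1 / p + 1 / q = 1 := by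
        rw [hq]
        field_simp
        ring
      rw [h7, Real.rpow_one]
    rw [h5]
    have h8 : 0 < (C₀ + 1) ^ (1 / q) := by positivity
    have h9 : 0 < l ^ (-s) := by positivity
    have h10 : 0 < I ^ (1 / q) := by positivity
    rw [mul_div_assoc', eq_div_iff (by positivity)]
    nth_rewrite 3 [h6]
    ring
  rw [ENNReal.ofReal_rpow_of_pos h0, h4, ENNReal.ofReal_mul (by positivity)]
  gcongr

end

end TH
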