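import Pool.Agent.TH.Bas
import Pool.Agent.H68.VD.Stream

/-!
# Project TH (MP_b0bf68_gt): periodic Hamiltonians of divergence free fields on the torus
-/

set_option autoImplicit false
set_option linter.all false

open MeasureTheory Set Pool.Agent.H68.VD
open scoped ENNReal ContDiff

namespace TH

noncomputable section

/-- the coordinates of a point -/
private theorem hm_dec (v : Eu 2) : v = v 0 • ev 0 + v 1 • ev 1 := by
  ext i
  fin_cases i <;> simp [ev]

private theorem hm_pt (q p : ℝ) : pt q p = q • ev 0 + p • ev 1 := by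
  ext i
  fin_cases i <;> simp [pt, ev]

/-- a primitive of the closed form of a divergence free field -/
private theorem hm_prim {u : Eu 2 → Eu 2} (hu : ContDiff ℝ ∞ u) (hd : DvF u) :
    ∃ F : Eu 2 → ℝ, ∀ x, HasFDerivAt F
      (u x 0 • (EuclideanSpace.proj 1 : Eu 2 →L[ℝ] ℝ) -
        u x 1 • (EuclideanSpace.proj 0 : Eu 2 →L[ℝ] ℝ)) x := by
  have h0 : ∀ (i : Fin 2) (x : Eu 2), HasFDerivAt (fun x => u x i)
      ((EuclideanSpace.proj i : Eu 2 →L[ℝ] ℝ).comp (fderiv ℝ u x)) x := fun i x =>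
    (EuclideanSpace.proj i : Eu 2 →L[ℝ] ℝ).hasFDerivAt.comp x
      (hu.differentiable (by simp) x).hasFDerivAt
  have h1 : ∀ x, HasFDerivAt (fun x => u x 0 • (EuclideanSpace.proj 1 : Eu 2 →L[ℝ] ℝ) -
        u x 1 • (EuclideanSpace.proj 0 : Eu 2 →L[ℝ] ℝ))
      ((((EuclideanSpace.proj 0 : Eu 2 →L[ℝ] ℝ).comp (fderiv ℝ u x))).smulRight
          (EuclideanSpace.proj 1 : Eu 2 →L[ℝ] ℝ) -
        (((EuclideanSpace.proj 1 : Eu 2 →L[ℝ] ℝ).comp (fderiv ℝ u x))).smulRight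
          (EuclideanSpace.proj 0 : Eu 2 →L[ℝ] ℝ)) x := fun x =>
    ((h0 0 x).smul_const (EuclideanSpace.proj 1 : Eu 2 →L[ℝ] ℝ)).sub
      ((h0 1 x).smul_const (EuclideanSpace.proj 0 : Eu 2 →L[ℝ] ℝ))
  obtain ⟨F, hF⟩ := convex_univ.exists_forall_hasFDerivAt_of_fderiv_symmetric isOpen_univ
    (fun x _ => (h1 x).differentiableAt.differentiableWithinAt) (fun x _ v w => by
      rw [(h1 x).fderiv]
      have h2 := hd x
      rw [Fin.sum_univ_two] at h2
      have h3 : ∀ v : Eu 2, fderiv ℝ u x v = v 0 • fderiv ℝ u x (ev 0) + v 1 • fderiv ℝ u x (ev 1) := by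
        intro v
        conv_lhs => rw [hm_dec v]
        rw [map_add, map_smul, map_smul]
      show (fderiv ℝ u x v) 0 * w 1 - (fderiv ℝ u x v) 1 * w 0 =
        (fderiv ℝ u x w) 0 * v 1 - (fderiv ℝ u x w) 1 * v 0
      rw [h3 v, h3 w]
      simp only [PiLp.add_apply, PiLp.smul_apply, smul_eq_mul]
      linear_combination (v 0 * w 1 - w 0 * v 1) * h2)
  exact ⟨F, fun x => hF x (mem_univ x)⟩

/-- the fundamental theorem of calculus on a segment -/
private theorem hm_seg {u : Eu 2 → Eu 2} {H : Eu 2 → ℝ} (hu : Continuous u)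
    (hd : ∀ x, HasFDerivAt H (u x 0 • (EuclideanSpace.proj 1 : Eu 2 →L[ℝ] ℝ) -
      u x 1 • (EuclideanSpace.proj 0 : Eu 2 →L[ℝ] ℝ)) x) (x v : Eu 2) (a b : ℝ) :
    ∫ r in a..b, (u (x + r • v) 0 * v 1 - u (x + r • v) 1 * v 0) =
      H (x + b • v) - H (x + a • v) := by
  refine intervalIntegral.integral_eq_sub_of_hasDerivAt (f := fun r : ℝ => H (x + r • v))
    (fun r _ => ?_) ?_
  · have h1 : HasDerivAt (fun t : ℝ => x + t • v) v r := by
      simpa using ((hasDerivAt_id r).smul_const v).const_add x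
    have h2 := (hd (x + r • v)).comp_hasDerivAt r h1
    have h3 : (u (x + r • v) 0 • (EuclideanSpace.proj 1 : Eu 2 →L[ℝ] ℝ) -
      u (x + r • v) 1 • (EuclideanSpace.proj 0 : Eu 2 →L[ℝ] ℝ)) v =
        u (x + r • v) 0 * v 1 - u (x + r • v) 1 * v 0 := by simp
    rw [h3] at h2
    exact h2
  · refine Continuous.intervalIntegrable ?_ _ _
    fun_prop

/-- Fubini for the mean of a translate -/
private theorem hm_fub {u : Eu 2 → Eu 2} (hu : Continuous u) (hp : Per u) (hm : mn u = 0)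
    (v : Eu 2) : ∫ x in cube 2, ∫ r in (0 : ℝ)..1, (u (x + r • v) 0 * v 1 - u (x + r • v) 1 * v 0) = 0 := by
  have hc : Continuous (fun z : Eu 2 × ℝ => u (z.1 + z.2 • v) 0 * v 1 - u (z.1 + z.2 • v) 1 * v 0) := by
    fun_prop
  have h1 : Integrable (Function.uncurry fun (x : Eu 2) (r : ℝ) =>
      u (x + r • v) 0 * v 1 - u (x + r • v) 1 * v 0)
      ((volume.restrict (cube 2)).prod (volume.restrict (Ioc (0 : ℝ) 1))) := by
    rw [Measure.prod_restrict]
    exact (hc.continuousOn.integrableOn_compact (HsA.closed_compact.prod isCompact_Icc)).mono_set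
      (prod_mono HsA.cube_sub_closed Ioc_subset_Icc_self)
  simp only [intervalIntegral.integral_of_le zero_le_one]
  rw [integral_integral_swap h1]
  have h2 : ∀ r : ℝ, ∫ x in cube 2, (u (x + r • v) 0 * v 1 - u (x + r • v) 1 * v 0) = 0 := by
    intro r
    have h3 : ∀ i : Fin 2, ∫ x in cube 2, u (x + r • v) i = 0 := by
      intro i
      have h4 := HsA.cube_trans (fun x => u x i) (fun x k => by
        show u (x + iv k) i = u x i
        rw [hp]) (r • v)
      have h5 := HsA.int_coord hu i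
      have h6 : (∫ x in cube 2, u x) = 0 := hm
      rw [h6] at h5
      simp only [add_comm (r • v)] at h4
      rw [h4, ← h5]
      rfl
    have hi : ∀ (i : Fin 2) (c : ℝ), Integrable (fun x => u (x + r • v) i * c) (volume.restrict (cube 2)) := by
      intro i c
      refine HsA.int_cube ?_
      fun_prop
    rw [integral_sub (hi 0 _) (hi 1 _), integral_mul_const, integral_mul_const, h3, h3]
    simp
  simp only [h2, integral_zero]

/-- periodicity of the primitive -/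
private theorem hm_per {u : Eu 2 → Eu 2} {H : Eu 2 → ℝ} (hu : Continuous u) (hp : Per u)
    (hm : mn u = 0)
    (hd : ∀ x, HasFDerivAt H (u x 0 • (EuclideanSpace.proj 1 : Eu 2 →L[ℝ] ℝ) -
      u x 1 • (EuclideanSpace.proj 0 : Eu 2 →L[ℝ] ℝ)) x) : Per H := by
  intro x k
  have h1 : ∀ y, H (y + iv k) - H y = H (0 + iv k) - H 0 := by
    have h2 : ∀ y, HasFDerivAt (fun y => H (y + iv k) - H y) (0 : Eu 2 →L[ℝ] ℝ) y := by
      intro y
      have h3 := (hd (y + iv k)).comp y ((hasFDerivAt_id y).add_const (iv k))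
      have h4 := h3.sub (hd y)
      rw [ContinuousLinearMap.comp_id, hp, sub_self] at h4
      exact h4
    intro y
    exact is_const_of_fderiv_eq_zero (𝕜 := ℝ) (fun y => (h2 y).differentiableAt)
      (fun y => (h2 y).fderiv) y 0
  have h5 := hm_fub hu hp hm (iv k)
  have h6 : ∀ y, ∫ r in (0 : ℝ)..1, (u (y + r • iv k) 0 * iv k 1 - u (y + r • iv k) 1 * iv k 0) =
      H (0 + iv k) - H 0 := by
    intro y
    rw [hm_seg hu hd y (iv k) 0 1, one_smul, zero_smul, add_zero, h1]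
  simp only [h6] at h5
  rw [setIntegral_const, measureReal_def, HsA.vol_cube] at h5
  simp only [ENNReal.toReal_one, one_smul] at h5
  have h7 := h1 x
  rw [h5] at h7
  linarith

private theorem hm_core {u : ℝ → Eu 2 → Eu 2} (hu : ContDiff ℝ ∞ (fun z : ℝ × Eu 2 => u z.1 z.2))
    (hp : ∀ t, Per (u t)) (hd : ∀ t, DvF (u t)) (hm : ∀ t, mn (u t) = 0) (c : Eu 2) :
    ∃ H : ℝ → Eu 2 → ℝ, ContDiff ℝ ∞ (fun z : ℝ × Eu 2 => H z.1 z.2) ∧ (∀ t, Per (H t)) ∧
      (∀ t x, HasFDerivAt (H t) (u t x 0 • (EuclideanSpace.proj 1 : Eu 2 →L[ℝ] ℝ) -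
        u t x 1 • (EuclideanSpace.proj 0 : Eu 2 →L[ℝ] ℝ)) x) ∧ ∀ t, H t c = 0 := by
  have hut : ∀ t, ContDiff ℝ ∞ (u t) := fun t =>
    hu.comp (contDiff_const.prodMk contDiff_id)
  choose F hF using fun t => hm_prim (hut t) (hd t)
  have hs : ∀ t x, F t x - F t c = ∫ r in (0 : ℝ)..1,
      (u t (c + r • (x - c)) 0 * (x - c) 1 - u t (c + r • (x - c)) 1 * (x - c) 0) := by
    intro t x
    rw [hm_seg (hut t).continuous (hF t) c (x - c) 0 1, one_smul, zero_smul, add_zero,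
      add_sub_cancel]
  have hFd : ∀ t x, HasFDerivAt (fun x => F t x - F t c)
      (u t x 0 • (EuclideanSpace.proj 1 : Eu 2 →L[ℝ] ℝ) -
        u t x 1 • (EuclideanSpace.proj 0 : Eu 2 →L[ℝ] ℝ)) x := fun t x => (hF t x).sub_const _
  refine ⟨fun t x => F t x - F t c, ?_, fun t => hm_per (hut t).continuous (hp t) (hm t) (hFd t), hFd,
    fun t => sub_self _⟩
  have hG : ContDiff ℝ ∞ (fun q : (ℝ × Eu 2) × ℝ =>
      u q.1.1 (c + q.2 • (q.1.2 - c)) 0 * (q.1.2 - c) 1 -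
        u q.1.1 (c + q.2 • (q.1.2 - c)) 1 * (q.1.2 - c) 0) := by
    have g1 : ContDiff ℝ ∞ (fun q : (ℝ × Eu 2) × ℝ => u q.1.1 (c + q.2 • (q.1.2 - c))) := by
      have g0 : ContDiff ℝ ∞ (fun q : (ℝ × Eu 2) × ℝ =>
          ((q.1.1, c + q.2 • (q.1.2 - c)) : ℝ × Eu 2)) := by fun_prop
      exact hu.comp g0
    have g2 : ∀ i : Fin 2, ContDiff ℝ ∞ (fun q : (ℝ × Eu 2) × ℝ => u q.1.1 (c + q.2 • (q.1.2 - c)) i) :=
      fun i => (EuclideanSpace.proj i : Eu 2 →L[ℝ] ℝ).contDiff.comp g1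
    have g3 : ∀ i : Fin 2, ContDiff ℝ ∞ (fun q : (ℝ × Eu 2) × ℝ => (q.1.2 - c) i) := by
      intro i
      have g4 : ContDiff ℝ ∞ (fun q : (ℝ × Eu 2) × ℝ => q.1.2 - c) := by fun_prop
      exact (EuclideanSpace.proj i : Eu 2 →L[ℝ] ℝ).contDiff.comp g4
    exact ((g2 0).mul (g3 1)).sub ((g2 1).mul (g3 0))
  have hP := StreamA.param_contDiff _ hG
  have hE : (fun z : ℝ × Eu 2 => F z.1 z.2 - F z.1 c) = fun z : ℝ × Eu 2 => ∫ r in (0 : ℝ)..1,
      (u z.1 (c + r • (z.2 - c)) 0 * (z.2 - c) 1 - u z.1 (c + r • (z.2 - c)) 1 * (z.2 - c) 0) :=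
    funext fun z => hs z.1 z.2
  rw [hE]
  exact hP

/-- integral on a vertical segment -/
private theorem hm_ver {u : Eu 2 → Eu 2} {H : Eu 2 → ℝ} (hu : Continuous u)
    (hd : ∀ x, HasFDerivAt H (u x 0 • (EuclideanSpace.proj 1 : Eu 2 →L[ℝ] ℝ) -
      u x 1 • (EuclideanSpace.proj 0 : Eu 2 →L[ℝ] ℝ)) x) (a y : ℝ) :
    ∫ r in (0 : ℝ)..y, u (pt a r) 0 = H (pt a y) - H (pt a 0) := by
  have h := hm_seg hu hd (a • ev 0) (ev 1) 0 y
  rw [hm_pt a y, hm_pt a 0, ← h]
  refine intervalIntegral.integral_congr fun r _ => ?_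
  simp [hm_pt, ev]

/-- integral on a horizontal segment -/
private theorem hm_hor {u : Eu 2 → Eu 2} {H : Eu 2 → ℝ} (hu : Continuous u)
    (hd : ∀ x, HasFDerivAt H (u x 0 • (EuclideanSpace.proj 1 : Eu 2 →L[ℝ] ℝ) -
      u x 1 • (EuclideanSpace.proj 0 : Eu 2 →L[ℝ] ℝ)) x) (a y : ℝ) :
    ∫ r in (0 : ℝ)..y, u (pt r a) 1 = H (pt 0 a) - H (pt y a) := by
  have h := hm_seg hu hd (a • ev 1) (ev 0) 0 y
  have h1 : ∫ r in (0 : ℝ)..y, (u (a • ev 1 + r • ev 0) 0 * (ev 0 : Eu 2) 1 -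
      u (a • ev 1 + r • ev 0) 1 * (ev 0 : Eu 2) 0) = - ∫ r in (0 : ℝ)..y, u (pt r a) 1 := by
    rw [← intervalIntegral.integral_neg]
    refine intervalIntegral.integral_congr fun r _ => ?_
    simp [hm_pt, ev, add_comm]
  rw [hm_pt 0 a, hm_pt y a, add_comm (y • ev 0), add_comm ((0 : ℝ) • ev 0)]
  linarith

theorem exists_ham {φ : ℝ → Eu 2 → Eu 2} (h : FPath lat φ) (h0 : φ 0 = id)
    (hm : ∀ t, mn (vel φ t) = 0) (a : ℝ) : ∃ H : ℝ → Eu 2 → ℝ, HFl (vel φ) H φ ∧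
      ∀ t y, H t (pt a y) = flx 0 (vel φ t) a y := by
  obtain ⟨H, h1, h2, h3, h4⟩ := hm_core (vel_smooth h) (vel_per h) (vel_div h) hm (pt a 0)
  refine ⟨H, ⟨vel_smooth h, vel_per h, h1, h2, h3, h.smooth, vel_eq h, fun x => by rw [h0]; rfl⟩, ?_⟩
  intro t y
  have hc : Continuous (vel φ t) := (vel_smooth h).continuous.comp (continuous_const.prodMk continuous_id)
  have h5 := hm_ver hc (h3 t) a y
  rw [h4, sub_zero] at h5
  rw [← h5, flx, hm t]
  refine intervalIntegral.integral_congr fun r _ => ?_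
  simp [ln]

theorem ham1 {u : Eu 2 → Eu 2} (hu : ContDiff ℝ ∞ u) (hp : Per u) (hd : DvF u) :
    ∃ H : Eu 2 → ℝ, MH (fun x => u x - mn u) H ∧ (∀ a y, flx 0 u a y = H (pt a y) - H (pt a 0)) ∧
      ∀ a y, flx 1 u a y = H (pt 0 a) - H (pt y a) := by
  have hv : ContDiff ℝ ∞ (fun x => u x - mn u) := hu.sub contDiff_const
  have hvp : Per (fun x => u x - mn u) := fun x k => by
    show u (x + iv k) - mn u = u x - mn u
    rw [hp]
  have hvd : DvF (fun x => u x - mn u) := by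
    intro x
    have h1 := hd x
    rw [fderiv_sub_const]
    exact h1
  have hvm : mn (fun x => u x - mn u) = 0 := by
    have h1 : mn (fun x => u x - mn u) = (∫ x in cube 2, u x) - ∫ x in cube 2, mn u :=
      integral_sub (HsA.int_cube hu.continuous) (HsA.int_cube continuous_const)
    rw [h1, setIntegral_const, measureReal_def, HsA.vol_cube]
    simp [mn]
  obtain ⟨H, h1, h2, h3, h4⟩ := hm_core (u := fun _ x => u x - mn u)
    (hv.comp contDiff_snd) (fun _ => hvp) (fun _ => hvd) (fun _ => hvm) (pt 0 0)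
  refine ⟨H 0, ⟨hv, hvp, h1.comp (contDiff_const.prodMk contDiff_id), h2 0, h3 0⟩, ?_, ?_⟩
  · intro a y
    rw [← hm_ver hv.continuous (h3 0) a y, flx]
    refine intervalIntegral.integral_congr fun r _ => ?_
    simp [ln]
  · intro a y
    rw [← hm_hor hv.continuous (h3 0) a y, flx]
    refine intervalIntegral.integral_congr fun r _ => ?_
    simp [ln]

end

end TH
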