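import Pool.Agent.TH.Bnd
import Pool.Agent.TH.Dis
import Pool.Agent.TH.Gro

/-!
# TH-6: the limit of the discrete orbits
-/

set_option autoImplicit false

open MeasureTheory Set Pool.Agent.H68.VD
open scoped ENNReal ContDiff

namespace TH

noncomputable section

private theorem riem {n : ℕ} (hn : 0 < n) {f : ℝ → ℝ} (hf : Continuous f) (c : ℕ → ℝ) {e : ℝ}
    (h : ∀ i < n, ∀ t ∈ Icc ((i : ℝ) / n) ((i + 1 : ℝ) / n), |c i - f t| ≤ e) :
    |∑ i ∈ Finset.range n, 1 / n * c i - ∫ t in (0 : ℝ)..1, f t| ≤ e := by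
  have hn' : (0 : ℝ) < n := Nat.cast_pos.2 hn
  have h1 : ∑ i ∈ Finset.range n, ∫ t in ((i : ℝ) / n)..((i + 1 : ℝ) / n), f t =
      ∫ t in (0 : ℝ)..1, f t := by
    have h2 := intervalIntegral.sum_integral_adjacent_intervals (μ := volume) (f := f)
      (a := fun i : ℕ => (i : ℝ) / n) (n := n) (fun k _ => hf.intervalIntegrable _ _)
    simp only [Nat.cast_zero, zero_div, div_self hn'.ne', Nat.cast_add, Nat.cast_one] at h2
    exact h2
  rw [← h1, ← Finset.sum_sub_distrib]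
  have h3 : ∀ i ∈ Finset.range n,
      |1 / (n : ℝ) * c i - ∫ t in ((i : ℝ) / n)..((i + 1 : ℝ) / n), f t| ≤ e * (1 / n) := by
    intro i hi
    have hi' := Finset.mem_range.1 hi
    have hlen : ((i : ℝ) + 1) / n - (i : ℝ) / n = 1 / n := by ring
    have hle : (i : ℝ) / n ≤ (i + 1 : ℝ) / n := by
      have : 0 ≤ 1 / (n : ℝ) := by positivity
      linarith
    have h4 : 1 / (n : ℝ) * c i - ∫ t in ((i : ℝ) / n)..((i + 1 : ℝ) / n), f t =
        ∫ t in ((i : ℝ) / n)..((i + 1 : ℝ) / n), (c i - f t) := by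
      rw [intervalIntegral.integral_sub intervalIntegrable_const
        (hf.intervalIntegrable _ _), intervalIntegral.integral_const, hlen, smul_eq_mul]
    rw [h4]
    have h5 := intervalIntegral.norm_integral_le_of_norm_le_const
      (a := (i : ℝ) / n) (b := (i + 1 : ℝ) / n) (C := e) (f := fun t => c i - f t) ?_
    · rw [hlen, abs_of_nonneg (by positivity : 0 ≤ 1 / (n : ℝ))] at h5
      exact h5
    · intro t ht
      rw [uIoc_of_le hle] at ht
      exact h i hi' t ⟨ht.1.le, ht.2⟩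
  refine (Finset.abs_sum_le_sum_abs _ _).trans ((Finset.sum_le_sum h3).trans ?_)
  rw [Finset.sum_const, Finset.card_range, nsmul_eq_mul]
  refine le_of_eq ?_
  field_simp

private theorem agr_lip {u : ℝ → Eu 2 → Eu 2} {H : ℝ → Eu 2 → ℝ} {L : ℝ} (hL : 0 ≤ L)
    (h1 : ∀ t ∈ Icc (0 : ℝ) 1, ∀ x, ‖u t x‖ ≤ L)
    (h2 : ∀ t ∈ Icc (0 : ℝ) 1, ∀ t' ∈ Icc (0 : ℝ) 1, ∀ x x',
      ‖u t x - u t' x'‖ ≤ L * (|t - t'| + ‖x - x'‖))
    (h3 : ∀ t ∈ Icc (0 : ℝ) 1, ∀ t' ∈ Icc (0 : ℝ) 1, ∀ x x',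
      |H t x - H t' x'| ≤ L * (|t - t'| + ‖x - x'‖))
    {a t t' : ℝ} (ht : t ∈ Icc (0 : ℝ) 1) (ht' : t' ∈ Icc (0 : ℝ) 1) {x x' : Eu 2}
    (hx : |x 0 - a| ≤ L) :
    |agr u H a t x - agr u H a t' x'| ≤ (L * L + 2 * L) * (|t - t'| + ‖x - x'‖) := by
  have e1 : agr u H a t x - agr u H a t' x' = (x 0 - a) * (u t x 1 - u t' x' 1) +
      (x 0 - x' 0) * u t' x' 1 + (H t x - H t' x') := by
    simp only [agr]
    ring
  have b1 : |u t x 1 - u t' x' 1| ≤ L * (|t - t'| + ‖x - x'‖) :=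
    (PiLp.norm_apply_le (u t x - u t' x') 1).trans (h2 t ht t' ht' x x')
  have b2 : |x 0 - x' 0| ≤ ‖x - x'‖ := PiLp.norm_apply_le (x - x') 0
  have b3 : |u t' x' 1| ≤ L := (PiLp.norm_apply_le (u t' x') 1).trans (h1 t' ht' x')
  have b4 := h3 t ht t' ht' x x'
  have c1 : |(x 0 - a) * (u t x 1 - u t' x' 1)| ≤ L * (L * (|t - t'| + ‖x - x'‖)) := by
    rw [abs_mul]
    exact mul_le_mul hx b1 (abs_nonneg _) hL
  have c2 : |(x 0 - x' 0) * u t' x' 1| ≤ ‖x - x'‖ * L := by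
    rw [abs_mul]
    exact mul_le_mul b2 b3 (abs_nonneg _) (norm_nonneg _)
  have c3 : 0 ≤ L * |t - t'| := mul_nonneg hL (abs_nonneg _)
  rw [e1]
  refine (abs_add_three _ _ _).trans ?_
  nlinarith [c1, c2, c3, b4]

private theorem pt_cont (a : ℝ) : Continuous fun s : ℝ => pt a s := by
  unfold pt
  fun_prop

private theorem agr_cont {u : ℝ → Eu 2 → Eu 2} {H : ℝ → Eu 2 → ℝ} {φ : ℝ → Eu 2 → Eu 2}
    (h : HFl u H φ) (a : ℝ) :
    Continuous fun z : ℝ × ℝ => agr u H a z.2 (φ z.2 (pt a z.1)) := by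
  have c1 : Continuous fun z : ℝ × ℝ => pt a z.1 := (pt_cont a).comp continuous_fst
  have c2 : Continuous fun z : ℝ × ℝ => φ z.2 (pt a z.1) :=
    h.fs.continuous.comp (continuous_snd.prodMk c1)
  have c3 : Continuous fun z : ℝ × ℝ => u z.2 (φ z.2 (pt a z.1)) :=
    h.us.continuous.comp (continuous_snd.prodMk c2)
  have c4 : Continuous fun z : ℝ × ℝ => H z.2 (φ z.2 (pt a z.1)) :=
    h.Hs.continuous.comp (continuous_snd.prodMk c2)
  have c5 : Continuous fun z : ℝ × ℝ => (φ z.2 (pt a z.1)) 0 :=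
    (EuclideanSpace.proj (𝕜 := ℝ) (0 : Fin 2)).continuous.comp c2
  have c6 : Continuous fun z : ℝ × ℝ => (u z.2 (φ z.2 (pt a z.1))) 1 :=
    (EuclideanSpace.proj (𝕜 := ℝ) (1 : Fin 2)).continuous.comp c3
  exact ((c5.sub continuous_const).mul c6).add c4

private theorem orb_bd {u : ℝ → Eu 2 → Eu 2} {L : ℝ}
    (h1 : ∀ t ∈ Icc (0 : ℝ) 1, ∀ x, ‖u t x‖ ≤ L) {n : ℕ} (hn : 0 < n) {Q p : ℕ → ℝ}
    (ho : Orb u n Q p) (i : ℕ) (hi : i ≤ n) :
    |Q i - Q 0| ≤ L * (i / n) ∧ |p i - p 0| ≤ L * (i / n) := by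
  have hn' : (0 : ℝ) < n := Nat.cast_pos.2 hn
  induction i with
  | zero => simp
  | succ i ih =>
    obtain ⟨a1, a2⟩ := ih (by omega)
    have hi' : i < n := by omega
    have ht : (i : ℝ) / n ∈ Icc (0 : ℝ) 1 :=
      ⟨by positivity, (div_le_one hn').2 (by exact_mod_cast hi'.le)⟩
    have e1 := ho.hQ i hi'
    have e2 := ho.hp i hi'
    have b := h1 _ ht (pt (Q (i + 1)) (p i))
    have b0 : |1 / (n : ℝ) * u (i / n) (pt (Q (i + 1)) (p i)) 0| ≤ 1 / n * L := by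
      rw [abs_mul, abs_of_nonneg (by positivity : 0 ≤ 1 / (n : ℝ))]
      exact mul_le_mul_of_nonneg_left ((PiLp.norm_apply_le _ _).trans b) (by positivity)
    have b1 : |1 / (n : ℝ) * u (i / n) (pt (Q (i + 1)) (p i)) 1| ≤ 1 / n * L := by
      rw [abs_mul, abs_of_nonneg (by positivity : 0 ≤ 1 / (n : ℝ))]
      exact mul_le_mul_of_nonneg_left ((PiLp.norm_apply_le _ _).trans b) (by positivity)
    have hsum : L * (((i + 1 : ℕ) : ℝ) / n) = L * (i / n) + 1 / n * L := by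
      push_cast
      ring
    rw [hsum]
    constructor
    · have : Q (i + 1) - Q 0 = (Q i - Q 0) +
          1 / (n : ℝ) * u (i / n) (pt (Q (i + 1)) (p i)) 0 := by linarith
      rw [this]
      exact (abs_add_le _ _).trans (add_le_add a1 b0)
    · have : p (i + 1) - p 0 = (p i - p 0) +
          1 / (n : ℝ) * u (i / n) (pt (Q (i + 1)) (p i)) 1 := by linarith
      rw [this]
      exact (abs_add_le _ _).trans (add_le_add a2 b1)

private theorem one_n {u : ℝ → Eu 2 → Eu 2} {H : ℝ → Eu 2 → ℝ} {φ : ℝ → Eu 2 → Eu 2}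
    (h : HFl u H φ) (a y : ℝ) (g : ℝ → ℝ)
    (hg : ∀ t ∈ Icc (0 : ℝ) 1, ∀ r, |H t (pt a r)| ≤ g t) :
    ∃ L D : ℝ, ∀ n : ℕ, 0 < n → ∃ s, |s - y| ≤ L ∧ |φ 1 (pt a s) 1 - y| ≤ D / n ∧
      |act u H φ a s| ≤ ∑ i ∈ Finset.range n, 1 / n * g (i / n) + D / n := by
  obtain ⟨L, hL, h1, h2, h3, -⟩ := h.bnd
  obtain ⟨C, hC, hG⟩ := gron h
  refine ⟨L, C + (L * L + 2 * L) * (1 + C), fun n hn => ?_⟩
  obtain ⟨Q, p, ho, hQ, hp, hs⟩ := discrete h a y g hg n hn
  have hn' : (0 : ℝ) < n := Nat.cast_pos.2 hn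
  have hK : 0 ≤ (L * L + 2 * L) * (1 + C) := by positivity
  refine ⟨p 0, ?_, ?_, ?_⟩
  · have := (orb_bd h1 hn ho n le_rfl).2
    rw [hp, div_self hn'.ne', mul_one] at this
    rwa [abs_sub_comm]
  · have h4 := (hG n hn Q p ho 0 hn 0 ⟨by simp, by positivity⟩).2
    have h5 : |(pt (Q n) (p n)) 1 - (φ 1 (pt (Q 0) (p 0))) 1| ≤ C / n :=
      (PiLp.norm_apply_le (pt (Q n) (p n) - φ 1 (pt (Q 0) (p 0))) 1).trans h4
    have h6 : (pt (Q n) (p n)) 1 = y := hp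
    rw [h6, hQ, abs_sub_comm] at h5
    refine h5.trans ?_
    exact div_le_div_of_nonneg_right (by linarith) hn'.le
  · have hc : Continuous fun t => agr u H a t (φ t (pt a (p 0))) :=
      (agr_cont h a).comp (Continuous.prodMk continuous_const continuous_id)
    have h4 := riem hn hc (fun i => agr u H a (i / n) (pt (Q (i + 1)) (p i)))
      (e := (L * L + 2 * L) * (1 + C) / n) ?_
    · have h5 : |act u H φ a (p 0)| ≤
          |∑ i ∈ Finset.range n, 1 / n * agr u H a (i / n) (pt (Q (i + 1)) (p i))| +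
          (L * L + 2 * L) * (1 + C) / n := by
        have h6 := abs_sub_abs_le_abs_sub (act u H φ a (p 0))
          (∑ i ∈ Finset.range n, 1 / n * agr u H a (i / n) (pt (Q (i + 1)) (p i)))
        rw [abs_sub_comm] at h4
        have h7 : |act u H φ a (p 0) -
            ∑ i ∈ Finset.range n, 1 / n * agr u H a (i / n) (pt (Q (i + 1)) (p i))| ≤
            (L * L + 2 * L) * (1 + C) / n := h4
        linarith
      have h8 : (L * L + 2 * L) * (1 + C) / n ≤ (C + (L * L + 2 * L) * (1 + C)) / n :=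
        div_le_div_of_nonneg_right (by linarith) hn'.le
      linarith
    · intro i hi t ht
      have hi1 : (i : ℝ) + 1 ≤ n := by exact_mod_cast hi
      have ht0 : (0 : ℝ) ≤ (i : ℝ) / n := by positivity
      have ht1 : ((i : ℝ) + 1) / n ≤ 1 := (div_le_one hn').2 hi1
      have hti : (i : ℝ) / n ≤ ((i : ℝ) + 1) / n := ht.1.trans ht.2
      have hlen : ((i : ℝ) + 1) / n - (i : ℝ) / n = 1 / n := by ring
      have hx : |(pt (Q (i + 1)) (p i)) 0 - a| ≤ L := by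
        have h5 := (orb_bd h1 hn ho (i + 1) hi).1
        have h6 : (pt (Q (i + 1)) (p i)) 0 = Q (i + 1) := rfl
        rw [h6, ← hQ]
        refine h5.trans ?_
        push_cast
        calc L * (((i : ℝ) + 1) / n) ≤ L * 1 := mul_le_mul_of_nonneg_left ht1 hL
          _ = L := mul_one L
      have h5 := agr_lip (H := H) (a := a) hL h1 h2 h3 (t := (i : ℝ) / n) (t' := t)
        ⟨ht0, hti.trans ht1⟩ ⟨ht0.trans ht.1, ht.2.trans ht1⟩ (x := pt (Q (i + 1)) (p i))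
        (x' := φ t (pt a (p 0))) hx
      refine h5.trans ?_
      have h6 := (hG n hn Q p ho i hi t ht).1
      rw [hQ] at h6
      have h7 : |(i : ℝ) / n - t| ≤ 1 / n := by
        rw [abs_sub_comm, abs_of_nonneg (by linarith [ht.1])]
        linarith [ht.2]
      calc (L * L + 2 * L) * (|(i : ℝ) / n - t| + ‖pt (Q (i + 1)) (p i) - φ t (pt a (p 0))‖)
          ≤ (L * L + 2 * L) * (1 / n + C / n) :=
            mul_le_mul_of_nonneg_left (add_le_add h7 h6) (by positivity)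
        _ = (L * L + 2 * L) * (1 + C) / n := by ring

private theorem riem_lim {g : ℝ → ℝ} (hg : Continuous g) :
    Filter.Tendsto (fun n : ℕ => ∑ i ∈ Finset.range (n + 1),
      1 / ((n + 1 : ℕ) : ℝ) * g (i / ((n + 1 : ℕ) : ℝ))) Filter.atTop
      (nhds (∫ t in (0 : ℝ)..1, g t)) := by
  rw [Metric.tendsto_atTop]
  intro ε hε
  have huc : UniformContinuousOn g (Icc 0 1) :=
    isCompact_Icc.uniformContinuousOn_of_continuous hg.continuousOn
  obtain ⟨δ, hδ, hu⟩ := Metric.uniformContinuousOn_iff.1 huc (ε / 2) (by positivity)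
  obtain ⟨N, hN⟩ := exists_nat_one_div_lt hδ
  refine ⟨N, fun n hn => ?_⟩
  rw [Real.dist_eq]
  have hn' : (0 : ℝ) < ((n + 1 : ℕ) : ℝ) := Nat.cast_pos.2 (Nat.succ_pos n)
  have hlt : 1 / ((n + 1 : ℕ) : ℝ) < δ := by
    refine lt_of_le_of_lt ?_ hN
    apply one_div_le_one_div_of_le (by positivity)
    push_cast
    have : (N : ℝ) ≤ n := by exact_mod_cast hn
    linarith
  refine lt_of_le_of_lt (riem (Nat.succ_pos n) hg (fun i => g (i / ((n + 1 : ℕ) : ℝ)))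
    (e := ε / 2) ?_) (by linarith)
  intro i hi t ht
  have hi1 : (i : ℝ) + 1 ≤ ((n + 1 : ℕ) : ℝ) := by exact_mod_cast hi
  have ht0 : (0 : ℝ) ≤ (i : ℝ) / ((n + 1 : ℕ) : ℝ) := by positivity
  have ht1 : ((i : ℝ) + 1) / ((n + 1 : ℕ) : ℝ) ≤ 1 := (div_le_one hn').2 hi1
  have hti : (i : ℝ) / ((n + 1 : ℕ) : ℝ) ≤ ((i : ℝ) + 1) / ((n + 1 : ℕ) : ℝ) := ht.1.trans ht.2
  have hlen : ((i : ℝ) + 1) / ((n + 1 : ℕ) : ℝ) - (i : ℝ) / ((n + 1 : ℕ) : ℝ) =
      1 / ((n + 1 : ℕ) : ℝ) := by ring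
  have h7 : |(i : ℝ) / ((n + 1 : ℕ) : ℝ) - t| ≤ 1 / ((n + 1 : ℕ) : ℝ) := by
    rw [abs_sub_comm, abs_of_nonneg (by linarith [ht.1])]
    linarith [ht.2]
  have h8 := hu ((i : ℝ) / ((n + 1 : ℕ) : ℝ)) ⟨ht0, hti.trans ht1⟩ t
    ⟨ht0.trans ht.1, ht.2.trans ht1⟩ (by rw [Real.dist_eq]; exact lt_of_le_of_lt h7 hlt)
  rw [Real.dist_eq] at h8
  exact h8.le

theorem key {u : ℝ → Eu 2 → Eu 2} {H : ℝ → Eu 2 → ℝ} {φ : ℝ → Eu 2 → Eu 2} (h : HFl u H φ)
    (a y : ℝ) (g : ℝ → ℝ) (hgc : Continuous g)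
    (hg : ∀ t ∈ Icc (0 : ℝ) 1, ∀ r, |H t (pt a r)| ≤ g t) :
    ∃ s, φ 1 (pt a s) 1 = y ∧ |act u H φ a s| ≤ ∫ t in (0 : ℝ)..1, g t := by
  obtain ⟨L, D, hone⟩ := one_n h a y g hg
  choose s hs1 hs2 hs3 using fun n : ℕ => hone (n + 1) (Nat.succ_pos n)
  have hmem : ∀ n, s n ∈ Icc (y - L) (y + L) := by
    intro n
    have := abs_le.1 (hs1 n)
    exact ⟨by linarith [this.1], by linarith [this.2]⟩
  obtain ⟨s0, -, ψ, hψ, hlim⟩ := isCompact_Icc.tendsto_subseq hmem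
  have hD : Filter.Tendsto (fun n : ℕ => D / ((n + 1 : ℕ) : ℝ)) Filter.atTop (nhds 0) := by
    have h1 : Filter.Tendsto (fun n : ℕ => D * (1 / ((n : ℝ) + 1))) Filter.atTop
        (nhds (D * 0)) := tendsto_one_div_add_atTop_nhds_zero_nat.const_mul D
    rw [mul_zero] at h1
    refine h1.congr fun n => ?_
    push_cast
    ring
  have c1 : Continuous fun s : ℝ => φ 1 (pt a s) 1 := by
    have c2 : Continuous fun s : ℝ => φ 1 (pt a s) :=
      h.fs.continuous.comp (continuous_const.prodMk (pt_cont a))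
    exact (EuclideanSpace.proj (𝕜 := ℝ) (1 : Fin 2)).continuous.comp c2
  have c3 : Continuous fun s : ℝ => act u H φ a s :=
    intervalIntegral.continuous_parametric_intervalIntegral_of_continuous' (agr_cont h a) 0 1
  refine ⟨s0, ?_, ?_⟩
  · have h1 : Filter.Tendsto (fun k => |φ 1 (pt a (s (ψ k))) 1 - y|) Filter.atTop
        (nhds |φ 1 (pt a s0) 1 - y|) :=
      (((c1.sub continuous_const).abs).tendsto s0).comp hlim
    have h2 : |φ 1 (pt a s0) 1 - y| ≤ 0 :=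
      le_of_tendsto_of_tendsto' h1 (hD.comp hψ.tendsto_atTop) fun k => hs2 (ψ k)
    have h3 : φ 1 (pt a s0) 1 - y = 0 := abs_nonpos_iff.1 h2
    linarith
  · have h1 : Filter.Tendsto (fun k => |act u H φ a (s (ψ k))|) Filter.atTop
        (nhds |act u H φ a s0|) := ((c3.abs).tendsto s0).comp hlim
    have h2 := ((riem_lim hgc).add hD).comp hψ.tendsto_atTop
    rw [add_zero] at h2
    exact le_of_tendsto_of_tendsto' h1 h2 fun k => hs3 (ψ k)

end

end TH
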