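import Pool.Agent.TH.Defs
import Pool.Agent.TH.Lim
import Pool.Agent.TH.Act
import Pool.Agent.TH.Bas
import Pool.Agent.TH.Ham
import Pool.Agent.TH.Osf

/-!
# The front

The front of a line under an area preserving diffeomorphism of the torus, and the exchange of the
coordinates.
-/

set_option autoImplicit false
set_option maxHeartbeats 400000

open MeasureTheory Set Pool.Agent.H68.VD
open scoped ENNReal ContDiff

namespace TH

noncomputable section

theorem front0 {φ : ℝ → Eu 2 → Eu 2} (h : FPath lat φ) (h0 : φ 0 = id) (a : ℝ) :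
    ∃ A : ℝ → ℝ, (∀ s, HasDerivAt A
      ((nrm (φ 1) (pt a s) 0 - a) * deriv (fun r => nrm (φ 1) (pt a r) 1) s) s) ∧
      ∀ y, ∃ s, nrm (φ 1) (pt a s) 1 = y ∧ |A s| ≤ Ebd 0 φ a := by
  obtain ⟨hψ, hψ0, hm, hv⟩ := frame h h0
  obtain ⟨H, hH, hfl⟩ := exists_ham hψ hψ0 hm a
  have hdc : Continuous fun t => dsp (φ t) :=
    continuous_iff_continuousAt.mpr fun t => (dsp_deriv h t).continuousAt
  have hd0 : Continuous fun t => dsp (φ t) 0 :=
    (EuclideanSpace.proj (0 : Fin 2) : Eu 2 →L[ℝ] ℝ).continuous.comp hdc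
  have hgc : Continuous fun t => 2 * osf 0 (vel φ t) (a + dsp (φ t) 0) :=
    continuous_const.mul
      ((osf_cont 0 h).comp (continuous_id.prodMk (continuous_const.add hd0)))
  have hg : ∀ t ∈ Icc (0 : ℝ) 1, ∀ r, |H t (pt a r)| ≤ 2 * osf 0 (vel φ t) (a + dsp (φ t) 0) := by
    intro t _ r
    rw [hfl t r, show vel (fun t => nrm (φ t)) t =
      fun x => vel φ t (x + dsp (φ t)) - mn (vel φ t) from funext fun x => hv t x]
    have hs : ContDiff ℝ ∞ (vel φ t) :=
      (vel_smooth h).comp (contDiff_prodMk_right t)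
    exact flx_shift hs (vel_per h t) (vel_div h t) (dsp (φ t)) a r
  refine ⟨act (vel fun t => nrm (φ t)) H (fun t => nrm (φ t)) a, fun s => act_deriv hH a s,
    fun y => ?_⟩
  obtain ⟨s, hs1, hs2⟩ := key hH a y _ hgc hg
  refine ⟨s, hs1, hs2.trans (le_of_eq ?_)⟩
  rw [intervalIntegral.integral_const_mul]
  rfl

/-- the exchange of the coordinates as a linear isometry -/
private def swI : Eu 2 ≃ₗᵢ[ℝ] Eu 2 :=
  LinearIsometryEquiv.piLpCongrLeft 2 ℝ ℝ (Equiv.swap (0 : Fin 2) 1)

private theorem swI_apply (x : Eu 2) : swI x = sw x := by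
  ext i
  rw [swI, LinearIsometryEquiv.piLpCongrLeft_apply]
  fin_cases i <;> simp [sw, pt, Equiv.piCongrLeft'_apply]

private theorem sw_sw (x : Eu 2) : sw (sw x) = x := by
  ext i
  fin_cases i <;> simp [sw, pt]

private theorem sw_zero (x : Eu 2) : sw x 0 = x 1 := by simp [sw, pt]

private theorem sw_one (x : Eu 2) : sw x 1 = x 0 := by simp [sw, pt]

private theorem sw_add (x y : Eu 2) : sw (x + y) = sw x + sw y := by
  rw [← swI_apply, ← swI_apply, ← swI_apply, map_add]

private theorem sw_sub (x y : Eu 2) : sw (x - y) = sw x - sw y := by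
  rw [← swI_apply, ← swI_apply, ← swI_apply, map_sub]

private theorem sw_iv (k : Fin 2 → ℤ) : sw (iv k) = iv ![k 1, k 0] := by
  ext i
  fin_cases i <;> simp [sw, pt, iv]

private theorem sw_bij : Function.Bijective sw :=
  Function.bijective_iff_has_inverse.mpr ⟨sw, sw_sw, sw_sw⟩

private theorem cube_sw : (fun x => swI x) ⁻¹' cube 2 = cube 2 := by
  ext x
  simp only [mem_preimage, swI_apply, cube, Set.mem_ofPred_eq]
  constructor
  · intro h i
    fin_cases i
    · simpa [sw_one] using h 1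
    · simpa [sw_zero] using h 0
  · intro h i
    fin_cases i
    · simpa [sw_zero] using h 1
    · simpa [sw_one] using h 0

/-- integrals over the cube do not change under the exchange of the coordinates -/
private theorem int_sw (u : Eu 2 → Eu 2) :
    ∫ x in cube 2, sw (u (sw x)) = sw (∫ x in cube 2, u x) := by
  have h1 : ∫ x in cube 2, sw (u (sw x)) = swI (∫ x in cube 2, u (sw x)) := by
    rw [show (fun x => sw (u (sw x))) = fun x => swI.toContinuousLinearEquiv (u (sw x)) from
      funext fun x => (swI_apply _).symm]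
    exact ContinuousLinearEquiv.integral_comp_comm swI.toContinuousLinearEquiv _
  have h2 : ∫ x in cube 2, u (sw x) = ∫ x in cube 2, u x := by
    have h3 := (swI.measurePreserving).setIntegral_preimage_emb
      swI.toHomeomorph.measurableEmbedding u (cube 2)
    rw [cube_sw] at h3
    rw [← h3]
    refine integral_congr_ae (Filter.Eventually.of_forall fun x => ?_)
    simp only [swI_apply]
  rw [h1, h2, swI_apply]

private theorem mn_sw (u : Eu 2 → Eu 2) : mn (fun x => sw (u (sw x))) = sw (mn u) :=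
  int_sw u

private theorem dsp_sw (f : Eu 2 → Eu 2) : dsp (fun x => sw (f (sw x))) = sw (dsp f) := by
  unfold dsp
  rw [← int_sw]
  refine integral_congr_ae (Filter.Eventually.of_forall fun x => ?_)
  simp only [sw_sub, sw_sw]

private theorem osf_sw (u : Eu 2 → Eu 2) (a : ℝ) :
    osf 0 (fun x => sw (u (sw x))) a = osf 1 u a := by
  have h1 : ∀ y, flx 0 (fun x => sw (u (sw x))) a y = flx 1 u a y := by
    intro y
    unfold flx
    rw [mn_sw]
    simp only [sw_zero]
    refine intervalIntegral.integral_congr fun r _ => ?_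
    have h2 : sw (ln 0 a r) = ln 1 a r := by
      ext i
      fin_cases i <;> simp [sw, pt, ln]
    simp only [h2]
  unfold osf
  simp only [h1]

/-- exchange of the coordinates -/
theorem swap {φ : ℝ → Eu 2 → Eu 2} (h : FPath lat φ) :
    FPath lat (fun t x => sw (φ t (sw x))) ∧
      (∀ a, Ebd 0 (fun t x => sw (φ t (sw x))) a = Ebd 1 φ a) ∧
      ∀ t x, nrm (fun x => sw (φ t (sw x))) x = sw (nrm (φ t) (sw x)) := by
  have hswd : ContDiff ℝ ∞ (sw : Eu 2 → Eu 2) := by
    rw [show (sw : Eu 2 → Eu 2) = fun x => swI x from funext fun x => (swI_apply x).symm]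
    exact swI.contDiff
  have hswf : ∀ x, HasFDerivAt sw (swI.toContinuousLinearEquiv : Eu 2 →L[ℝ] Eu 2) x := by
    intro x
    rw [show (sw : Eu 2 → Eu 2) = fun x => swI x from funext fun x => (swI_apply x).symm]
    exact swI.toContinuousLinearEquiv.hasFDerivAt
  have hbij : ∀ t, Function.Bijective fun x => sw (φ t (sw x)) := fun t =>
    sw_bij.comp ((h.bij t).comp sw_bij)
  have hvel : ∀ t, vel (fun t x => sw (φ t (sw x))) t = fun x => sw (vel φ t (sw x)) := by
    intro t
    funext x
    have h1 : Function.invFun (fun x => sw (φ t (sw x))) x =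
        sw (Function.invFun (φ t) (sw x)) := by
      apply (hbij t).1
      rw [Function.rightInverse_invFun (hbij t).2 x]
      simp only [sw_sw]
      rw [Function.rightInverse_invFun (h.bij t).2 (sw x), sw_sw]
    unfold vel
    rw [h1]
    simp only [sw_sw]
    have h2 : DifferentiableAt ℝ (fun τ => φ τ (Function.invFun (φ t) (sw x))) t := by
      have h3 : ContDiff ℝ ∞ (fun τ => φ τ (Function.invFun (φ t) (sw x))) :=
        h.smooth.comp (contDiff_prodMk_left _)
      exact (h3.differentiable (by simp)).differentiableAt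
    have h4 := (hswf _).comp_hasDerivAt t h2.hasDerivAt
    exact h4.deriv.trans (swI_apply _)
  refine ⟨⟨?_, hbij, ?_, ?_⟩, ?_, ?_⟩
  · have h1 : ContDiff ℝ ∞ fun q : ℝ × Eu 2 => (q.1, sw q.2) :=
      contDiff_fst.prodMk (hswd.comp contDiff_snd)
    exact hswd.comp (h.smooth.comp h1)
  · intro t x
    have hφ : DifferentiableAt ℝ (φ t) (sw x) := by
      have h3 : ContDiff ℝ ∞ (φ t) := h.smooth.comp (contDiff_prodMk_right t)
      exact (h3.differentiable (by simp)).differentiableAt
    have h4 : HasFDerivAt (fun x => sw (φ t (sw x)))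
        ((swI.toContinuousLinearEquiv : Eu 2 →L[ℝ] Eu 2).comp
          ((fderiv ℝ (φ t) (sw x)).comp (swI.toContinuousLinearEquiv : Eu 2 →L[ℝ] Eu 2))) x :=
      (hswf _).comp x (hφ.hasFDerivAt.comp x (hswf x))
    rw [h4.fderiv]
    have h5 : (swI.toContinuousLinearEquiv : Eu 2 →L[ℝ] Eu 2).det *
        (swI.toContinuousLinearEquiv : Eu 2 →L[ℝ] Eu 2).det = 1 := by
      unfold ContinuousLinearMap.det
      rw [← LinearMap.det_comp]
      have h6 : ((swI.toContinuousLinearEquiv : Eu 2 →L[ℝ] Eu 2) : Eu 2 →ₗ[ℝ] Eu 2) ∘ₗ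
          ((swI.toContinuousLinearEquiv : Eu 2 →L[ℝ] Eu 2) : Eu 2 →ₗ[ℝ] Eu 2) =
          LinearMap.id := by
        apply LinearMap.ext
        intro v
        show swI (swI v) = v
        rw [swI_apply, swI_apply, sw_sw]
      rw [h6, LinearMap.det_id]
    have h7 : ∀ A B C : Eu 2 →L[ℝ] Eu 2, (A.comp (B.comp C)).det = A.det * C.det * B.det := by
      intro A B C
      unfold ContinuousLinearMap.det
      have h8 : ((A.comp (B.comp C) : Eu 2 →L[ℝ] Eu 2) : Eu 2 →ₗ[ℝ] Eu 2) =
          (A : Eu 2 →ₗ[ℝ] Eu 2) ∘ₗ ((B : Eu 2 →ₗ[ℝ] Eu 2) ∘ₗ (C : Eu 2 →ₗ[ℝ] Eu 2)) := rfl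
      rw [h8, LinearMap.det_comp, LinearMap.det_comp]
      ring
    rw [h7, h5, one_mul, h.det]
  · rintro t g ⟨k, rfl⟩ x
    show sw (φ t (sw (x + iv k))) = sw (φ t (sw x)) + iv k
    rw [sw_add, sw_iv]
    have h1 : φ t (sw x + iv ![k 1, k 0]) = φ t (sw x) + iv ![k 1, k 0] :=
      h.equi t (fun x => x + iv ![k 1, k 0]) ⟨_, rfl⟩ (sw x)
    rw [h1, sw_add, sw_iv]
    congr 2
    funext i
    fin_cases i <;> rfl
  · intro a
    unfold Ebd
    congr 1
    refine intervalIntegral.integral_congr fun t _ => ?_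
    simp only [hvel, dsp_sw, osf_sw, sw_zero]
  · intro t x
    unfold nrm
    rw [dsp_sw, sw_sub]

end

end TH
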