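import Mathlib
import Pool.Agent.TH.Defs

/-!
# Project TH (MP_b0bf68_gt), row TH-14: one dimensional Sard and isolated points
-/

set_option autoImplicit false

open MeasureTheory Set Pool.Agent.H68.VD
open scoped ENNReal ContDiff

namespace TH

noncomputable section

private theorem srd_closed {q η : ℝ → ℝ} {a M : ℝ} (hq : Continuous q) (hη : Continuous η)
    (hM : ∀ s, |η s - s| ≤ M) : IsClosed {y : ℝ | ∃ s, η s = y ∧ q s = a} := by
  refine isClosed_of_closure_subset fun y hy => ?_
  obtain ⟨u, hu, hlim⟩ := mem_closure_iff_seq_limit.1 hy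
  choose s hs hqs using hu
  have hb : ∃ R : ℝ, ∀ n, s n ∈ Icc (-R) R := by
    obtain ⟨R, hR⟩ := (hlim.norm.bddAbove_range)
    refine ⟨R + M, fun n => ?_⟩
    have h1 : |u n| ≤ R := hR ⟨n, rfl⟩
    have h2 := hM (s n)
    rw [hs n] at h2
    rw [abs_le] at h1 h2
    constructor <;> linarith [h1.1, h1.2, h2.1, h2.2]
  obtain ⟨R, hR⟩ := hb
  obtain ⟨z, -, φ, hφ, hz⟩ := (isCompact_Icc (a := -R) (b := R)).tendsto_subseq hR
  refine ⟨z, ?_, ?_⟩
  · have h1 : Filter.Tendsto (fun n => η (s (φ n))) Filter.atTop (nhds (η z)) :=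
      (hη.tendsto z).comp hz
    have h2 : Filter.Tendsto (fun n => η (s (φ n))) Filter.atTop (nhds y) := by
      have : (fun n => η (s (φ n))) = u ∘ φ := by
        funext n; exact hs (φ n)
      rw [this]
      exact hlim.comp hφ.tendsto_atTop
    exact tendsto_nhds_unique h1 h2
  · have h1 : Filter.Tendsto (fun n => q (s (φ n))) Filter.atTop (nhds (q z)) :=
      (hq.tendsto z).comp hz
    have h2 : Filter.Tendsto (fun n => q (s (φ n))) Filter.atTop (nhds a) := by
      have : (fun n => q (s (φ n))) = fun _ => a := by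
        funext n; exact hqs (φ n)
      rw [this]
      exact tendsto_const_nhds
    exact tendsto_nhds_unique h1 h2

private theorem srd_null {η : ℝ → ℝ} (hη : ContDiff ℝ 1 η) :
    volume (η '' {s | deriv η s = 0}) = 0 := by
  refine addHaar_image_eq_zero_of_det_fderivWithin_eq_zero volume
    (f' := fun s => fderiv ℝ η s) (fun x _ => ?_) (fun x hx => ?_)
  · exact ((hη.differentiable (by norm_num)).differentiableAt.hasFDerivAt).hasFDerivWithinAt
  · have h : fderiv ℝ η x = 0 := by
      ext
      simpa using hx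
    rw [h]
    have : ((0 : ℝ →L[ℝ] ℝ)).det = LinearMap.det (0 : ℝ →ₗ[ℝ] ℝ) := rfl
    rw [this]
    exact LinearMap.det_zero''

theorem sard1 {q η A : ℝ → ℝ} {a c M : ℝ} (hq : Continuous q) (hη : ContDiff ℝ 1 η)
    (hA : ∀ s, HasDerivAt A ((q s - a) * deriv η s) s) (hM : ∀ s, |η s - s| ≤ M)
    (hc : ∀ y, ∃ s, η s = y ∧ A s = c) : ∀ y, ∃ s, η s = y ∧ q s = a := by
  set Y : Set ℝ := {y : ℝ | ∃ s, η s = y ∧ q s = a} with hY
  have hcl : IsClosed Y := srd_closed hq hη.continuous hM
  set S : Set ℝ := {s | A s = c} with hS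
  set D : Set ℝ := {x | x ∈ S ∧ nhdsWithin x (S ∩ Ioi x) = ⊥} with hD
  have hDc : D.Countable := countable_setOfPred_isolated_right_within
  have hsub : Yᶜ ⊆ η '' D ∪ η '' {s | deriv η s = 0} := by
    intro y hy
    obtain ⟨s, hs, hAs⟩ := hc y
    by_cases hd : s ∈ D
    · exact Or.inl ⟨s, hd, hs⟩
    · right
      refine ⟨s, ?_, hs⟩
      by_contra hne
      have hqa : q s - a ≠ 0 := by
        intro h
        exact hy ⟨s, hs, by linarith⟩
      have hne' : (q s - a) * deriv η s ≠ 0 := mul_ne_zero hqa hne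
      have hev := (hA s).eventually_ne (c := c) hne'
      refine hd ⟨hAs, ?_⟩
      rw [← Filter.empty_mem_iff_bot, mem_nhdsWithin_iff_eventually]
      rw [eventually_nhdsWithin_iff] at hev
      filter_upwards [hev] with z hz hzS
      exact hz (ne_of_gt hzS.2) hzS.1
  have hnull : volume Yᶜ = 0 := by
    refine measure_mono_null hsub (measure_union_null ?_ (srd_null hη))
    exact (hDc.image η).measure_zero _
  have hempty : Yᶜ = ∅ := (hcl.isOpen_compl.measure_eq_zero_iff volume).1 hnull
  intro y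
  have : y ∈ Y := by
    rw [compl_empty_iff] at hempty
    rw [hempty]
    trivial
  exact this

end

end TH
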