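import Pool.Agent.TH.Defs
import Pool.Agent.TH.Srd

/-!
# Project TH (MP_b0bf68_gt), row TH-15: invariant lines, passage to the limit in the front
(helper8)
-/

set_option autoImplicit false
set_option linter.all false

open MeasureTheory Set Pool.Agent.H68.VD
open scoped ENNReal ContDiff

namespace TH

noncomputable section

private theorem Inv_pt_contDiff (a : ℝ) : ContDiff ℝ ∞ (fun s : ℝ => pt a s) := by
  have h : (fun s : ℝ => pt a s) = fun s : ℝ => pt a 0 + s • pt 0 1 := by
    funext s
    ext i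
    fin_cases i <;> simp [pt]
  rw [h]
  exact contDiff_const.add (contDiff_id.smul contDiff_const)

private theorem Inv_pt_add (a y : ℝ) (n : ℤ) : pt a (y + n) = pt a y + iv ![0, n] := by
  ext i
  fin_cases i <;> simp [pt, iv]

private theorem Inv_pt_ext {x : Eu 2} {a y : ℝ} (h0 : x 0 = a) (h1 : x 1 = y) : x = pt a y := by
  ext i
  fin_cases i
  · simpa [pt] using h0
  · simpa [pt] using h1

theorem inv_line {F : Eu 2 → Eu 2} (hF : Continuous F) (hb : Function.Bijective F)
    (hi : Continuous (Function.invFun F)) (he : ∀ x (k : Fin 2 → ℤ), F (x + iv k) = F x + iv k) {a : ℝ}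
    (h : ∀ y, ∃ s, F (pt a s) 1 = y ∧ F (pt a s) 0 = a) : ∀ s, F (pt a s) 0 = a := by
  have hGF : ∀ x, Function.invFun F (F x) = x := Function.leftInverse_invFun hb.injective
  have hFG : ∀ x, F (Function.invFun F x) = x := Function.rightInverse_invFun hb.surjective
  have hGe : ∀ x (k : Fin 2 → ℤ), Function.invFun F (x + iv k) = Function.invFun F x + iv k := by
    intro x k
    apply hb.injective
    rw [hFG, he, hFG]
  have h1 : ∀ y, Function.invFun F (pt a y) = pt a ((Function.invFun F (pt a y)) 1) := by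
    intro y
    obtain ⟨s, hs1, hs0⟩ := h y
    have h2 : F (pt a s) = pt a y := Inv_pt_ext hs0 hs1
    rw [← h2, hGF]
    simp [pt]
  have hcont : Continuous (fun y : ℝ => (Function.invFun F (pt a y)) 1) := by
    have h2 : Continuous (fun y : ℝ => Function.invFun F (pt a y)) :=
      hi.comp (Inv_pt_contDiff a).continuous
    fun_prop
  have hper : ∀ n : ℤ, (Function.invFun F (pt a (0 + n))) 1 = (Function.invFun F (pt a 0)) 1 + n := by
    intro n
    rw [Inv_pt_add, hGe]
    simp [iv]
  intro s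
  obtain ⟨y, hy⟩ : s ∈ range (fun y : ℝ => (Function.invFun F (pt a y)) 1) := by
    refine mem_range_of_exists_le_of_exists_ge hcont ?_ ?_
    · refine ⟨0 + (⌊s - (Function.invFun F (pt a 0)) 1⌋ : ℤ), ?_⟩
      have := Int.floor_le (s - (Function.invFun F (pt a 0)) 1)
      show (Function.invFun F (pt a (0 + (⌊s - (Function.invFun F (pt a 0)) 1⌋ : ℤ)))) 1 ≤ s
      rw [hper]
      linarith
    · refine ⟨0 + (⌈s - (Function.invFun F (pt a 0)) 1⌉ : ℤ), ?_⟩
      have := Int.le_ceil (s - (Function.invFun F (pt a 0)) 1)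
      show s ≤ (Function.invFun F (pt a (0 + (⌈s - (Function.invFun F (pt a 0)) 1⌉ : ℤ)))) 1
      rw [hper]
      linarith
  have h3 : pt a s = Function.invFun F (pt a y) := by
    rw [h1 y]
    exact congrArg (pt a) hy.symm
  rw [h3, hFG]
  simp [pt]

theorem front_lim {F : Eu 2 → Eu 2} (hF : ContDiff ℝ ∞ F) (hb : Function.Bijective F)
    (hi : Continuous (Function.invFun F)) (he : ∀ x (k : Fin 2 → ℤ), F (x + iv k) = F x + iv k)
    {a : ℝ} (E : ℕ → ℝ) (hE : Filter.Tendsto E Filter.atTop (nhds 0)) (A : ℕ → ℝ → ℝ)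
    (hA : ∀ j s, HasDerivAt (A j) ((F (pt a s) 0 - a) * deriv (fun r => F (pt a r) 1) s) s)
    (h : ∀ j y, ∃ s, F (pt a s) 1 = y ∧ |A j s| ≤ E j) : ∀ s, F (pt a s) 0 = a := by
  have hFp : ContDiff ℝ ∞ (fun s : ℝ => F (pt a s)) := hF.comp (Inv_pt_contDiff a)
  have hη : ContDiff ℝ ∞ (fun s : ℝ => F (pt a s) 1) :=
    (EuclideanSpace.proj (𝕜 := ℝ) (1 : Fin 2)).contDiff.comp hFp
  have hq : Continuous (fun s : ℝ => F (pt a s) 0) :=
    ((EuclideanSpace.proj (𝕜 := ℝ) (0 : Fin 2)).contDiff.comp hFp).continuous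
  have hηc : Continuous (fun s : ℝ => F (pt a s) 1) := hη.continuous
  -- the bound of the displacement
  obtain ⟨M, hM⟩ : ∃ M : ℝ, ∀ s : ℝ, |F (pt a s) 1 - s| ≤ M := by
    have hc : ContinuousOn (fun s : ℝ => F (pt a s) 1 - s) (Icc 0 1) :=
      (hηc.sub continuous_id).continuousOn
    obtain ⟨M, hM⟩ := isCompact_Icc.exists_bound_of_continuousOn hc
    refine ⟨M, fun s => ?_⟩
    have h1 := hM (Int.fract s) ⟨Int.fract_nonneg s, (Int.fract_lt_one s).le⟩
    have h2 : F (pt a s) 1 = F (pt a (Int.fract s)) 1 + (⌊s⌋ : ℝ) := by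
      conv_lhs => rw [← Int.fract_add_floor s, Inv_pt_add, he]
      simp [iv]
    rw [Real.norm_eq_abs] at h1
    have h3 : F (pt a s) 1 - s = F (pt a (Int.fract s)) 1 - Int.fract s := by
      rw [h2]
      have := Int.fract_add_floor s
      linarith
    rw [h3]
    exact h1
  -- the functions `A j` differ by constants
  have hconst : ∀ j s, A j s = A 0 s + (A j 0 - A 0 0) := by
    intro j s
    have hd : ∀ s, HasDerivAt (fun r => A j r - A 0 r) 0 s := by
      intro s
      have h1 := (hA j s).sub (hA 0 s)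
      rw [sub_self] at h1
      exact h1
    have h1 := is_const_of_deriv_eq_zero (f := fun r => A j r - A 0 r)
      (fun s => (hd s).differentiableAt) (fun s => (hd s).deriv) s 0
    have h2 : A j s - A 0 s = A j 0 - A 0 0 := h1
    linarith
  set c : ℕ → ℝ := fun j => A j 0 - A 0 0 with hc
  have hA0 : Continuous (A 0) := continuous_iff_continuousAt.2 fun s => (hA 0 s).continuousAt
  -- preimages lie in compact intervals
  have hmem : ∀ s y : ℝ, F (pt a s) 1 = y → s ∈ Icc (y - M) (y + M) := by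
    intro s y hs
    have h1 := abs_le.1 (hM s)
    rw [hs] at h1
    constructor <;> linarith [h1.1, h1.2]
  obtain ⟨B, hB⟩ := hE.bddAbove_range
  -- the constants are bounded
  obtain ⟨c', φ, hφ, hlim⟩ : ∃ (c' : ℝ) (φ : ℕ → ℕ), StrictMono φ ∧
      Filter.Tendsto (fun i => c (φ i)) Filter.atTop (nhds c') := by
    obtain ⟨K, hK⟩ := (isCompact_Icc (a := (0 : ℝ) - M) (b := 0 + M)).exists_bound_of_continuousOn
      hA0.continuousOn
    have hcb : ∀ j, c j ∈ Icc (-(K + B)) (K + B) := by
      intro j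
      obtain ⟨s, hs1, hs2⟩ := h j 0
      have h1 := hK s (hmem s 0 hs1)
      rw [Real.norm_eq_abs] at h1
      rw [hconst j s] at hs2
      have h3 : E j ≤ B := hB ⟨j, rfl⟩
      have h1' := abs_le.1 h1
      have h2' := abs_le.1 hs2
      have h4 : c j = A j 0 - A 0 0 := rfl
      rw [h4]
      constructor <;> linarith [h1'.1, h1'.2, h2'.1, h2'.2]
    obtain ⟨c', -, φ, hφ, hlim⟩ := isCompact_Icc.tendsto_subseq hcb
    exact ⟨c', φ, hφ, hlim⟩
  have hfin : ∀ y, ∃ s, F (pt a s) 1 = y ∧ A 0 s = -c' := by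
    intro y
    choose s hs1 hs2 using fun j => h j y
    obtain ⟨s', -, ψ, hψ, hlim2⟩ := (isCompact_Icc (a := y - M) (b := y + M)).tendsto_subseq
      (x := fun i => s (φ i)) (fun i => hmem _ y (hs1 _))
    refine ⟨s', ?_, ?_⟩
    · have h1 : Filter.Tendsto (fun i => F (pt a (s (φ (ψ i)))) 1) Filter.atTop
          (nhds (F (pt a s') 1)) := (hηc.tendsto s').comp hlim2
      have h2 : (fun i => F (pt a (s (φ (ψ i)))) 1) = fun _ => y := by
        funext i
        exact hs1 _
      rw [h2] at h1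
      exact (tendsto_nhds_unique h1 tendsto_const_nhds)
    · have h1 : Filter.Tendsto (fun i => A 0 (s (φ (ψ i))) + c (φ (ψ i))) Filter.atTop
          (nhds (A 0 s' + c')) :=
        ((hA0.tendsto s').comp hlim2).add (hlim.comp hψ.tendsto_atTop)
      have h2 : Filter.Tendsto (fun i => A 0 (s (φ (ψ i))) + c (φ (ψ i))) Filter.atTop
          (nhds 0) := by
        refine squeeze_zero_norm (a := fun i => E (φ (ψ i))) (fun i => ?_)
          (hE.comp ((hφ.comp hψ).tendsto_atTop))
        have h3 := hs2 (φ (ψ i))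
        rw [hconst] at h3
        exact h3
      have h3 := tendsto_nhds_unique h1 h2
      linarith
  exact inv_line hF.continuous hb hi he
    (sard1 hq (hη.of_le (by exact_mod_cast le_top)) (hA 0) hM hfin)

end

end TH
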