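import Pool.Agent.TH.Defs
import Pool.Agent.H68.VD.Tr
import Pool.Agent.H68.VD.Hs
import Pool.Agent.H68.VD.WMean

/-!
# The norms of the scale control the mean and vanish at zero (TH-19)
-/

set_option autoImplicit false

open MeasureTheory Set Pool.Agent.H68.VD
open scoped ENNReal ContDiff

namespace TH

theorem mnc_hs (s : ℝ) : Mnc (hsNorm (n := 2) s) := by
  refine ⟨1, zero_le_one, fun u hu _ => ?_⟩
  rw [ENNReal.ofReal_one, one_mul]
  exact (hsMean 2 s).1 u hu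

private theorem mnc_dom {N : (Eu 2 → Eu 2) → ℝ≥0∞} (hN : Dominates N) : Mnc N := by
  obtain ⟨c, hc, h⟩ := hN
  refine ⟨c⁻¹, by positivity, fun u hu hp => ?_⟩
  have h1 := h u hu hp
  have h2 : ENNReal.ofReal ‖mn u‖ ≤ ∫⁻ x in cube 2, ‖u x‖ₑ := by
    rw [ofReal_norm]
    exact enorm_integral_le_lintegral_enorm _
  have hc' : ENNReal.ofReal c ≠ 0 := by simpa using hc
  calc ENNReal.ofReal ‖mn u‖ ≤ ∫⁻ x in cube 2, ‖u x‖ₑ := h2
    _ = (ENNReal.ofReal c)⁻¹ * (ENNReal.ofReal c * ∫⁻ x in cube 2, ‖u x‖ₑ) := by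
        rw [← mul_assoc, ENNReal.inv_mul_cancel hc' ENNReal.ofReal_ne_top, one_mul]
    _ ≤ (ENNReal.ofReal c)⁻¹ * N u := by gcongr
    _ = ENNReal.ofReal c⁻¹ * N u := by rw [ENNReal.ofReal_inv_of_pos hc]

theorem mnc_w (s : ℝ) {p : ℝ} (hp : 1 < p) : Mnc (wspP (n := 2) s p) := by
  rcases lt_or_ge s 0 with hs | hs
  · refine ⟨1, zero_le_one, fun u hu hu' => ?_⟩
    rw [ENNReal.ofReal_one, one_mul, TrA.wspP_neg s p hs]
    exact (wspNorm 2 s p hs hp).1 u hu hu'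
  · exact mnc_dom (TrA.wspP_pos 2 s p hs hp)

theorem hs_zero (s : ℝ) : hsNorm (n := 2) s (fun _ => 0) = 0 := by
  rw [(hsMean 2 s).2 0, norm_zero, ENNReal.ofReal_zero]

private theorem dn_zero (k : ℕ) (x : Eu 2) : dnorm k (fun _ : Eu 2 => (0 : Eu 2)) x = 0 := by
  unfold dnorm
  have h : iteratedFDeriv ℝ k (fun _ : Eu 2 => (0 : Eu 2)) = 0 := iteratedFDeriv_fun_zero
  rw [h, Pi.zero_apply, norm_zero, ENNReal.ofReal_zero]

theorem w_zero (s : ℝ) {p : ℝ} (hp : 1 < p) : wspP (n := 2) s p (fun _ => 0) = 0 := by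
  have hp0 : 0 < p := by linarith
  rcases lt_or_ge s 0 with hs | hs
  · rw [wspP, if_neg (not_le.mpr hs)]
    simp
  · rw [wspP, if_pos hs]
    have h1 : slobP s p (fun _ : Eu 2 => (0 : Eu 2)) = 0 := by
      unfold slobP gag
      simp only [sub_self, dn_zero]
      rw [ENNReal.zero_rpow_of_pos hp0]
      simp
    rw [h1, ENNReal.zero_rpow_of_pos (by positivity)]

end TH
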