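import Pool.Agent.TH.ShrA
import Pool.Agent.TH.Frt
import Pool.Agent.TH.Avg

/-!
Project TH, row TH-13: the diameter is infinite.
-/

set_option autoImplicit false

open MeasureTheory Set Pool.Agent.H68.VD
open scoped ENNReal ContDiff

namespace TH

noncomputable section

theorem diam_top {N : (Eu 2 → Eu 2) → ℝ≥0∞} (hN : Slc N) : fdiam N lat = ⊤ :=
  shr_diam_top (fun _ h h0 a => front0 h h0 a) (avg hN)

end

end TH
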