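import Mathlib
import Pool.Agent.TH.Defs
import Pool.Agent.H68.VD.St2

/-!
# Project TH: norms above the `L^1` norm control the largest flux on typical lines
-/

set_option autoImplicit false

open MeasureTheory Set Pool.Agent.H68.VD
open scoped ENNReal ContDiff

namespace TH

noncomputable section

private theorem sld_cube : cube 2 = (fun x : Eu 2 => MeasurableEquiv.finTwoArrow (WithLp.ofLp x)) ⁻¹'
    (Ico (0 : ℝ) 1 ×ˢ Ico (0 : ℝ) 1) := by
  ext x
  simp only [cube, Set.mem_ofPred_eq, Set.mem_preimage, Set.mem_prod, Fin.forall_fin_two]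
  rfl

private theorem sld_mp : MeasurePreserving
    (fun x : Eu 2 => MeasurableEquiv.finTwoArrow (WithLp.ofLp x)) volume
    (volume : Measure (ℝ × ℝ)) :=
  (volume_preserving_finTwoArrow ℝ).comp (PiLp.volume_preserving_ofLp (Fin 2))

private theorem sld_pt (x : Eu 2) : pt (x 0) (x 1) = x := by
  ext i
  fin_cases i <;> rfl

private theorem sld_cpt : Continuous (fun z : ℝ × ℝ => pt z.1 z.2) := by
  refine (PiLp.continuous_toLp 2 (fun _ : Fin 2 => ℝ)).comp ?_
  refine continuous_pi fun i => ?_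
  fin_cases i
  · exact continuous_fst
  · exact continuous_snd

private theorem sld_fub {g : Eu 2 → ℝ≥0∞} (hg : Measurable g) :
    ∫⁻ x in cube 2, g x = ∫⁻ a in Icc (0 : ℝ) 1, ∫⁻ r in Icc (0 : ℝ) 1, g (pt a r) := by
  have hm : Measurable (fun z : ℝ × ℝ => g (pt z.1 z.2)) := hg.comp sld_cpt.measurable
  have h1 : ∫⁻ x in cube 2, g x =
      ∫⁻ z in Ico (0 : ℝ) 1 ×ˢ Ico (0 : ℝ) 1, g (pt z.1 z.2) := by
    rw [sld_cube, ← sld_mp.setLIntegral_comp_preimage (measurableSet_Ico.prod measurableSet_Ico) hm]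
    refine lintegral_congr fun x => ?_
    have := sld_pt x
    exact congrArg g this.symm
  rw [h1, Measure.volume_eq_prod, ← Measure.prod_restrict,
    lintegral_prod _ hm.aemeasurable, restrict_Ico_eq_restrict_Icc]

private theorem sld_fub2 {g : Eu 2 → ℝ≥0∞} (hg : Measurable g) (i : Fin 2) :
    ∫⁻ a in Icc (0 : ℝ) 1, ∫⁻ r in Icc (0 : ℝ) 1, g (ln i a r) = ∫⁻ x in cube 2, g x := by
  have hm : Measurable (fun z : ℝ × ℝ => g (pt z.1 z.2)) := hg.comp sld_cpt.measurable
  rw [sld_fub hg]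
  fin_cases i
  · rfl
  · exact lintegral_lintegral_swap (f := fun a r => g (pt r a))
      (hm.comp measurable_swap).aemeasurable

private theorem sld_coord (x : Eu 2) (i : Fin 2) : |x i| ≤ ‖x‖ := by
  have := PiLp.norm_apply_le x i
  rwa [Real.norm_eq_abs] at this

private theorem sld_cln (i : Fin 2) (a : ℝ) : Continuous (fun r => ln i a r) := by
  unfold ln
  split_ifs
  · exact sld_cpt.comp (continuous_const.prodMk continuous_id)
  · exact sld_cpt.comp (continuous_id.prodMk continuous_const)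

private theorem sld_osf (i : Fin 2) {u : Eu 2 → Eu 2} (hu : Continuous u) (a : ℝ) :
    osf i u a ≤ ∫ r in (0 : ℝ)..1, |u (ln i a r) i - mn u i| := by
  have hc : Continuous (fun r => u (ln i a r) i - mn u i) := by
    have h1 : Continuous (fun x : Eu 2 => x i) := (EuclideanSpace.proj (𝕜 := ℝ) i).continuous
    exact (h1.comp (hu.comp (sld_cln i a))).sub continuous_const
  refine csSup_le ((nonempty_Icc.mpr zero_le_one).image _) ?_
  rintro _ ⟨y, hy, rfl⟩
  refine (intervalIntegral.abs_integral_le_integral_abs hy.1).trans ?_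
  exact intervalIntegral.integral_mono_interval le_rfl hy.1 hy.2
    (Filter.Eventually.of_forall fun r => abs_nonneg _) (hc.abs.intervalIntegrable _ _)

/-- Norms above the `L^1` norm control the largest flux on typical lines. -/
theorem slc_dom {N : (Eu 2 → Eu 2) → ℝ≥0∞} (hN : Dominates N) : Slc N := by
  obtain ⟨c, hc, hN⟩ := hN
  refine ⟨2 / c, by positivity, fun i u hu hp _ => ?_⟩
  have hcu := hu.continuous
  have hmu : Measurable (fun x => ‖u x‖ₑ) := hcu.enorm.measurable
  have h1 : ∀ a, ENNReal.ofReal (osf i u a) ≤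
      (∫⁻ r in Icc (0 : ℝ) 1, ‖u (ln i a r)‖ₑ) + ‖mn u‖ₑ := by
    intro a
    refine (ENNReal.ofReal_le_ofReal (sld_osf i hcu a)).trans ?_
    have hc2 : Continuous (fun r => |u (ln i a r) i - mn u i|) := by
      have h1 : Continuous (fun x : Eu 2 => x i) := (EuclideanSpace.proj (𝕜 := ℝ) i).continuous
      exact ((h1.comp (hcu.comp (sld_cln i a))).sub continuous_const).abs
    rw [intervalIntegral.integral_of_le zero_le_one, ← integral_Icc_eq_integral_Ioc,
      ofReal_integral_eq_lintegral_ofReal (hc2.integrableOn_Icc)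
        (Filter.Eventually.of_forall fun r => abs_nonneg _)]
    have h2 : ∀ r, ENNReal.ofReal |u (ln i a r) i - mn u i| ≤ ‖u (ln i a r)‖ₑ + ‖mn u‖ₑ := by
      intro r
      rw [← ofReal_norm, ← ofReal_norm,
        ← ENNReal.ofReal_add (norm_nonneg _) (norm_nonneg _)]
      refine ENNReal.ofReal_le_ofReal ?_
      refine (abs_sub _ _).trans ?_
      exact add_le_add (sld_coord _ i) (sld_coord _ i)
    refine (lintegral_mono h2).trans ?_
    rw [lintegral_add_right _ measurable_const, lintegral_const]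
    simp
  have h3 : ‖mn u‖ₑ ≤ ∫⁻ x in cube 2, ‖u x‖ₑ := enorm_integral_le_lintegral_enorm _
  calc ∫⁻ a in Icc (0 : ℝ) 1, ENNReal.ofReal (osf i u a)
      ≤ ∫⁻ a in Icc (0 : ℝ) 1, ((∫⁻ r in Icc (0 : ℝ) 1, ‖u (ln i a r)‖ₑ) + ‖mn u‖ₑ) :=
        lintegral_mono h1
    _ = (∫⁻ x in cube 2, ‖u x‖ₑ) + ‖mn u‖ₑ := by
        rw [lintegral_add_right _ measurable_const, lintegral_const, sld_fub2 hmu i]
        simp
    _ ≤ (∫⁻ x in cube 2, ‖u x‖ₑ) + ∫⁻ x in cube 2, ‖u x‖ₑ := by gcongr
    _ = ENNReal.ofReal (2 / c) * (ENNReal.ofReal c * ∫⁻ x in cube 2, ‖u x‖ₑ) := by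
        rw [← mul_assoc, ← ENNReal.ofReal_mul (by positivity), div_mul_cancel₀ _ hc.ne', ← two_mul]
        simp
    _ ≤ ENNReal.ofReal (2 / c) * N u := by
        gcongr
        exact hN u hcu hp

end

end TH
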