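import Pool.Agent.TH.SlW
import Pool.Agent.TH.SlH
import Pool.Agent.TH.SlD
import Pool.Agent.TH.MnN
import Pool.Agent.TH.Non
import Pool.Agent.TH.Pos
import Pool.Agent.TH.Shr
import Pool.Agent.H68.VD.Tr
import Pool.Agent.H68.VD.HsS

/-! TH: assembly (MP_b0bf68_gt). -/

set_option autoImplicit false

open MeasureTheory Set Pool.Agent.H68.VD
open scoped ENNReal ContDiff

namespace TH

theorem slc_hs {s : ℝ} (hs : -(1 / 2) < s) : Slc (hsNorm (n := 2) s) := by
  rcases lt_or_ge s 0 with h | h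
  · exact slc_hs_neg hs h
  · exact slc_dom (hsStrong 2 s h)

theorem slc_w {s p : ℝ} (hp : 1 < p) (hs : -1 + 1 / p < s) : Slc (wspP (n := 2) s p) := by
  rcases lt_or_ge s 0 with h | h
  · exact slc_w_neg hp hs h
  · exact slc_dom (TrA.wspP_pos 2 s p h hp)

/-- The torus: for every order `s > -1 + 1/p` the geodesic distance is not degenerate and the
diameter is infinite; the diameter is positive for every order. -/
theorem main (p : ℝ) (N : ℝ → (Eu 2 → Eu 2) → ℝ≥0∞)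
    (hN : (p = 2 ∧ N = fun s => hsNorm s) ∨ (1 < p ∧ N = fun s => wspP s p)) :
    (∀ s, -1 + 1 / p < s → (∀ f g, FG lat f → FG lat g →
      (fdist (N s) lat f g = 0 ↔ ∃ γ ∈ lat, g = γ ∘ f)) ∧ fdiam (N s) lat = ⊤) ∧
    (∀ s, 0 < fdiam (N s) lat) ∧ ¬ Transition (fun s => fdiam (N s) lat) := by
  have hS : ∀ s, -1 + 1 / p < s → Slc (N s) := by
    intro s hs
    rcases hN with ⟨rfl, rfl⟩ | ⟨hp, rfl⟩
    · exact slc_hs (by linarith)
    · exact slc_w hp hs
  have hM : ∀ s, Mnc (N s) := by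
    intro s
    rcases hN with ⟨rfl, rfl⟩ | ⟨hp, rfl⟩
    · exact mnc_hs s
    · exact mnc_w s hp
  have hZ : ∀ s, N s (fun _ => 0) = 0 := by
    intro s
    rcases hN with ⟨rfl, rfl⟩ | ⟨hp, rfl⟩
    · exact hs_zero s
    · exact w_zero s hp
  refine ⟨fun s hs => ⟨fun f g hf hg => ⟨fun h => nondeg (hS s hs) (hM s) hf hg h, ?_⟩,
    diam_top (hS s hs)⟩, fun s => diam_pos (hM s), ?_⟩
  · rintro ⟨γ, hγ, h⟩
    exact dist_zero (hZ s) hf hγ h
  · rintro ⟨s₁, s₂, s₃, -, -, h0, -, -⟩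
    exact (diam_pos (hM s₁)).ne' h0

end TH
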