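import Pool.Agent.TH.Defs
import Pool.Agent.H68.VD.Flux
import Pool.Agent.H68.VD.InfD

/-!
Project TH, row TH-13: shears, the diameter is infinite (from the statements of TH-11, TH-12).
-/

set_option autoImplicit false

open MeasureTheory Set Pool.Agent.H68.VD
open scoped ENNReal ContDiff

namespace TH

noncomputable section

/-- the derivative of the profile -/
private def kap (M r : ℝ) : ℝ := M * (2 * Real.pi) * Real.cos (2 * Real.pi * r)

/-- the path of shears -/
private def shr (M t : ℝ) (x : Eu 2) : Eu 2 := pt (x 0 + t * kap M (x 1)) (x 1)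

private theorem pt0 (q p : ℝ) : pt q p 0 = q := rfl

private theorem pt1 (q p : ℝ) : pt q p 1 = p := rfl

attribute [local simp] pt0 pt1

private theorem ext2 {x y : Eu 2} (h0 : x 0 = y 0) (h1 : x 1 = y 1) : x = y := by
  ext i
  fin_cases i
  · exact h0
  · exact h1

private theorem kap_smooth (M : ℝ) : ContDiff ℝ ∞ (kap M) := by
  unfold kap
  fun_prop

private theorem kap_int (M r : ℝ) (m : ℤ) : kap M (r + m) = kap M r := by
  unfold kap
  rw [show 2 * Real.pi * (r + m) = 2 * Real.pi * r + m * (2 * Real.pi) by ring,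
    Real.cos_add_int_mul_two_pi]

private theorem kap_half (M r : ℝ) : kap M (r + 1 / 2) = - kap M r := by
  unfold kap
  rw [show 2 * Real.pi * (r + 1 / 2) = 2 * Real.pi * r + Real.pi by ring, Real.cos_add_pi]
  ring

private theorem coord_smooth (i : Fin 2) : ContDiff ℝ ∞ (fun x : Eu 2 => x i) :=
  (EuclideanSpace.proj i : Eu 2 →L[ℝ] ℝ).contDiff

private theorem pt_smooth {E : Type*} [NormedAddCommGroup E] [NormedSpace ℝ E] {f g : E → ℝ}
    (hf : ContDiff ℝ ∞ f) (hg : ContDiff ℝ ∞ g) : ContDiff ℝ ∞ (fun z => pt (f z) (g z)) := by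
  rw [contDiff_euclidean]
  intro i
  fin_cases i
  · exact hf
  · exact hg

private theorem shr_smooth (M : ℝ) : ContDiff ℝ ∞ (fun q : ℝ × Eu 2 => shr M q.1 q.2) := by
  unfold shr
  refine pt_smooth ?_ ((coord_smooth 1).comp contDiff_snd)
  exact ((coord_smooth 0).comp contDiff_snd).add
    (contDiff_fst.mul ((kap_smooth M).comp ((coord_smooth 1).comp contDiff_snd)))

private theorem shr_bij (M t : ℝ) : Function.Bijective (shr M t) := by
  refine Function.bijective_iff_has_inverse.2 ⟨shr M (-t), fun x => ?_, fun x => ?_⟩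
  · refine ext2 ?_ ?_ <;> simp [shr]
  · refine ext2 ?_ ?_ <;> simp [shr]

private theorem shr_det (M t : ℝ) (x : Eu 2) : (fderiv ℝ (shr M t) x).det = 1 := by
  have h1 : HasFDerivAt (shr M t) (ContinuousLinearMap.id ℝ (Eu 2) +
      (t * deriv (kap M) (x 1)) • (EuclideanSpace.proj 1 : Eu 2 →L[ℝ] ℝ).smulRight (ev 0)) x := by
    have h2 : HasDerivAt (kap M) (deriv (kap M) (x 1)) (x 1) :=
      ((kap_smooth M).differentiable (by simp) (x 1)).hasDerivAt
    have h3 : HasFDerivAt (fun y : Eu 2 => y 1) (EuclideanSpace.proj 1 : Eu 2 →L[ℝ] ℝ) x :=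
      (EuclideanSpace.proj 1 : Eu 2 →L[ℝ] ℝ).hasFDerivAt
    have h4 := (h2.comp_hasFDerivAt x h3).const_mul t
    have h5 := (hasFDerivAt_id x).add (h4.smul_const (ev (0 : Fin 2)))
    have h6 : shr M t = fun y : Eu 2 => id y + (t * (kap M ∘ fun y : Eu 2 => y 1) y) • ev (0 : Fin 2) := by
      funext y
      refine ext2 ?_ ?_ <;> simp [shr, ev]
    rw [h6]
    refine h5.congr_fderiv ?_
    ext v i
    fin_cases i
    · simp [ev]
      ring
    · simp [ev]
  rw [h1.fderiv, ContinuousLinearMap.det, ← LinearMap.det_toMatrix (EuclideanSpace.basisFun (Fin 2) ℝ).toBasis,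
    Matrix.det_fin_two]
  simp [LinearMap.toMatrix_apply, ev]

private theorem shr_iv (M t : ℝ) (x : Eu 2) (k : Fin 2 → ℤ) : shr M t (x + iv k) = shr M t x + iv k := by
  refine ext2 ?_ ?_
  · simp [shr, iv, kap_int]
    ring
  · simp [shr, iv]

private theorem shr_path (M : ℝ) : FPath lat (shr M) where
  smooth := shr_smooth M
  bij := shr_bij M
  det := shr_det M
  equi := by
    rintro t g ⟨k, rfl⟩ x
    exact shr_iv M t x k

private theorem shr_zero (M : ℝ) : shr M 0 = id := by
  funext x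
  refine ext2 ?_ ?_ <;> simp [shr]

private theorem shr_zero' (t : ℝ) : shr 0 t = id := by
  funext x
  refine ext2 ?_ ?_ <;> simp [shr, kap]

private theorem fg_id : FG lat (id : Eu 2 → Eu 2) := ⟨shr 0, shr_path 0, shr_zero 0, shr_zero' 1⟩

private theorem fg_shr (M : ℝ) : FG lat (shr M 1) := ⟨shr M, shr_path M, shr_zero M, rfl⟩

private theorem int_zero (M : ℝ) : ∫ x in cube 2, pt (kap M (x 1)) 0 = 0 := by
  have hc : Continuous fun x : Eu 2 => pt (kap M (x 1)) 0 :=
    (pt_smooth ((kap_smooth M).comp (coord_smooth 1)) contDiff_const).continuous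
  have h1 := FluxA.cov_gen (fun x : Eu 2 => x + pt 0 (1 / 2)) (by fun_prop)
    (Equiv.addRight (pt 0 (1 / 2))).bijective
    (fun x => by
      rw [fderiv_add_const, fderiv_fun_id]
      have : (ContinuousLinearMap.id ℝ (Eu 2)).det = 1 := LinearMap.det_id
      rw [this, abs_one]) (Equiv.refl _)
    (fun x k => by rw [add_right_comm]; rfl) (fun x => pt (kap M (x 1)) 0)
    (by
      intro x k
      show pt (kap M ((x + iv k) 1)) 0 = _
      rw [show (x + iv k) 1 = x 1 + (k 1 : ℤ) from rfl, kap_int])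
  have h2 : (fun x : Eu 2 => pt (kap M ((x + pt 0 (1 / 2)) 1)) 0) =
      fun x : Eu 2 => - pt (kap M (x 1)) 0 := by
    funext x
    rw [show (x + pt 0 (1 / 2)) 1 = x 1 + 1 / 2 from rfl, kap_half]
    refine ext2 ?_ ?_ <;> simp
  rw [h2, integral_neg] at h1
  have h3 : (2 : ℝ) • (∫ x in cube 2, pt (kap M (x 1)) 0) = 0 := by
    rw [two_smul]
    nth_rewrite 1 [← h1]
    exact neg_add_cancel _
  exact (smul_eq_zero.1 h3).resolve_left two_ne_zero

/-- the mean displacement of a lift of the shear -/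
private theorem dsp_shr (M : ℝ) (k : Fin 2 → ℤ) : dsp (fun x => shr M 1 x + iv k) = iv k := by
  unfold dsp
  have h1 : (fun x : Eu 2 => shr M 1 x + iv k - x) = fun x : Eu 2 => pt (kap M (x 1)) 0 + iv k := by
    funext x
    refine ext2 ?_ ?_ <;> simp [shr]
    ring
  have hc : Continuous fun x : Eu 2 => pt (kap M (x 1)) 0 :=
    (pt_smooth ((kap_smooth M).comp (coord_smooth 1)) contDiff_const).continuous
  rw [h1, integral_add (InfDA.intOn hc) (InfDA.intOn continuous_const), int_zero, zero_add]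
  simp [Measure.real, HsA.vol_cube]


/-- The diameter is infinite, from the statements of the rows TH-11 and TH-12. -/
theorem shr_diam_top {N : (Eu 2 → Eu 2) → ℝ≥0∞}
    (hfront : ∀ φ : ℝ → Eu 2 → Eu 2, FPath lat φ → φ 0 = id → ∀ a : ℝ,
      ∃ A : ℝ → ℝ, (∀ s, HasDerivAt A
        ((nrm (φ 1) (pt a s) 0 - a) * deriv (fun r => nrm (φ 1) (pt a r) 1) s) s) ∧
        ∀ y, ∃ s, nrm (φ 1) (pt a s) 1 = y ∧ |A s| ≤ Ebd 0 φ a)
    (havg : ∃ C : ℝ, 0 ≤ C ∧ ∀ (i : Fin 2) (φ : ℝ → Eu 2 → Eu 2), FPath lat φ →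
      ∫⁻ a in Icc (0 : ℝ) 1, ENNReal.ofReal (Ebd i φ a) ≤ ENNReal.ofReal C * len N φ) :
    fdiam N lat = ⊤ := by
  obtain ⟨C, hC, hN⟩ := havg
  have key : ∀ M : ℝ, 0 ≤ M → ENNReal.ofReal M ≤ ENNReal.ofReal (C + 1) * fdist N lat id (shr M 1) := by
    intro M hM
    have h1 : ENNReal.ofReal (C + 1) ≠ 0 := by
      rw [Ne, ENNReal.ofReal_eq_zero]; linarith
    rw [mul_comm, ← ENNReal.div_le_iff h1 ENNReal.ofReal_ne_top]
    refine le_iInf fun ψ => le_iInf fun hψ => ?_
    obtain ⟨hp, h0, γ, ⟨k, rfl⟩, h2⟩ := hψ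
    rw [ENNReal.div_le_iff h1 ENNReal.ofReal_ne_top]
    have h3 : ψ 1 = fun x => shr M 1 x + iv k := h2
    have h4 : ∀ x, nrm (ψ 1) x = shr M 1 x := by
      intro x
      unfold nrm
      rw [h3, dsp_shr, add_sub_cancel_right]
    have h5 : ∀ a, M ≤ Ebd 0 ψ a := by
      intro a
      obtain ⟨A, hA, hy⟩ := hfront ψ hp h0 a
      have h6 : ∀ s, HasDerivAt A (kap M s) s := by
        intro s
        have h7 := hA s
        have h8 : (fun r => nrm (ψ 1) (pt a r) 1) = fun r => r := by
          funext r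
          rw [h4]
          rfl
        have h9 : nrm (ψ 1) (pt a s) 0 = a + kap M s := by
          rw [h4]
          simp [shr]
        rw [h8, h9, deriv_id''] at h7
        simpa using h7
      have h10 : ∀ s, HasDerivAt (fun s => M * Real.sin (2 * Real.pi * s)) (kap M s) s := by
        intro s
        have := (((hasDerivAt_id s).const_mul (2 * Real.pi)).sin).const_mul M
        refine this.congr_deriv ?_
        simp [kap]
        ring
      have h11 : ∀ s, A s - M * Real.sin (2 * Real.pi * s) = A 0 := by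
        intro s
        have h12 : ∀ s, HasDerivAt (fun s => A s - M * Real.sin (2 * Real.pi * s)) 0 s := by
          intro s
          have h18 := (h6 s).sub (h10 s)
          rw [sub_self] at h18
          exact h18
        have h13 := is_const_of_deriv_eq_zero (fun s => (h12 s).differentiableAt)
          (fun s => (h12 s).deriv) s 0
        simpa using h13
      obtain ⟨s, hs, hs'⟩ := hy (1 / 4)
      obtain ⟨t, ht, ht'⟩ := hy (3 / 4)
      rw [h4] at hs ht
      have e1 : s = 1 / 4 := hs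
      have e2 : t = 3 / 4 := ht
      have h14 := h11 (1 / 4)
      have h15 := h11 (3 / 4)
      rw [show 2 * Real.pi * (1 / 4) = Real.pi / 2 by ring, Real.sin_pi_div_two] at h14
      rw [show 2 * Real.pi * (3 / 4) = Real.pi / 2 + Real.pi by ring, Real.sin_add_pi,
        Real.sin_pi_div_two] at h15
      rw [e1] at hs'
      rw [e2] at ht'
      have h16 := abs_le.1 hs'
      have h17 := abs_le.1 ht'
      linarith [h16.2, h17.1]
    calc ENNReal.ofReal M = ∫⁻ a in Icc (0 : ℝ) 1, ENNReal.ofReal M := by simp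
      _ ≤ ∫⁻ a in Icc (0 : ℝ) 1, ENNReal.ofReal (Ebd 0 ψ a) :=
          lintegral_mono fun a => ENNReal.ofReal_le_ofReal (h5 a)
      _ ≤ ENNReal.ofReal C * len N ψ := hN 0 ψ hp
      _ ≤ ENNReal.ofReal (C + 1) * len N ψ := by gcongr; linarith
      _ = len N ψ * ENNReal.ofReal (C + 1) := mul_comm _ _
  have h1 : ∀ M : ℝ, 0 ≤ M → ENNReal.ofReal M ≤ ENNReal.ofReal (C + 1) * fdiam N lat := by
    intro M hM
    refine (key M hM).trans ?_
    gcongr
    exact le_iSup₂_of_le id fg_id (le_iSup₂_of_le (shr M 1) (fg_shr M) le_rfl)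
  by_contra hne
  have h2 : ENNReal.ofReal (C + 1) * fdiam N lat ≠ ⊤ := ENNReal.mul_ne_top ENNReal.ofReal_ne_top hne
  have h3 := h1 ((ENNReal.ofReal (C + 1) * fdiam N lat).toReal + 1) (by positivity)
  rw [ENNReal.ofReal_add (by positivity) zero_le_one, ENNReal.ofReal_toReal h2, ENNReal.ofReal_one] at h3
  exact absurd h3 (not_le.2 (ENNReal.lt_add_right h2 one_ne_zero))

end

end TH
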