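import Mathlib
import Pool.Agent.TH.Defs
import Pool.Agent.H68.VD.DensB

/-!
# The Hamiltonian of a field: mollification and telescoping (row TH-25)
-/

set_option autoImplicit false
set_option linter.all false

open MeasureTheory Set Pool.Agent.H68.VD
open scoped ENNReal ContDiff

namespace TH

noncomputable section

private theorem coord_le (x : Eu 2) (i : Fin 2) : |x i| ≤ ‖x‖ := by
  have := PiLp.norm_apply_le x i
  simpa [Real.norm_eq_abs] using this

/-- derivative of a smoothed Hamiltonian along a family of points -/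
private theorem pint {v : Eu 2 → Eu 2} {H : Eu 2 → ℝ} (h : MH v H) {L : ℝ} (hL0 : 0 ≤ L)
    (hL : ∀ x, ‖v x‖ ≤ L) {ρ : Eu 2 → ℝ} (hρ : Continuous ρ) (hs : HasCompactSupport ρ)
    (γ γ' : ℝ → Eu 2 → Eu 2) (s₀ ε C : ℝ) (hε : 0 < ε) (hC : 0 ≤ C) (hγ : ∀ s, Continuous (γ s))
    (hγ' : Continuous (γ' s₀))
    (hd : ∀ w, ρ w ≠ 0 → ∀ s ∈ Metric.ball s₀ ε, HasDerivAt (fun s => γ s w) (γ' s w) s ∧
      ‖γ' s w‖ ≤ C) :
    HasDerivAt (fun s => ∫ w, H (γ s w) * ρ w)
      (∫ w, (v (γ s₀ w) 0 * γ' s₀ w 1 - v (γ s₀ w) 1 * γ' s₀ w 0) * ρ w) s₀ := by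
  have hcH : Continuous H := h.Hs.continuous
  have hcv : Continuous v := h.vs.continuous
  have key := hasDerivAt_integral_of_dominated_loc_of_deriv_le (𝕜 := ℝ) (μ := (volume : Measure (Eu 2)))
    (F := fun s w => H (γ s w) * ρ w)
    (F' := fun s w => (v (γ s w) 0 * γ' s w 1 - v (γ s w) 1 * γ' s w 0) * ρ w)
    (x₀ := s₀) (s := Metric.ball s₀ ε) (bound := fun w => 2 * L * C * |ρ w|)
    (Metric.ball_mem_nhds _ hε) ?_ ?_ ?_ ?_ ?_ ?_
  · exact key.2
  · exact Filter.Eventually.of_forall fun s => ((hcH.comp (hγ s)).mul hρ).aestronglyMeasurable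
  · exact ((hcH.comp (hγ s₀)).mul hρ).integrable_of_hasCompactSupport hs.mul_left
  · refine Continuous.aestronglyMeasurable ?_
    have h0 : ∀ i : Fin 2, Continuous fun w => v (γ s₀ w) i := fun i =>
      (EuclideanSpace.proj i : Eu 2 →L[ℝ] ℝ).continuous.comp (hcv.comp (hγ s₀))
    have h1 : ∀ i : Fin 2, Continuous fun w => γ' s₀ w i := fun i =>
      (EuclideanSpace.proj i : Eu 2 →L[ℝ] ℝ).continuous.comp hγ'
    exact (((h0 0).mul (h1 1)).sub ((h0 1).mul (h1 0))).mul hρ
  · refine Filter.Eventually.of_forall fun w s hs' => ?_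
    by_cases hw : ρ w = 0
    · simp [hw]
    have h1 := (hd w hw s hs').2
    have h2 := hL (γ s w)
    have h3 : ∀ i j : Fin 2, |v (γ s w) i * γ' s w j| ≤ L * C := by
      intro i j
      rw [abs_mul]
      exact mul_le_mul ((coord_le _ i).trans h2) ((coord_le _ j).trans h1) (abs_nonneg _) hL0
    rw [Real.norm_eq_abs, abs_mul]
    refine mul_le_mul_of_nonneg_right ?_ (abs_nonneg _)
    refine (abs_sub _ _).trans ?_
    have := h3 0 1
    have := h3 1 0
    linarith
  · exact ((continuous_const.mul hρ.abs).integrable_of_hasCompactSupport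
      (HasCompactSupport.mul_left hs.norm))
  · refine Filter.Eventually.of_forall fun w s hs' => ?_
    by_cases hw : ρ w = 0
    · simp only [hw, mul_zero]
      exact hasDerivAt_const _ _
    have h1 := (hd w hw s hs').1
    have h2 := ((h.Hd (γ s w)).comp_hasDerivAt s h1).mul_const (ρ w)
    refine h2.congr_deriv ?_
    simp

private theorem H_lip {v : Eu 2 → Eu 2} {H : Eu 2 → ℝ} {a b : Eu 2 → ℝ} {M : ℝ}
    (hd : ∀ x, HasFDerivAt H
      (a x • (EuclideanSpace.proj 1 : Eu 2 →L[ℝ] ℝ) - b x • (EuclideanSpace.proj 0 : Eu 2 →L[ℝ] ℝ)) x)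
    (ha : ∀ x, |a x| ≤ M) (hb : ∀ x, |b x| ≤ M) (x y : Eu 2) : |H x - H y| ≤ 2 * M * ‖x - y‖ := by
  have hM : 0 ≤ M := (abs_nonneg _).trans (ha 0)
  have := Convex.norm_image_sub_le_of_norm_hasFDerivWithin_le (𝕜 := ℝ) (f := H) (C := 2 * M)
    (s := univ) (x := y) (y := x) (fun z _ => (hd z).hasFDerivWithinAt) (fun z _ => ?_) convex_univ
    (mem_univ _) (mem_univ _)
  · simpa [Real.norm_eq_abs] using this
  · refine ContinuousLinearMap.opNorm_le_bound _ (by linarith) fun w => ?_
    have h1 := coord_le w 0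
    have h2 := coord_le w 1
    change |a z * w 1 - b z * w 0| ≤ _
    refine (abs_sub _ _).trans ?_
    rw [abs_mul, abs_mul]
    have h3 := mul_le_mul (ha z) h2 (abs_nonneg _) hM
    have h4 := mul_le_mul (hb z) h1 (abs_nonneg _) hM
    linarith

theorem tel : ∃ K K₀ K₁ : Eu 2 → Eu 2, ContDiff ℝ ∞ K ∧ HasCompactSupport K ∧ ContDiff ℝ ∞ K₀ ∧
    HasCompactSupport K₀ ∧ ContDiff ℝ ∞ K₁ ∧ HasCompactSupport K₁ ∧
    ∀ (v : Eu 2 → Eu 2) (H : Eu 2 → ℝ), MH v H →
      ∃ H₁ : Eu 2 → ℝ, (∀ ε > 0, ∃ Λ₀ : ℝ, ∀ Λ ≥ Λ₀, ∀ x,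
        |H x - H₁ x - ∫ l in (1 : ℝ)..Λ, l⁻¹ ^ 2 * cvg K l v x| ≤ ε) ∧
      ∀ M : ℝ, (∀ z, |cvg K₀ 1 v z| ≤ M ∧ |cvg K₁ 1 v z| ≤ M) → ∀ x x', |H₁ x - H₁ x'| ≤ 4 * M := by
  classical
  set b : ContDiffBump (0 : Eu 2) := ⟨1 / 2, 1, by norm_num, by norm_num⟩ with hb
  set ρ : Eu 2 → ℝ := b.normed volume with hρdef
  have hρs : ContDiff ℝ ∞ ρ := b.contDiff_normed
  have hρc : HasCompactSupport ρ := b.hasCompactSupport_normed
  have hρ0 : ∀ w, 0 ≤ ρ w := b.nonneg_normed
  have hρ1 : ∫ w, ρ w = 1 := b.integral_normed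
  have hρn : ∀ w, ρ w ≠ 0 → ‖w‖ ≤ 1 := by
    intro w hw
    have : w ∈ Function.support ρ := hw
    rw [hρdef, b.support_normed_eq] at this
    have := Metric.mem_ball.1 this
    rw [dist_zero_right] at this
    exact this.le
  have hρcont : Continuous ρ := hρs.continuous
  have hρi : Integrable ρ := hρcont.integrable_of_hasCompactSupport hρc
  have hpr : ∀ i : Fin 2, ContDiff ℝ ∞ fun w : Eu 2 => w i := fun i =>
    (EuclideanSpace.proj i : Eu 2 →L[ℝ] ℝ).contDiff
  have hJs : ContDiff ℝ ∞ (fun w : Eu 2 => pt (w 1) (-(w 0))) := by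
    rw [contDiff_euclidean]
    intro i
    fin_cases i
    · exact hpr 1
    · exact (hpr 0).neg
  refine ⟨fun w => ρ w • pt (w 1) (-(w 0)), fun w => ρ w • pt 1 0, fun w => ρ w • pt 0 1,
    hρs.smul hJs, hρc.smul_right, hρs.smul contDiff_const, hρc.smul_right,
    hρs.smul contDiff_const, hρc.smul_right, ?_⟩
  intro v H h
  have hcH : Continuous H := h.Hs.continuous
  have hcv : Continuous v := h.vs.continuous
  obtain ⟨L, hL0, hL⟩ := DensBA.per_bdd hcv h.vp
  have hlipH : ∀ x y, |H x - H y| ≤ 2 * L * ‖x - y‖ := fun x y =>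
    H_lip (v := v) h.Hd (fun z => (coord_le _ _).trans (hL z)) (fun z => (coord_le _ _).trans (hL z)) x y
  have hcv2 : ∀ (l : ℝ) (x : Eu 2), cvg (fun w => ρ w • pt (w 1) (-(w 0))) l v x =
      ∫ w, (v (x - l⁻¹ • w) 0 * w 1 - v (x - l⁻¹ • w) 1 * w 0) * ρ w := by
    intro l x
    unfold cvg
    refine integral_congr_ae (Filter.Eventually.of_forall fun w => ?_)
    simp only [inner_smul_right, PiLp.inner_apply, Fin.sum_univ_two, pt]
    simp
    ring
  refine ⟨fun x => ∫ w, H (x - w) * ρ w, ?_, ?_⟩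
  · -- telescoping
    have hder : ∀ (x : Eu 2) (l : ℝ), 0 < l → HasDerivAt (fun l => ∫ w, H (x - l⁻¹ • w) * ρ w)
        (l⁻¹ ^ 2 * cvg (fun w => ρ w • pt (w 1) (-(w 0))) l v x) l := by
      intro x l hl
      have hk := pint h hL0 hL hρcont hρc (fun s w => x - s⁻¹ • w) (fun s w => (s ^ 2)⁻¹ • w) l (l / 2)
        ((l / 2) ^ 2)⁻¹ (by linarith) (by positivity)
        (fun s => by fun_prop) (by fun_prop) ?_
      · refine hk.congr_deriv ?_
        rw [hcv2, ← integral_const_mul]
        refine integral_congr_ae (Filter.Eventually.of_forall fun w => ?_)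
        simp only [PiLp.smul_apply, smul_eq_mul, inv_pow]
        ring
      · intro w hw s hs
        have hs1 : l / 2 < s := by
          have := Metric.mem_ball.1 hs
          rw [Real.dist_eq] at this
          have := (abs_lt.1 this).1
          linarith
        have hs0 : 0 < s := by linarith
        constructor
        · have h1 := ((hasDerivAt_inv hs0.ne').smul_const w).const_sub x
          refine h1.congr_deriv ?_
          simp
        · rw [norm_smul, Real.norm_eq_abs, abs_of_pos (by positivity)]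
          have h1 : (s ^ 2)⁻¹ ≤ ((l / 2) ^ 2)⁻¹ := by
            apply inv_anti₀ (by positivity)
            exact pow_le_pow_left₀ (by linarith) hs1.le 2
          calc (s ^ 2)⁻¹ * ‖w‖ ≤ ((l / 2) ^ 2)⁻¹ * 1 :=
                mul_le_mul h1 (hρn w hw) (norm_nonneg _) (by positivity)
            _ = _ := mul_one _
    have hcc : ∀ (x : Eu 2) (l : ℝ), 0 < l →
        ContinuousAt (fun l => l⁻¹ ^ 2 * cvg (fun w => ρ w • pt (w 1) (-(w 0))) l v x) l := by
      intro x l hl
      refine ContinuousAt.mul ((continuousAt_inv₀ hl.ne').pow 2) ?_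
      simp only [hcv2]
      refine continuousAt_of_dominated (bound := fun w => 2 * L * |ρ w|) ?_ ?_ ?_ ?_
      · refine Filter.Eventually.of_forall fun s => Continuous.aestronglyMeasurable ?_
        have h0 : ∀ i : Fin 2, Continuous fun w => v (x - s⁻¹ • w) i := fun i =>
          (EuclideanSpace.proj i : Eu 2 →L[ℝ] ℝ).continuous.comp
            (hcv.comp (by fun_prop : Continuous fun w : Eu 2 => x - s⁻¹ • w))
        have h1 : ∀ i : Fin 2, Continuous fun w : Eu 2 => w i := fun i => (hpr i).continuous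
        exact (((h0 0).mul (h1 1)).sub ((h0 1).mul (h1 0))).mul hρcont
      · refine Filter.Eventually.of_forall fun s => Filter.Eventually.of_forall fun w => ?_
        by_cases hw : ρ w = 0
        · simp [hw]
        have h3 : ∀ i j : Fin 2, |v (x - s⁻¹ • w) i * w j| ≤ L * 1 := by
          intro i j
          rw [abs_mul]
          exact mul_le_mul ((coord_le _ i).trans (hL _)) ((coord_le _ j).trans (hρn w hw))
            (abs_nonneg _) hL0
        rw [Real.norm_eq_abs, abs_mul]
        refine mul_le_mul_of_nonneg_right ?_ (abs_nonneg _)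
        refine (abs_sub _ _).trans ?_
        have := h3 0 1
        have := h3 1 0
        linarith
      · exact ((continuous_const.mul hρcont.abs).integrable_of_hasCompactSupport
          (HasCompactSupport.mul_left hρc.norm))
      · refine Filter.Eventually.of_forall fun w => ?_
        have h0 : ∀ i : Fin 2, ContinuousAt (fun s : ℝ => v (x - s⁻¹ • w) i) l := fun i =>
          ContinuousAt.comp (f := fun s : ℝ => x - s⁻¹ • w) (g := fun z => v z i)
            ((EuclideanSpace.proj i : Eu 2 →L[ℝ] ℝ).continuous.comp hcv).continuousAt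
            (continuousAt_const.sub ((continuousAt_inv₀ hl.ne').smul continuousAt_const))
        exact (((h0 0).mul continuousAt_const).sub ((h0 1).mul continuousAt_const)).mul
          continuousAt_const
    intro ε hε
    refine ⟨max 1 (2 * L / ε), fun Λ hΛ x => ?_⟩
    have hΛ1 : 1 ≤ Λ := (le_max_left _ _).trans hΛ
    have hΛ0 : 0 < Λ := by linarith
    have hint : ∫ l in (1 : ℝ)..Λ, l⁻¹ ^ 2 * cvg (fun w => ρ w • pt (w 1) (-(w 0))) l v x =
        (∫ w, H (x - Λ⁻¹ • w) * ρ w) - ∫ w, H (x - (1 : ℝ)⁻¹ • w) * ρ w := by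
      refine intervalIntegral.integral_eq_sub_of_hasDerivAt
        (f := fun l => ∫ w, H (x - l⁻¹ • w) * ρ w) ?_ ?_
      · intro l hl
        rw [uIcc_of_le hΛ1] at hl
        exact hder x l (by linarith [hl.1])
      · refine ContinuousOn.intervalIntegrable ?_
        intro l hl
        rw [uIcc_of_le hΛ1] at hl
        exact (hcc x l (by linarith [hl.1])).continuousWithinAt
    rw [hint]
    have h1 : (∫ w, H (x - (1 : ℝ)⁻¹ • w) * ρ w) = ∫ w, H (x - w) * ρ w := by simp
    rw [h1]
    have h2 : H x = ∫ w, H x * ρ w := by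
      rw [integral_const_mul, hρ1, mul_one]
    have hI : Integrable (fun w => H (x - Λ⁻¹ • w) * ρ w) :=
      Continuous.integrable_of_hasCompactSupport
        ((hcH.comp (by fun_prop : Continuous fun w : Eu 2 => x - Λ⁻¹ • w)).mul hρcont) hρc.mul_left
    have h3 : H x - (∫ w, H (x - w) * ρ w) - ((∫ w, H (x - Λ⁻¹ • w) * ρ w) -
        ∫ w, H (x - w) * ρ w) = ∫ w, (H x * ρ w - H (x - Λ⁻¹ • w) * ρ w) := by
      rw [integral_sub (hρi.const_mul _) hI, ← h2]
      ring
    rw [h3, ← Real.norm_eq_abs]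
    refine (norm_integral_le_integral_norm _).trans ?_
    have h4 : ∀ w, ‖H x * ρ w - H (x - Λ⁻¹ • w) * ρ w‖ ≤ ε * ρ w := by
      intro w
      by_cases hw : ρ w = 0
      · simp [hw]
      rw [← sub_mul, Real.norm_eq_abs, abs_mul, abs_of_nonneg (hρ0 w)]
      refine mul_le_mul_of_nonneg_right ?_ (hρ0 w)
      refine (hlipH _ _).trans ?_
      rw [sub_sub_cancel, norm_smul, Real.norm_eq_abs, abs_of_pos (by positivity)]
      have h5 : 2 * L / ε ≤ Λ := (le_max_right _ _).trans hΛ
      rw [div_le_iff₀ hε] at h5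
      calc 2 * L * (Λ⁻¹ * ‖w‖) ≤ 2 * L * (Λ⁻¹ * 1) := by
            have := hρn w hw
            gcongr
        _ ≤ ε := by
            rw [mul_one, ← div_eq_mul_inv, div_le_iff₀ hΛ0]
            linarith
    calc ∫ w, ‖H x * ρ w - H (x - Λ⁻¹ • w) * ρ w‖ ≤ ∫ w, ε * ρ w :=
          integral_mono (((hρi.const_mul _).sub hI).norm) (hρi.const_mul _) h4
      _ = ε := by rw [integral_const_mul, hρ1, mul_one]
  · -- the oscillation of the mollified Hamiltonian
    intro M hM x x'
    have hM0 : 0 ≤ M := (abs_nonneg _).trans (hM 0).1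
    have hper : ∀ (z : Eu 2) (k : Fin 2 → ℤ), (∫ w, H (z + iv k - w) * ρ w) = ∫ w, H (z - w) * ρ w := by
      intro z k
      refine integral_congr_ae (Filter.Eventually.of_forall fun w => ?_)
      have : z + iv k - w = z - w + iv k := by abel
      simp only [this]
      rw [h.Hp]
    have hc0 : ∀ z, cvg (fun w => ρ w • pt 1 0) 1 v z = ∫ w, v (z - w) 0 * ρ w := by
      intro z
      unfold cvg
      refine integral_congr_ae (Filter.Eventually.of_forall fun w => ?_)
      simp only [inner_smul_right, PiLp.inner_apply, Fin.sum_univ_two, pt]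
      simp
      ring
    have hc1 : ∀ z, cvg (fun w => ρ w • pt 0 1) 1 v z = ∫ w, v (z - w) 1 * ρ w := by
      intro z
      unfold cvg
      refine integral_congr_ae (Filter.Eventually.of_forall fun w => ?_)
      simp only [inner_smul_right, PiLp.inner_apply, Fin.sum_univ_two, pt]
      simp
      ring
    have hiv : ∀ (z : Eu 2) (i : Fin 2), Integrable fun w => v (z - w) i * ρ w := by
      intro z i
      refine Continuous.integrable_of_hasCompactSupport ?_ hρc.mul_left
      exact ((EuclideanSpace.proj i : Eu 2 →L[ℝ] ℝ).continuous.comp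
        (hcv.comp (continuous_const.sub continuous_id))).mul hρcont
    have hline : ∀ y d : Eu 2, |(∫ w, H (y + d - w) * ρ w) - ∫ w, H (y - w) * ρ w| ≤
        2 * M * ‖d‖ := by
      intro y d
      have hder : ∀ s : ℝ, HasDerivAt (fun s : ℝ => ∫ w, H (y + s • d - w) * ρ w)
          (∫ w, (v (y + s • d - w) 0 * d 1 - v (y + s • d - w) 1 * d 0) * ρ w) s := by
        intro s
        refine pint h hL0 hL hρcont hρc (fun s w => y + s • d - w) (fun _ _ => d) s 1 ‖d‖ one_pos
          (norm_nonneg _) (fun s => continuous_const.sub continuous_id) continuous_const ?_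
        intro w hw s hs
        refine ⟨?_, le_rfl⟩
        have := (((hasDerivAt_id s).smul_const d).const_add y).sub_const w
        simpa using this
      have hbd : ∀ s : ℝ, ‖∫ w, (v (y + s • d - w) 0 * d 1 - v (y + s • d - w) 1 * d 0) * ρ w‖ ≤
          2 * M * ‖d‖ := by
        intro s
        have h1 : (∫ w, (v (y + s • d - w) 0 * d 1 - v (y + s • d - w) 1 * d 0) * ρ w) =
            d 1 * cvg (fun w => ρ w • pt 1 0) 1 v (y + s • d) -
              d 0 * cvg (fun w => ρ w • pt 0 1) 1 v (y + s • d) := by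
          rw [hc0, hc1, ← integral_const_mul, ← integral_const_mul, ← integral_sub]
          · refine integral_congr_ae (Filter.Eventually.of_forall fun w => ?_)
            simp only
            ring
          · exact (hiv _ 0).const_mul _
          · exact (hiv _ 1).const_mul _
        rw [h1, Real.norm_eq_abs]
        refine (abs_sub _ _).trans ?_
        rw [abs_mul, abs_mul]
        have h2 := mul_le_mul (coord_le d 1) (hM (y + s • d)).1 (abs_nonneg _) (norm_nonneg _)
        have h3 := mul_le_mul (coord_le d 0) (hM (y + s • d)).2 (abs_nonneg _) (norm_nonneg _)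
        linarith
      have := Convex.norm_image_sub_le_of_norm_hasDerivWithin_le (𝕜 := ℝ)
        (f := fun s : ℝ => ∫ w, H (y + s • d - w) * ρ w) (C := 2 * M * ‖d‖)
        (s := univ) (x := 0) (y := 1) (fun s _ => (hder s).hasDerivWithinAt) (fun s _ => hbd s)
        convex_univ (mem_univ _) (mem_univ _)
      simpa [Real.norm_eq_abs] using this
    obtain ⟨k, hk⟩ := DensBA.exists_cube (x - x')
    have h1 := hline x' (x - x' + iv k)
    have h2 : x' + (x - x' + iv k) = x + iv k := by abel
    rw [h2, hper x k] at h1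
    refine h1.trans ?_
    have h3 : ‖x - x' + iv k‖ ≤ 2 := by
      have h4 : ∀ i, |(x - x' + iv k) i| ≤ 1 := by
        intro i
        rw [abs_of_nonneg (hk i).1]
        exact (hk i).2.le
      rw [EuclideanSpace.norm_eq]
      rw [Real.sqrt_le_left (by norm_num)]
      simp only [Fin.sum_univ_two, Real.norm_eq_abs]
      have h5 := h4 0
      have h6 := h4 1
      have h7 := abs_nonneg ((x - x' + iv k) 0)
      have h8 := abs_nonneg ((x - x' + iv k) 1)
      nlinarith
    nlinarith

end

end TH
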