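import Mathlib
import Pool.Agent.TH.Defs
import Pool.Agent.TH.Ham
import Pool.Agent.TH.Dua
import Pool.Agent.TH.Cvg
import Pool.Agent.TH.Tel
import Pool.Agent.H68.VD.Tr
import Pool.Agent.H68.VD.WMean

/-!
# Project TH, TH-26: slicing for the norms of `W^{s,p}`, `-1 + 1/p < s < 0`
-/

set_option autoImplicit false

open MeasureTheory Set Pool.Agent.H68.VD
open scoped ENNReal ContDiff

namespace TH

noncomputable section

private theorem slw_one {g g' : ℝ → ℝ} (hg : ∀ r, HasDerivAt g (g' r) r) (hc : Continuous g')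
    (hp : ∀ (r : ℝ) (k : ℤ), g (r + k) = g r) (r₀ : ℝ) :
    ‖g r₀‖ₑ ≤ (∫⁻ r in Icc (0 : ℝ) 1, ‖g r‖ₑ) + ∫⁻ r in Icc (0 : ℝ) 1, ‖g' r‖ₑ := by
  set B : ℝ≥0∞ := ∫⁻ r in Icc (0 : ℝ) 1, ‖g' r‖ₑ with hB
  set r₁ : ℝ := Int.fract r₀ with hr₁
  have h0 : g r₀ = g r₁ := by
    have h1 := hp r₁ ⌊r₀⌋
    rw [← h1, hr₁, Int.fract_add_floor]
  have hr1 : r₁ ∈ Icc (0 : ℝ) 1 := ⟨Int.fract_nonneg _, (Int.fract_lt_one _).le⟩
  have hpt : ∀ r ∈ Icc (0 : ℝ) 1, ‖g r₀‖ₑ ≤ ‖g r‖ₑ + B := by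
    intro r hr
    have h2 : ∫ x in r..r₁, g' x = g r₁ - g r :=
      intervalIntegral.integral_eq_sub_of_hasDerivAt (fun x _ => hg x) (hc.intervalIntegrable _ _)
    have h3 : ‖∫ x in r..r₁, g' x‖ₑ ≤ B := by
      rw [intervalIntegral.intervalIntegral_eq_integral_uIoc, enorm_smul]
      have h4 : ‖(if r ≤ r₁ then (1 : ℝ) else -1)‖ₑ = 1 := by
        split_ifs <;> simp
      rw [h4, one_mul]
      refine (enorm_integral_le_lintegral_enorm _).trans ?_
      refine lintegral_mono_set ?_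
      intro x hx
      rw [uIoc, mem_Ioc] at hx
      exact ⟨(le_min hr.1 hr1.1).trans hx.1.le, hx.2.trans (max_le hr.2 hr1.2)⟩
    have h5 : g r₀ = g r + ∫ x in r..r₁, g' x := by
      rw [h2, h0]
      ring
    rw [h5]
    exact (enorm_add_le _ _).trans (add_le_add le_rfl h3)
  have hcg : Continuous g := continuous_iff_continuousAt.mpr fun x => (hg x).continuousAt
  have hvol : volume (Icc (0 : ℝ) 1) = 1 := by
    rw [Real.volume_Icc]
    simp
  calc ‖g r₀‖ₑ = ∫⁻ _ in Icc (0 : ℝ) 1, ‖g r₀‖ₑ := by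
        rw [setLIntegral_const, hvol, mul_one]
    _ ≤ ∫⁻ r in Icc (0 : ℝ) 1, (‖g r‖ₑ + B) :=
        setLIntegral_mono' measurableSet_Icc hpt
    _ = (∫⁻ r in Icc (0 : ℝ) 1, ‖g r‖ₑ) + B := by
        rw [lintegral_add_right _ measurable_const, setLIntegral_const, hvol, mul_one]

private theorem slw_pt (z : Eu 2) : pt (z 0) (z 1) = z := by
  ext j
  fin_cases j <;> rfl

private theorem slw_ln0 (a r : ℝ) : ln 0 a r = pt a r := by
  simp [ln]

private theorem slw_ln1 (a r : ℝ) : ln 1 a r = pt r a := by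
  simp [ln]

private theorem slw_ln_add (i : Fin 2) (a r : ℝ) (k : ℤ) :
    ∃ m : Fin 2 → ℤ, ln i a (r + k) = ln i a r + iv m := by
  fin_cases i
  · refine ⟨![0, k], ?_⟩
    change ln 0 a (r + k) = ln 0 a r + iv ![0, k]
    rw [slw_ln0, slw_ln0]
    ext j
    fin_cases j <;> simp [pt, iv]
  · refine ⟨![k, 0], ?_⟩
    change ln 1 a (r + k) = ln 1 a r + iv ![k, 0]
    rw [slw_ln1, slw_ln1]
    ext j
    fin_cases j <;> simp [pt, iv]

private theorem slw_ln_cont (i : Fin 2) : Continuous (fun z : ℝ × ℝ => ln i z.1 z.2) := by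
  have h : ∀ f g : ℝ × ℝ → ℝ, Continuous f → Continuous g →
      Continuous (fun z : ℝ × ℝ => pt (f z) (g z)) := by
    intro f g hf hg
    unfold pt
    refine (PiLp.continuous_toLp 2 _).comp ?_
    refine continuous_pi fun j => ?_
    fin_cases j
    · exact hf
    · exact hg
  fin_cases i
  · change Continuous (fun z : ℝ × ℝ => ln 0 z.1 z.2)
    simp only [slw_ln0]
    exact h _ _ continuous_fst continuous_snd
  · change Continuous (fun z : ℝ × ℝ => ln 1 z.1 z.2)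
    simp only [slw_ln1]
    exact h _ _ continuous_snd continuous_fst

private theorem slw_cont {K : Eu 2 → Eu 2} (hK : ContDiff ℝ ∞ K) (hKs : HasCompactSupport K)
    {u : Eu 2 → Eu 2} (hu : Continuous u) {l : ℝ} (hl : 0 < l) : Continuous (cvg K l u) :=
  (cvg_cont hK hKs hu).comp
    (Continuous.prodMk (continuous_const (y := (⟨l, hl⟩ : Ioi (0 : ℝ)))) continuous_id)

private theorem slw_dK {K : Eu 2 → Eu 2} (hK : ContDiff ℝ ∞ K) (w : Eu 2) :
    ContDiff ℝ ∞ (fun x => fderiv ℝ K x w) :=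
  (hK.fderiv_right (by simp)).clm_apply contDiff_const

/-- typical lines, all scales -/
private theorem slw_sup {s p : ℝ} (hp : 1 < p) (hs : -1 < s) (hs0 : s < 0) {K : Eu 2 → Eu 2}
    (hK : ContDiff ℝ ∞ K) (hKs : HasCompactSupport K) : ∃ C : ℝ, 0 ≤ C ∧ ∀ (i : Fin 2) (l : ℝ),
      1 ≤ l → ∀ u : Eu 2 → Eu 2, Continuous u → Per u →
      ∫⁻ a in Icc (0 : ℝ) 1, ⨆ r : ℝ, ‖cvg K l u (ln i a r)‖ₑ ≤
        ENNReal.ofReal (C * l ^ (1 / p - s)) * wspP s p u := by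
  obtain ⟨C0, hC0, h0⟩ := sup_line hp
  obtain ⟨C1, hC1, h1⟩ := dua hp hs hs0 hK hKs
  have h2 : ∀ i : Fin 2, ∃ C : ℝ, 0 ≤ C ∧ ∀ l : ℝ, 1 ≤ l → ∀ u : Eu 2 → Eu 2, Continuous u →
      Per u → (∫⁻ x in cube 2, ‖cvg (fun w => fderiv ℝ K w (ev (1 - i))) l u x‖ₑ ^ p) ^ (1 / p) ≤
        ENNReal.ofReal (C * l ^ (-s)) * wspP s p u := fun i =>
    dua hp hs hs0 (slw_dK hK _) (hKs.fderiv_apply ℝ _)
  choose C2 hC2 h2 using h2
  refine ⟨C0 * (C1 + (C2 0 + C2 1)), by have := hC2 0; have := hC2 1; positivity, ?_⟩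
  intro i l hl u hu hup
  have hl0 : 0 < l := by linarith
  have h3 := h0 i l hl (cvg K l u) (cvg (fun w => fderiv ℝ K w (ev (1 - i))) l u)
    (slw_cont hK hKs hu hl0) (slw_cont (slw_dK hK _) (hKs.fderiv_apply ℝ _) hu hl0)
    (cvg_per hup l) (cvg_per hup l) (fun a r => cvg_deriv hK hKs hu hl0 i a r)
  refine h3.trans ?_
  have h4 : C2 i ≤ C2 0 + C2 1 := by
    have e0 := hC2 0
    have e1 := hC2 1
    fin_cases i
    · change C2 0 ≤ C2 0 + C2 1
      linarith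
    · change C2 1 ≤ C2 0 + C2 1
      linarith
  have hls : (0 : ℝ) ≤ l ^ (-s) := Real.rpow_nonneg hl0.le _
  have hlp : (0 : ℝ) ≤ l ^ (1 / p) := Real.rpow_nonneg hl0.le _
  have h5 : ENNReal.ofReal (C1 * l ^ (-s)) * wspP s p u + ENNReal.ofReal (C2 i * l ^ (-s)) *
      wspP s p u ≤ ENNReal.ofReal ((C1 + (C2 0 + C2 1)) * l ^ (-s)) * wspP s p u := by
    rw [← add_mul, ← ENNReal.ofReal_add (mul_nonneg hC1 hls) (mul_nonneg (hC2 i) hls)]
    refine mul_le_mul_left (ENNReal.ofReal_le_ofReal ?_) _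
    rw [← add_mul]
    exact mul_le_mul_of_nonneg_right (by linarith) hls
  calc ENNReal.ofReal (C0 * l ^ (1 / p)) * ((∫⁻ x in cube 2, ‖cvg K l u x‖ₑ ^ p) ^ (1 / p) +
        (∫⁻ x in cube 2, ‖cvg (fun w => fderiv ℝ K w (ev (1 - i))) l u x‖ₑ ^ p) ^ (1 / p))
      ≤ ENNReal.ofReal (C0 * l ^ (1 / p)) *
        (ENNReal.ofReal (C1 * l ^ (-s)) * wspP s p u + ENNReal.ofReal (C2 i * l ^ (-s)) *
          wspP s p u) := by
        gcongr
        · exact h1 l hl u hu hup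
        · exact h2 i l hl u hu hup
    _ ≤ ENNReal.ofReal (C0 * l ^ (1 / p)) *
        (ENNReal.ofReal ((C1 + (C2 0 + C2 1)) * l ^ (-s)) * wspP s p u) := by
        gcongr
    _ = ENNReal.ofReal (C0 * (C1 + (C2 0 + C2 1)) * l ^ (1 / p - s)) * wspP s p u := by
        rw [← mul_assoc, ← ENNReal.ofReal_mul (mul_nonneg hC0 hlp)]
        congr 2
        rw [sub_eq_add_neg, Real.rpow_add hl0]
        ring

theorem sup_one {s p : ℝ} (hp : 1 < p) (hs : -1 < s) (hs0 : s < 0) {K : Eu 2 → Eu 2}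
    (hK : ContDiff ℝ ∞ K) (hKs : HasCompactSupport K) : ∃ C : ℝ, 0 ≤ C ∧ ∀ u : Eu 2 → Eu 2,
      Continuous u → Per u → ∀ z, ENNReal.ofReal |cvg K 1 u z| ≤ ENNReal.ofReal C * wspP s p u := by
  obtain ⟨C1, hC1, h1⟩ := slw_sup hp hs hs0 hK hKs
  obtain ⟨C2, hC2, h2⟩ := slw_sup hp hs hs0 (slw_dK hK (ev (1 - 1))) (hKs.fderiv_apply ℝ _)
  refine ⟨C1 + C2, by positivity, ?_⟩
  intro u hu hup z
  have hG := slw_cont hK hKs hu one_pos
  have hG' := slw_cont (slw_dK hK (ev (1 - 1))) (hKs.fderiv_apply ℝ _) hu one_pos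
  have hper : ∀ (r : ℝ) (k : ℤ), cvg K 1 u (ln 1 (z 1) (r + k)) = cvg K 1 u (ln 1 (z 1) r) := by
    intro r k
    obtain ⟨m, hm⟩ := slw_ln_add 1 (z 1) r k
    rw [hm]
    exact cvg_per hup 1 _ m
  have h3 := slw_one (g := fun r => cvg K 1 u (ln 1 (z 1) r))
    (g' := fun r => 1 * cvg (fun w => fderiv ℝ K w (ev (1 - 1))) 1 u (ln 1 (z 1) r))
    (fun r => cvg_deriv hK hKs hu one_pos 1 (z 1) r)
    (continuous_const.mul (hG'.comp ((slw_ln_cont 1).comp (Continuous.prodMk_right (z 1)))))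
    hper (z 0)
  have h4 : ln 1 (z 1) (z 0) = z := by
    rw [slw_ln1, slw_pt]
  simp only [h4, one_mul] at h3
  have h5 := h1 0 1 le_rfl u hu hup
  have h6 := h2 0 1 le_rfl u hu hup
  rw [Real.one_rpow, mul_one] at h5 h6
  have h7 : ∀ (G : Eu 2 → ℝ), ∫⁻ r in Icc (0 : ℝ) 1, ‖G (ln 1 (z 1) r)‖ₑ ≤
      ∫⁻ a in Icc (0 : ℝ) 1, ⨆ r : ℝ, ‖G (ln 0 a r)‖ₑ := by
    intro G
    refine lintegral_mono fun a => ?_
    refine le_trans (le_of_eq ?_) (le_iSup (fun r : ℝ => ‖G (ln 0 a r)‖ₑ) (z 1))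
    rw [slw_ln1, slw_ln0]
  rw [← Real.enorm_eq_ofReal_abs, ENNReal.ofReal_add hC1 hC2, add_mul]
  refine h3.trans (add_le_add ((h7 _).trans h5) ((h7 _).trans h6))

/-- subtraction of the mean -/
private theorem slw_mean {s p : ℝ} (hp : 1 < p) (hs0 : s < 0) {u : Eu 2 → Eu 2}
    (hu : Continuous u) (hup : Per u) :
    wspP s p (fun x => u x - mn u) ≤ 2 * wspP s p u := by
  have hn := wspNorm 2 s p hs0 hp
  rw [TrA.wspP_neg s p hs0]
  have hm : ENNReal.ofReal ‖mn u‖ ≤ wsp s p u := hn.1 u hu hup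
  have hc : wsp s p (fun _ : Eu 2 => mn u) ≤ ENNReal.ofReal ‖mn u‖ := hn.2 (mn u)
  have h1 : wsp s p (fun x => u x - mn u) ≤ wsp s p u + wsp s p (fun _ : Eu 2 => mn u) := by
    unfold wsp
    rw [if_neg (not_le.mpr hs0), if_neg (not_le.mpr hs0), if_neg (not_le.mpr hs0)]
    refine iSup₂_le fun v hv => ?_
    have hi1 : Integrable (fun x => (inner ℝ (u x) (v x) : ℝ)) (volume.restrict (cube 2)) := by
      have hcont : Continuous (fun x => (inner ℝ (u x) (v x) : ℝ)) := hu.inner hv.1.continuous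
      exact HsA.int_cube hcont
    have hi2 : Integrable (fun x => (inner ℝ (mn u) (v x) : ℝ)) (volume.restrict (cube 2)) := by
      have hcont : Continuous (fun x => (inner ℝ (mn u) (v x) : ℝ)) :=
        continuous_const.inner hv.1.continuous
      exact HsA.int_cube hcont
    have h2 : ∫ x in cube 2, inner ℝ (u x - mn u) (v x) =
        (∫ x in cube 2, inner ℝ (u x) (v x)) - ∫ x in cube 2, inner ℝ (mn u) (v x) := by
      rw [← integral_sub hi1 hi2]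
      refine integral_congr_ae (Filter.Eventually.of_forall fun x => ?_)
      exact inner_sub_left _ _ _
    rw [h2]
    refine (ENNReal.ofReal_le_ofReal (abs_sub _ _)).trans ?_
    refine (ENNReal.ofReal_add_le).trans ?_
    exact add_le_add
      (le_iSup₂ (f := fun (v : Eu 2 → Eu 2)
        (_ : ContDiff ℝ ∞ v ∧ Per v ∧ slob (-s) (p / (p - 1)) v ≤ 1) =>
        ENNReal.ofReal |∫ x in cube 2, inner ℝ (u x) (v x)|) v hv)
      (le_iSup₂ (f := fun (v : Eu 2 → Eu 2)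
        (_ : ContDiff ℝ ∞ v ∧ Per v ∧ slob (-s) (p / (p - 1)) v ≤ 1) =>
        ENNReal.ofReal |∫ x in cube 2, inner ℝ (mn u) (v x)|) v hv)
  calc wsp s p (fun x => u x - mn u) ≤ wsp s p u + wsp s p (fun _ : Eu 2 => mn u) := h1
    _ ≤ wsp s p u + wsp s p u := add_le_add le_rfl (hc.trans hm)
    _ = 2 * wsp s p u := (two_mul _).symm

/-- the supremum on a line is measurable -/
private theorem slw_meas {K : Eu 2 → Eu 2} (hK : ContDiff ℝ ∞ K) (hKs : HasCompactSupport K)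
    {u : Eu 2 → Eu 2} (hu : Continuous u) (i : Fin 2) :
    Measurable (fun z : ℝ × ℝ => ⨆ r : ℝ, ‖cvg K (max z.2 1) u (ln i z.1 r)‖ₑ) := by
  refine LowerSemicontinuous.measurable (lowerSemicontinuous_iSup fun r => ?_)
  refine Continuous.lowerSemicontinuous ?_
  have h1 : Continuous (fun z : ℝ × ℝ =>
      ((⟨max z.2 1, mem_Ioi.mpr (lt_of_lt_of_le one_pos (le_max_right z.2 1))⟩ : Ioi (0 : ℝ)),
        ln i z.1 r)) := by
    refine Continuous.prodMk ?_ ?_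
    · exact Continuous.subtype_mk (continuous_snd.max continuous_const) _
    · exact (slw_ln_cont i).comp (Continuous.prodMk continuous_fst continuous_const)
  exact ((cvg_cont hK hKs hu).comp h1).enorm

/-- the telescoping bound on one line -/
private theorem slw_line {K : Eu 2 → Eu 2} {v : Eu 2 → Eu 2} {H H₁ : Eu 2 → ℝ}
    (h1 : ∀ ε > 0, ∃ Λ₀ : ℝ, ∀ Λ ≥ Λ₀, ∀ x,
        |H x - H₁ x - ∫ l in (1 : ℝ)..Λ, l⁻¹ ^ 2 * cvg K l v x| ≤ ε) {M : ℝ}
    (h2 : ∀ x x', |H₁ x - H₁ x'| ≤ M) (i : Fin 2) (a : ℝ) (J : ℝ≥0∞)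
    (hJ : ∫⁻ l in Ioi (1 : ℝ), ENNReal.ofReal (l⁻¹ ^ 2) *
      ⨆ r : ℝ, ‖cvg K (max l 1) v (ln i a r)‖ₑ ≤ J) (y y' : ℝ) :
    ENNReal.ofReal |H (ln i a y) - H (ln i a y')| ≤ ENNReal.ofReal M + 2 * J := by
  have hM : 0 ≤ M := (abs_nonneg _).trans (h2 (ln i a y) (ln i a y'))
  rcases eq_or_ne J ⊤ with hJt | hJt
  · rw [hJt, ENNReal.mul_top two_ne_zero, add_top]
    exact le_top
  have hint : ∀ Λ : ℝ, 1 ≤ Λ → ∀ r : ℝ,
      |∫ l in (1 : ℝ)..Λ, l⁻¹ ^ 2 * cvg K l v (ln i a r)| ≤ J.toReal := by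
    intro Λ hΛ r
    rw [← ENNReal.ofReal_le_iff_le_toReal hJt, ← Real.enorm_eq_ofReal_abs,
      intervalIntegral.integral_of_le hΛ]
    refine (enorm_integral_le_lintegral_enorm _).trans (le_trans ?_ hJ)
    refine le_trans (setLIntegral_mono' measurableSet_Ioc fun l hl => ?_)
      (lintegral_mono_set (Ioc_subset_Ioi_self))
    rw [enorm_mul, Real.enorm_eq_ofReal (by positivity : (0 : ℝ) ≤ l⁻¹ ^ 2)]
    refine mul_le_mul_right ?_ _
    have h3 : max l 1 = l := max_eq_left hl.1.le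
    refine le_trans (le_of_eq ?_) (le_iSup (fun r : ℝ => ‖cvg K (max l 1) v (ln i a r)‖ₑ) r)
    rw [h3]
  have hmain : |H (ln i a y) - H (ln i a y')| ≤ M + 2 * J.toReal := by
    refine le_of_forall_pos_le_add fun ε hε => ?_
    obtain ⟨Λ₀, hΛ₀⟩ := h1 (ε / 2) (by positivity)
    have e1 := hΛ₀ (max Λ₀ 1) (le_max_left _ _) (ln i a y)
    have e2 := hΛ₀ (max Λ₀ 1) (le_max_left _ _) (ln i a y')
    have e3 := hint (max Λ₀ 1) (le_max_right _ _) y
    have e4 := hint (max Λ₀ 1) (le_max_right _ _) y'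
    have e5 := h2 (ln i a y) (ln i a y')
    rw [abs_le] at e1 e2 e3 e4 e5 ⊢
    constructor <;> linarith [e1.1, e1.2, e2.1, e2.2, e3.1, e3.2, e4.1, e4.2, e5.1, e5.2]
  refine (ENNReal.ofReal_le_ofReal hmain).trans ?_
  rw [ENNReal.ofReal_add hM (by positivity), ENNReal.ofReal_mul zero_le_two,
    ENNReal.ofReal_toReal hJt]
  simp

theorem slc_w_neg {s p : ℝ} (hp : 1 < p) (hs : -1 + 1 / p < s) (hs0 : s < 0) :
    Slc (wspP (n := 2) s p) := by
  have hp0 : 0 < p := by linarith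
  have hs1 : -1 < s := by
    have : 0 < 1 / p := by positivity
    linarith
  obtain ⟨K, K₀, K₁, hK, hKs, hK₀, hKs₀, hK₁, hKs₁, htel⟩ := tel
  obtain ⟨C, hC, hsup⟩ := slw_sup hp hs1 hs0 hK hKs
  obtain ⟨c₀, hc₀, hs₀⟩ := sup_one hp hs1 hs0 hK₀ hKs₀
  obtain ⟨c₁, hc₁, hs₁⟩ := sup_one hp hs1 hs0 hK₁ hKs₁
  -- the integral over the scales
  set D : ℝ≥0∞ := ∫⁻ l in Ioi (1 : ℝ), ENNReal.ofReal (C * l ^ (1 / p - s - 2)) with hD
  have hDt : D ≠ ⊤ := by
    have h1 : IntegrableOn (fun l : ℝ => C * l ^ (1 / p - s - 2)) (Ioi 1) :=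
      (integrableOn_Ioi_rpow_of_lt (by linarith) one_pos).const_mul C
    have h2 : 0 ≤ᵐ[volume.restrict (Ioi (1 : ℝ))] fun l : ℝ => C * l ^ (1 / p - s - 2) := by
      rw [Filter.EventuallyLE, ae_restrict_iff' measurableSet_Ioi]
      refine Filter.Eventually.of_forall fun l hl => ?_
      have hl0 : (0 : ℝ) < l := lt_trans one_pos hl
      exact mul_nonneg hC (Real.rpow_nonneg hl0.le _)
    rw [hD, ← ofReal_integral_eq_lintegral_ofReal h1 h2]
    exact ENNReal.ofReal_ne_top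
  refine ⟨2 * (4 * (c₀ + c₁) + 2 * D.toReal) + 1, by positivity, ?_⟩
  intro i u hu hup hud
  set N : ℝ≥0∞ := wspP s p u with hN
  rcases eq_or_ne N ⊤ with hNt | hNt
  · rw [hNt, ENNReal.mul_top (by
      rw [Ne, ENNReal.ofReal_eq_zero, not_le]
      positivity)]
    exact le_top
  obtain ⟨H, hMH, hf0, hf1⟩ := ham1 hu hup hud
  set v : Eu 2 → Eu 2 := fun x => u x - mn u with hv
  have hvc : Continuous v := hu.continuous.sub continuous_const
  have hvp : Per v := hMH.vp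
  set Nv : ℝ≥0∞ := wspP s p v with hNv
  have hNv2 : Nv ≤ 2 * N := slw_mean hp hs0 hu.continuous hup
  have hNvt : Nv ≠ ⊤ := ne_top_of_le_ne_top (ENNReal.mul_ne_top ENNReal.ofNat_ne_top hNt) hNv2
  obtain ⟨H₁, hH1, hH2⟩ := htel v H hMH
  set M : ℝ := (c₀ + c₁) * Nv.toReal with hM
  have hM0 : 0 ≤ M := by positivity
  have hMb : ∀ z, |cvg K₀ 1 v z| ≤ M ∧ |cvg K₁ 1 v z| ≤ M := by
    intro z
    have e0 := hs₀ v hvc hvp z
    have e1 := hs₁ v hvc hvp z
    rw [← hNv, ← ENNReal.ofReal_toReal hNvt, ← ENNReal.ofReal_mul hc₀,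
      ENNReal.ofReal_le_ofReal_iff (by positivity)] at e0
    rw [← hNv, ← ENNReal.ofReal_toReal hNvt, ← ENNReal.ofReal_mul hc₁,
      ENNReal.ofReal_le_ofReal_iff (by positivity)] at e1
    have e2 : c₀ * Nv.toReal ≤ M := by
      rw [hM]
      exact mul_le_mul_of_nonneg_right (by linarith) ENNReal.toReal_nonneg
    have e3 : c₁ * Nv.toReal ≤ M := by
      rw [hM]
      exact mul_le_mul_of_nonneg_right (by linarith) ENNReal.toReal_nonneg
    exact ⟨e0.trans e2, e1.trans e3⟩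
  have hH3 := hH2 M hMb
  -- the function of the line
  set S : ℝ → ℝ → ℝ≥0∞ := fun a l => ⨆ r : ℝ, ‖cvg K (max l 1) v (ln i a r)‖ₑ with hS
  set J : ℝ → ℝ≥0∞ := fun a => ∫⁻ l in Ioi (1 : ℝ), ENNReal.ofReal (l⁻¹ ^ 2) * S a l with hJ
  have hline : ∀ a y y', ENNReal.ofReal |H (ln i a y) - H (ln i a y')| ≤
      ENNReal.ofReal (4 * M) + 2 * J a := fun a y y' => slw_line hH1 hH3 i a (J a) le_rfl y y'
  have hflx : ∀ a y, ENNReal.ofReal |flx i u a y| ≤ ENNReal.ofReal (4 * M) + 2 * J a := by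
    intro a y
    have hcase : i = 0 ∨ i = 1 := by
      fin_cases i
      · exact Or.inl rfl
      · exact Or.inr rfl
    rcases hcase with hi | hi
    · have h1 := hline a y 0
      rw [hi, slw_ln0, slw_ln0] at h1
      rw [hi, hf0]
      exact h1
    · have h1 := hline a 0 y
      rw [hi, slw_ln1, slw_ln1] at h1
      rw [hi, hf1]
      exact h1
  have hosf : ∀ a, ENNReal.ofReal (osf i u a) ≤ ENNReal.ofReal (4 * M) + 2 * J a := by
    intro a
    rcases eq_or_ne (ENNReal.ofReal (4 * M) + 2 * J a) ⊤ with h | h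
    · rw [h]
      exact le_top
    rw [ENNReal.ofReal_le_iff_le_toReal h]
    refine csSup_le ((nonempty_Icc.mpr zero_le_one).image _) ?_
    rintro _ ⟨y, -, rfl⟩
    rw [← ENNReal.ofReal_le_iff_le_toReal h]
    exact hflx a y
  have hSm : Measurable (fun z : ℝ × ℝ => S z.1 z.2) := slw_meas hK hKs hvc i
  have hfm : Measurable (fun z : ℝ × ℝ => ENNReal.ofReal (z.2⁻¹ ^ 2) * S z.1 z.2) :=
    (ENNReal.measurable_ofReal.comp (measurable_snd.inv.pow_const 2)).mul hSm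
  have hJm : Measurable J := hfm.lintegral_prod_right'
  have hJint : ∫⁻ a in Icc (0 : ℝ) 1, J a ≤ D * Nv := by
    rw [hJ]
    rw [lintegral_lintegral_swap hfm.aemeasurable]
    have h1 : ∀ l ∈ Ioi (1 : ℝ), ∫⁻ a in Icc (0 : ℝ) 1, ENNReal.ofReal (l⁻¹ ^ 2) * S a l ≤
        ENNReal.ofReal (C * l ^ (1 / p - s - 2)) * Nv := by
      intro l hl
      have hl1 : (1 : ℝ) ≤ l := le_of_lt hl
      have hl0 : (0 : ℝ) < l := lt_of_lt_of_le one_pos hl1
      rw [lintegral_const_mul' _ _ ENNReal.ofReal_ne_top]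
      have h2 := hsup i l hl1 v hvc hvp
      have h3 : ∀ a, S a l = ⨆ r : ℝ, ‖cvg K l v (ln i a r)‖ₑ := by
        intro a
        simp only [hS, max_eq_left hl1]
      simp only [h3]
      refine (mul_le_mul_right h2 _).trans (le_of_eq ?_)
      rw [← mul_assoc, ← ENNReal.ofReal_mul (by positivity)]
      congr 2
      rw [show (1 / p - s - 2 : ℝ) = (1 / p - s) + (-2 : ℝ) by ring, Real.rpow_add hl0,
        Real.rpow_neg hl0.le, Real.rpow_two, inv_pow]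
      ring
    refine (setLIntegral_mono' measurableSet_Ioi h1).trans (le_of_eq ?_)
    rw [hD, lintegral_mul_const' _ _ hNvt]
  have hvol : volume (Icc (0 : ℝ) 1) = 1 := by
    rw [Real.volume_Icc]
    simp
  calc ∫⁻ a in Icc (0 : ℝ) 1, ENNReal.ofReal (osf i u a)
      ≤ ∫⁻ a in Icc (0 : ℝ) 1, (ENNReal.ofReal (4 * M) + 2 * J a) := lintegral_mono hosf
    _ = ENNReal.ofReal (4 * M) + 2 * ∫⁻ a in Icc (0 : ℝ) 1, J a := by
        rw [lintegral_add_left measurable_const, setLIntegral_const, hvol, mul_one,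
          lintegral_const_mul _ hJm]
    _ ≤ ENNReal.ofReal (4 * M) + 2 * (D * Nv) := by gcongr
    _ = ENNReal.ofReal (4 * (c₀ + c₁) + 2 * D.toReal) * Nv := by
        rw [ENNReal.ofReal_add (by positivity) (by positivity), add_mul,
          ENNReal.ofReal_mul (zero_le_two : (0 : ℝ) ≤ 2), ENNReal.ofReal_toReal hDt, hM,
          ← mul_assoc (4 : ℝ), ENNReal.ofReal_mul (by positivity : (0 : ℝ) ≤ 4 * (c₀ + c₁)),
          ENNReal.ofReal_toReal hNvt, ENNReal.ofReal_ofNat, mul_assoc]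
    _ ≤ ENNReal.ofReal (4 * (c₀ + c₁) + 2 * D.toReal) * (2 * N) := by gcongr
    _ = ENNReal.ofReal (2 * (4 * (c₀ + c₁) + 2 * D.toReal)) * N := by
        rw [ENNReal.ofReal_mul (zero_le_two : (0 : ℝ) ≤ 2), ENNReal.ofReal_ofNat]
        ring
    _ ≤ ENNReal.ofReal (2 * (4 * (c₀ + c₁) + 2 * D.toReal) + 1) * N := by
        refine mul_le_mul_left (ENNReal.ofReal_le_ofReal (by linarith)) _

end

end TH
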